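import Pool.Agent.Lib.MP_4aff23_co.Stm

set_option autoImplicit false

universe u v w

namespace Pool.Agent.Lib.MP_4aff23_co

theorem IsFatMinor.mono {V : Type v} {Δ : SimpleGraph V} {X : Type u} [MetricSpace X]
    {K K' : ℝ} {B : V → Set X} {P : Sym2 V → Set X} (h : IsFatMinor Δ X K B P) (hK : K' ≤ K) :
    IsFatMinor Δ X K' B P where
  connected := h.connected
  disjoint_branch := h.disjoint_branch
  disjoint_path := h.disjoint_path
  arc := h.arc
  far_branch a b hab x hx y hy := hK.trans (h.far_branch a b hab x hx y hy)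
  far_path e he f hf hef x hx y hy := hK.trans (h.far_path e he f hf hef x hx y hy)
  far_branch_path a e he hae x hx y hy := hK.trans (h.far_branch_path a e he hae x hx y hy)

/-- asymptotic minors are inherited by ordinary minors -/
theorem asym_of_minor (hC : S_CLO.{u, v, w}) {X : Type u} [MetricSpace X] {V : Type v}
    {W : Type w} {Δ : SimpleGraph V} {H : SimpleGraph W} (h : IsMinor H Δ)
    (hX : IsAsymptoticMinor Δ X) : IsAsymptoticMinor H X := by
  intro K hK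
  obtain ⟨B, P, hBP⟩ := hX K hK
  exact hC X K V W Δ H B P hK h hBP

/-- the witness space of a finite graph -/
theorem exists_space (hL : S_LEN.{u}) (hF : S_FAT.{u, 0}) (hN : S_NRV.{u, u, 0})
    (hS : S_SUB.{u}) (hU : S_UNS.{u, u, 0}) (hW : S_WED.{u, 0}) (hH : S_HOM.{0, u, 0})
    (D : FinGraph) :
    ∃ (X : Type u) (_ : MetricSpace X), IsLengthSpace X ∧ IsAsymptoticMinor D.2 X ∧
      ∀ Δ : FinGraph, TwoConnThree Δ.2 → IsAsymptoticMinor Δ.2 X → IsMinor Δ.2 D.2 := by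
  obtain ⟨M, hM1, hM2⟩ := hW (ULift.{u} (Fin D.1)) (D.2.comap ULift.down)
  refine ⟨M.Pt, inferInstance, hL M, ?_, ?_⟩
  · intro K hK
    obtain ⟨n, hn⟩ := exists_nat_gt (3 * K)
    obtain ⟨ι, h1, h2, h3⟩ := hM1 n
    obtain ⟨B, P, hBP⟩ := hF M (Fin D.1) D.2 (fun a => ι (ULift.up a)) (n + 1) (by omega)
      (fun a b hab => ULift.up_injective (h1 hab)) (fun a b hab => h2 _ _ hab)
      (fun a b hab => h3 _ _ hab)
    refine ⟨B, P, hBP.mono ?_⟩
    push_cast
    linarith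
  · intro Δ hΔ hX
    obtain ⟨B, P, hBP⟩ := hX 2 (by norm_num)
    obtain ⟨A, S, ι, p, U, hsub, hU1, hU2, hU3, hU4⟩ := hS M
    have e1 : IsMinor Δ.2 S := hN M.Pt 2 A S U (Fin Δ.1) Δ.2 B P hU1 hU2 hU3 hU4 hBP
    have e2 : IsMinor Δ.2 M.G := hU M.V A (Fin Δ.1) M.G M.len S ι p Δ.2 M.len_comm M.len_pos
      hsub hΔ.2 e1
    have e3 := hM2 (Fin Δ.1) Δ.2 hΔ e2
    exact hH.1 (Fin Δ.1) (ULift.{u} (Fin D.1)) (Fin D.1) Δ.2 (D.2.comap ULift.down) D.2 ULift.down
      ULift.down_injective (fun a b hab => hab) e3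

/-- a basis can replace the set -/
theorem replaces_of_basis (hC : S_CLO.{u, 0, 0}) {F F₀ : Set FinGraph} (h : IsBasis F₀ F) :
    Replaces.{u} F₀ F := by
  obtain ⟨h1, h3⟩ := h
  refine fun X _ _ => ⟨fun hX Δ hΔ => hX Δ (h1 hΔ), fun hX Δ hΔ hcon => ?_⟩
  obtain ⟨D, hD, hm⟩ := h3 Δ hΔ
  exact hX D hD (asym_of_minor hC hm hcon)

/-- for 2-connected graphs of minimum degree at least three every replacement yields a basis -/
theorem basis_of_replaces (hC : S_CLO.{u, 0, 0}) (hL : S_LEN.{u}) (hF : S_FAT.{u, 0})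
    (hN : S_NRV.{u, u, 0}) (hS : S_SUB.{u}) (hU : S_UNS.{u, u, 0}) (hW : S_WED.{u, 0})
    (hH : S_HOM.{0, u, 0}) {F F₀ : Set FinGraph} (hT : ∀ Δ ∈ F, TwoConnThree Δ.2)
    (h1 : Replaces.{u} F₀ F) : ∃ F₁ : Set FinGraph, IsBasis F₁ F ∧ F₁.encard ≤ F₀.encard := by
  classical
  have sp := exists_space hL hF hN hS hU hW hH
  have key : ∀ D ∈ F₀, ∃ Δ ∈ F, IsMinor Δ.2 D.2 := by
    intro D hD
    obtain ⟨X, _, hX1, hX2, hX3⟩ := sp D
    by_contra hcon
    push Not at hcon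
    refine (h1 X hX1).1 (fun Δ hΔ hX => hcon Δ hΔ (hX3 Δ (hT Δ hΔ) hX)) D hD hX2
  choose! m hmF hmD using key
  refine ⟨m '' F₀, ⟨?_, ?_⟩, Set.encard_image_le m F₀⟩
  · rintro _ ⟨D, hD, rfl⟩
    exact hmF D hD
  · intro Δ hΔ
    obtain ⟨X, _, hX1, hX2, hX3⟩ := sp Δ
    have : ∃ D ∈ F₀, IsAsymptoticMinor D.2 X := by
      by_contra hcon
      push Not at hcon
      exact (h1 X hX1).2 hcon Δ hΔ hX2
    obtain ⟨D, hD, hDX⟩ := this
    exact ⟨m D, ⟨D, hD, rfl⟩, hX3 (m D) (hT _ (hmF D hD)) (asym_of_minor hC (hmD D hD) hDX)⟩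

/-- a relation that is good on every sequence has finite bases -/
theorem exists_finite_basis {α : Type v} (r : α → α → Prop)
    (h : ∀ G : ℕ → α, ∃ i j, i < j ∧ r (G i) (G j)) (F : Set α) :
    ∃ F₀ : Set α, F₀ ⊆ F ∧ F₀.Finite ∧ ∀ x ∈ F, ∃ y ∈ F₀, r y x := by
  classical
  by_contra hcon
  push Not at hcon
  obtain ⟨f, hf1, hf2⟩ := exists_seq_of_forall_finset_exists (fun x => x ∈ F)
    (fun x y => ¬ r x y) (fun s hs => by
      obtain ⟨y, hy, hy'⟩ := hcon (s : Set α) (fun x hx => hs x hx) s.finite_toSet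
      exact ⟨y, hy, fun x hx => hy' x hx⟩)
  obtain ⟨i, j, hij, hr⟩ := h f
  exact hf2 i j hij hr

/-- the triple cone as a finite graph -/
theorem exists_cone3 (G : FinGraph) : ∃ G' : FinGraph, Nonempty
    (G'.2 ≃g cone (cone (cone G.2))) := by
  let e := (Fintype.equivFin (Option (Option (Option (Fin G.1))))).symm
  exact ⟨⟨_, (cone (cone (cone G.2))).comap e⟩, ⟨⟨e, by intro a b; exact Iff.rfl⟩⟩⟩

theorem twoConnThree_of_iso {V : Type v} {W : Type w} {G : SimpleGraph V} {H : SimpleGraph W}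
    (e : G ≃g H) (h : TwoConnThree H) : TwoConnThree G := by
  refine ⟨fun x => ?_, fun x => ?_⟩
  · have h1 := h.1 (e x)
    have e1 : G.induce {x}ᶜ ≃g H.induce {e x}ᶜ :=
      { toFun := fun a => ⟨e a.1, fun hh => a.2 (e.injective hh)⟩
        invFun := fun a => ⟨e.symm a.1, fun hh => a.2 (by
          have h3 : e.symm a.1 = x := hh
          have h4 : a.1 = e x := (e.apply_symm_apply a.1).symm.trans (congrArg e h3)
          exact h4)⟩
        left_inv := fun a => Subtype.ext (e.symm_apply_apply _)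
        right_inv := fun a => Subtype.ext (e.apply_symm_apply _)
        map_rel_iff' := by
          intro a b
          exact e.map_rel_iff' }
    exact e1.connected_iff.mpr h1
  · have h2 := h.2 (e x)
    have : H.neighborSet (e x) = e '' G.neighborSet x := by
      ext y
      constructor
      · intro hy
        refine ⟨e.symm y, ?_, e.apply_symm_apply y⟩
        have : G.Adj x (e.symm y) := by
          rw [← e.map_adj_iff, e.apply_symm_apply]
          exact hy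
        exact this
      · rintro ⟨z, hz, rfl⟩
        exact e.map_adj_iff.mpr hz
    rw [this, e.injective.encard_image] at h2
    exact h2

/-- The main theorem, from the pieces. -/
theorem main (hC : S_CLO.{u, 0, 0}) (hL : S_LEN.{u}) (hF : S_FAT.{u, 0})
    (hN : S_NRV.{u, u, 0}) (hS : S_SUB.{u}) (hU : S_UNS.{u, u, 0}) (hW : S_WED.{u, 0})
    (hH : S_HOM.{0, u, 0}) (hH0 : S_HOM.{0, 0, 0}) (hE : S_CNE.{0, 0}) (hB : S_FIN) :
    (∀ F₀ F : Set FinGraph, IsBasis F₀ F → Replaces.{u} F₀ F) ∧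
    (∀ F₀ F : Set FinGraph, (∀ Δ ∈ F, TwoConnThree Δ.2) → Replaces.{u} F₀ F →
      ∃ F₁ : Set FinGraph, IsBasis F₁ F ∧ F₁.encard ≤ F₀.encard) ∧
    List.TFAE [Q1.{u}, AsymptoticWQO.{u}, GraphMinorTheorem, RobertsonSeymour] := by
  have p1 : ∀ F₀ F : Set FinGraph, IsBasis F₀ F → Replaces.{u} F₀ F :=
    fun F₀ F h => replaces_of_basis hC h
  have p2 : ∀ F₀ F : Set FinGraph, (∀ Δ ∈ F, TwoConnThree Δ.2) → Replaces.{u} F₀ F →
      ∃ F₁ : Set FinGraph, IsBasis F₁ F ∧ F₁.encard ≤ F₀.encard :=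
    fun F₀ F hT h => basis_of_replaces hC hL hF hN hS hU hW hH hT h
  have p3 : Q1.{u} → GraphMinorTheorem := by
    intro hQ G
    by_cases hne : ∃ i, (G i).1 = 0
    · obtain ⟨i, hi⟩ := hne
      have hz : ∀ a : Fin (G i).1, False := fun a => by
        have := a.2
        omega
      exact ⟨i, i + 1, Nat.lt_succ_self i, fun a => (hz a).elim, fun a => (hz a).elim,
        fun a => (hz a).elim, fun a => (hz a).elim⟩
    push Not at hne
    choose c hc using exists_cone3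
    have hnice : ∀ i, TwoConnThree (c (G i)).2 := by
      intro i
      obtain ⟨e⟩ := hc (G i)
      have : Nonempty (Fin (G i).1) := ⟨⟨0, Nat.pos_of_ne_zero (hne i)⟩⟩
      exact twoConnThree_of_iso e (hE.2 _ (G i).2 this)
    obtain ⟨F', hF'1, hF'2⟩ := hQ (Set.range fun i => c (G i))
    obtain ⟨F₀, ⟨h1, h3⟩, h2⟩ := p2 F' (Set.range fun i => c (G i)) (by
      rintro _ ⟨i, rfl⟩; exact hnice i) hF'2
    replace h2 : F₀.Finite := Set.finite_of_encard_le_coe (k := F'.ncard) (by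
      rw [hF'1.cast_ncard_eq]; exact h2)
    have h4 : ∀ D ∈ F₀, ∃ i, c (G i) = D := fun D hD => h1 hD
    choose! ix hix using h4
    obtain ⟨N, hN'⟩ := (h2.image ix).bddAbove
    obtain ⟨D, hD, hDm⟩ := h3 (c (G (N + 1))) ⟨N + 1, rfl⟩
    refine ⟨ix D, N + 1, Nat.lt_succ_of_le (hN' ⟨D, hD, rfl⟩), ?_⟩
    rw [← hix D hD] at hDm
    obtain ⟨e⟩ := hc (G (ix D))
    obtain ⟨e'⟩ := hc (G (N + 1))
    have m1 : IsMinor (cone (cone (cone (G (ix D)).2))) (c (G (N + 1))).2 :=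
      hH0.2.1 _ _ _ _ _ _ e.symm e.symm.injective (fun a b hab => e.symm.map_adj_iff.mpr hab) hDm
    have m2 : IsMinor (cone (cone (cone (G (ix D)).2))) (cone (cone (cone (G (N + 1)).2))) :=
      hH0.1 _ _ _ _ _ _ e' e'.injective (fun a b hab => e'.map_adj_iff.mpr hab) m1
    exact hE.1 _ _ _ _ (hE.1 _ _ _ _ (hE.1 _ _ _ _ m2))
  refine ⟨p1, p2, ?_⟩
  tfae_have 1 → 3 := p3
  tfae_have 3 → 2 := by
    intro h G
    obtain ⟨i, j, hij, hm⟩ := h G
    exact ⟨i, j, hij, fun X _ _ hX => asym_of_minor hC hm hX⟩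
  tfae_have 2 → 1 := by
    intro h F
    obtain ⟨F₀, h1, h2, h3⟩ := exists_finite_basis (fun D Δ : FinGraph =>
      ∀ (X : Type u) [MetricSpace X], IsLengthSpace X →
        IsAsymptoticMinor Δ.2 X → IsAsymptoticMinor D.2 X) h F
    refine ⟨F₀, h2, fun X _ hXl => ⟨fun hX Δ hΔ => hX Δ (h1 hΔ), fun hX Δ hΔ hcon => ?_⟩⟩
    obtain ⟨D, hD, hm⟩ := h3 Δ hΔ
    exact hX D hD (hm X hXl hcon)
  tfae_have 3 ↔ 4 := hB.1.trans hB.2.symm
  tfae_finish

end Pool.Agent.Lib.MP_4aff23_co
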