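import Mathlib

/-!
# Asymptotic minors of length spaces: definitions for MP_4aff23_co
-/

universe u v w

namespace Pool.Agent.Lib.MP_4aff23_co

/-- `IsMinor H G`: `H` is an (ordinary) minor of `G`.  There are pairwise disjoint vertex sets
`M w` of `G`, one for each vertex `w` of `H`, each inducing a connected (so nonempty) subgraph
of `G`, such that for every edge `ab` of `H` some edge of `G` joins `M a` to `M b`. -/
def IsMinor {W : Type w} {V : Type v} (H : SimpleGraph W) (G : SimpleGraph V) : Prop :=
  ∃ M : W → Set V, (∀ a, (G.induce (M a)).Connected) ∧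
    (∀ a b, a ≠ b → Disjoint (M a) (M b)) ∧
    ∀ a b, H.Adj a b → ∃ x ∈ M a, ∃ y ∈ M b, G.Adj x y

/-- A length space: a metric space in which the distance between two points is the infimum of the
lengths of the paths joining them (the length of a path is its total variation). -/
def IsLengthSpace (X : Type u) [MetricSpace X] : Prop :=
  ∀ x y : X, edist x y = ⨅ γ : Path x y, eVariationOn (fun t : unitInterval => γ t) Set.univ

/-- `IsFatMinor Δ X K B P`: the branch sets `B v` and the branch paths `P e` form a `K`-fat
`Δ`-minor of `X`. -/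
structure IsFatMinor {V : Type v} (Δ : SimpleGraph V) (X : Type u) [MetricSpace X] (K : ℝ)
    (B : V → Set X) (P : Sym2 V → Set X) : Prop where
  /-- the branch sets are connected (and nonempty) -/
  connected : ∀ v, IsConnected (B v)
  /-- the branch sets are pairwise disjoint -/
  disjoint_branch : ∀ u v, u ≠ v → Disjoint (B u) (B v)
  /-- the branch paths are pairwise disjoint -/
  disjoint_path : ∀ e ∈ Δ.edgeSet, ∀ f ∈ Δ.edgeSet, e ≠ f → Disjoint (P e) (P f)
  /-- the branch path of the edge `uv` is an arc (a continuous injective image of `[0,1]`) which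
  meets the union of the branch sets exactly in its two endpoints, one in `B u`, one in `B v` -/
  arc : ∀ u v, Δ.Adj u v → ∃ γ : unitInterval → X, Continuous γ ∧ Function.Injective γ ∧
    Set.range γ = P s(u, v) ∧ γ 0 ∈ B u ∧ γ 1 ∈ B v ∧ P s(u, v) ∩ ⋃ w, B w = {γ 0, γ 1}
  /-- two different branch sets have distance at least `K` -/
  far_branch : ∀ u v, u ≠ v → ∀ x ∈ B u, ∀ y ∈ B v, K ≤ dist x y
  /-- two different branch paths have distance at least `K` -/
  far_path : ∀ e ∈ Δ.edgeSet, ∀ f ∈ Δ.edgeSet, e ≠ f → ∀ x ∈ P e, ∀ y ∈ P f, K ≤ dist x y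
  /-- a branch set and a branch path that are not incident have distance at least `K` -/
  far_branch_path : ∀ v, ∀ e ∈ Δ.edgeSet, v ∉ e → ∀ x ∈ B v, ∀ y ∈ P e, K ≤ dist x y

/-- `Δ` is an asymptotic minor of `X`: for every `K > 0` there is a `K`-fat `Δ`-minor of `X`. -/
def IsAsymptoticMinor {V : Type v} (Δ : SimpleGraph V) (X : Type u) [MetricSpace X] : Prop :=
  ∀ K : ℝ, 0 < K → ∃ (B : V → Set X) (P : Sym2 V → Set X), IsFatMinor Δ X K B P

/-- A finite graph (up to isomorphism: a simple graph on `Fin n`). -/
abbrev FinGraph : Type := Σ n : ℕ, SimpleGraph (Fin n)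

/-- `X` excludes `F` asymptotically: no member of `F` is an asymptotic minor of `X`. -/
def Excludes (X : Type u) [MetricSpace X] (F : Set FinGraph) : Prop :=
  ∀ Δ ∈ F, ¬ IsAsymptoticMinor Δ.2 X

/-- `F₀` can replace `F`: for every length space `X` (in the universe `u`), `X` excludes `F`
asymptotically if and only if `X` excludes `F₀` asymptotically. -/
def Replaces (F₀ F : Set FinGraph) : Prop :=
  ∀ (X : Type u) [MetricSpace X], IsLengthSpace X → (Excludes X F ↔ Excludes X F₀)

/-- The question Q1: every set of finite graphs can be replaced by a finite one. -/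
def Q1 : Prop := ∀ F : Set FinGraph, ∃ F₀ : Set FinGraph, F₀.Finite ∧ Replaces.{u} F₀ F

/-- `F₀` is a basis of `F` for the minor order: it is a subset of `F` and every member of `F` has a
member of `F₀` as a minor. -/
def IsBasis (F₀ F : Set FinGraph) : Prop :=
  F₀ ⊆ F ∧ ∀ Δ ∈ F, ∃ D ∈ F₀, IsMinor D.2 Δ.2

/-- In every infinite sequence of finite graphs there are `i < j` such that every length space
having the later graph as an asymptotic minor has the earlier one as an asymptotic minor. -/
def AsymptoticWQO : Prop :=
  ∀ G : ℕ → FinGraph, ∃ i j, i < j ∧ ∀ (X : Type u) [MetricSpace X], IsLengthSpace X →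
    IsAsymptoticMinor (G j).2 X → IsAsymptoticMinor (G i).2 X

/-- Every vertex has at least three neighbours and removing any one vertex leaves a connected
graph. -/
def TwoConnThree {V : Type v} (Δ : SimpleGraph V) : Prop :=
  (∀ x, (Δ.induce {x}ᶜ).Connected) ∧ ∀ x, 3 ≤ (Δ.neighborSet x).encard

/-- The theorem of Robertson and Seymour, in the form quoted in the problem file: every
minor-closed class of finite graphs is the class of the graphs having no minor in some finite set
of graphs. -/
def RobertsonSeymour : Prop :=
  ∀ C : Set FinGraph, (∀ G ∈ C, ∀ H : FinGraph, IsMinor H.2 G.2 → H ∈ C) →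
    ∃ F₀ : Set FinGraph, F₀.Finite ∧ ∀ G : FinGraph, G ∈ C ↔ ∀ D ∈ F₀, ¬ IsMinor D.2 G.2

/-- The graph minor theorem: in every infinite sequence of finite graphs an earlier one is a minor
of a later one. -/
def GraphMinorTheorem : Prop :=
  ∀ G : ℕ → FinGraph, ∃ i j, i < j ∧ IsMinor (G i).2 (G j).2

end Pool.Agent.Lib.MP_4aff23_co
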