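import Mathlib

/-!
# Metric graphs with integer edge lengths

The metric is the largest one for which every edge is a segment of the given length: the distance
of two points is the supremum of `|f x - f y|` over all functions `f` that are Lipschitz with
constant the length of the edge along every edge.
-/

universe u

open scoped Classical

noncomputable section

namespace Pool.Agent.Lib.MP_4aff23_co

/-- A connected graph with positive integer edge lengths. -/
structure MGraph : Type (u + 1) where
  V : Type u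
  G : SimpleGraph V
  conn : G.Connected
  len : V → V → ℕ
  len_comm : ∀ a b, len a b = len b a
  len_pos : ∀ a b, G.Adj a b → 1 ≤ len a b

/-- The point with barycentric coordinates `1 - t` at `a` and `t` at `b`. -/
def bary {V : Type u} (a b : V) (t : ℝ) : V → ℝ :=
  fun c => (if c = a then 1 - t else 0) + (if c = b then t else 0)

namespace MGraph

/-- The points of the metric graph, given by barycentric coordinates. -/
@[ext] structure Pt (M : MGraph.{u}) : Type u where
  coord : M.V → ℝ
  prop : ∃ a b : M.V, (a = b ∨ M.G.Adj a b) ∧ ∃ t : unitInterval, coord = bary a b t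

variable {M : MGraph.{u}}

/-- The vertex `a` as a point. -/
def vtx (a : M.V) : M.Pt := ⟨bary a a 0, a, a, Or.inl rfl, 0, rfl⟩

/-- The point at position `t` on the edge from `a` to `b`. -/
def seg {a b : M.V} (h : M.G.Adj a b) (t : unitInterval) : M.Pt :=
  ⟨bary a b t, a, b, Or.inr h, t, rfl⟩

theorem coord_vtx (a c : M.V) : (vtx a : M.Pt).coord c = if c = a then 1 else 0 := by
  simp [vtx, bary]

theorem coord_seg {a b : M.V} (h : M.G.Adj a b) (t : unitInterval) (c : M.V) :
    (seg h t).coord c = (if c = a then 1 - (t : ℝ) else 0) + (if c = b then (t : ℝ) else 0) := rfl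

theorem coord_seg_left {a b : M.V} (h : M.G.Adj a b) (t : unitInterval) :
    (seg h t).coord a = 1 - (t : ℝ) := by
  rw [coord_seg, if_pos rfl, if_neg h.ne, add_zero]

theorem coord_seg_right {a b : M.V} (h : M.G.Adj a b) (t : unitInterval) :
    (seg h t).coord b = t := by
  rw [coord_seg, if_neg h.ne', if_pos rfl, zero_add]

theorem coord_seg_other {a b c : M.V} (h : M.G.Adj a b) (t : unitInterval) (ha : c ≠ a)
    (hb : c ≠ b) : (seg h t).coord c = 0 := by
  rw [coord_seg, if_neg ha, if_neg hb, zero_add]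

theorem seg_zero {a b : M.V} (h : M.G.Adj a b) : seg h 0 = vtx a := by
  ext c; rw [coord_seg, coord_vtx]; simp

theorem seg_one {a b : M.V} (h : M.G.Adj a b) : seg h 1 = vtx b := by
  ext c; rw [coord_seg, coord_vtx]; simp

theorem seg_symm {a b : M.V} (h : M.G.Adj a b) (t : unitInterval) :
    seg h t = seg h.symm (unitInterval.symm t) := by
  ext c; rw [coord_seg, coord_seg]; simp [add_comm]

/-- Every point is a vertex or lies on an edge. -/
theorem exists_rep (x : M.Pt) :
    (∃ a, x = vtx a) ∨ ∃ (a b : M.V) (h : M.G.Adj a b) (t : unitInterval), x = seg h t := by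
  obtain ⟨f, a, b, h, t, rfl⟩ := x
  rcases h with rfl | h
  · left
    refine ⟨a, ?_⟩
    ext c
    rw [coord_vtx]
    by_cases hc : c = a <;> simp [bary, hc]
  · exact Or.inr ⟨a, b, h, t, rfl⟩

/-- Functions that are Lipschitz along each edge, with constant the length of the edge. -/
def Adm (f : M.Pt → ℝ) : Prop :=
  ∀ (a b : M.V) (h : M.G.Adj a b) (s t : unitInterval),
    |f (seg h s) - f (seg h t)| ≤ M.len a b * |(s : ℝ) - t|

theorem adm_zero : Adm (fun _ : M.Pt => (0 : ℝ)) := by
  intro a b h s t
  simp only [sub_self, abs_zero]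
  positivity

/-- The barycentric coordinates are admissible. -/
theorem adm_coord (c : M.V) : Adm (fun x : M.Pt => x.coord c) := by
  intro a b h s t
  have h1 : (1 : ℝ) ≤ M.len a b := by exact_mod_cast M.len_pos a b h
  have h2 : |(seg h s).coord c - (seg h t).coord c| ≤ |(s : ℝ) - t| := by
    by_cases hb : c = b
    · subst hb
      rw [coord_seg_right, coord_seg_right]
    · by_cases ha : c = a
      · subst ha
        rw [coord_seg_left, coord_seg_left]
        rw [show 1 - (s : ℝ) - (1 - (t : ℝ)) = -((s : ℝ) - t) by ring, abs_neg]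
      · rw [coord_seg_other h s ha hb, coord_seg_other h t ha hb]
        simp
  calc _ ≤ |(s : ℝ) - t| := h2
    _ ≤ M.len a b * |(s : ℝ) - t| := by nlinarith [abs_nonneg ((s : ℝ) - t)]

theorem abs_sub_le_one (s t : unitInterval) : |(s : ℝ) - t| ≤ 1 := by
  rw [abs_le]
  constructor <;> nlinarith [s.2.1, s.2.2, t.2.1, t.2.2]

/-- Admissible functions have bounded differences between vertices. -/
theorem bdd_vtx (a b : M.V) : ∃ C : ℝ, ∀ f : M.Pt → ℝ, Adm f → |f (vtx a) - f (vtx b)| ≤ C := by
  obtain ⟨p⟩ := M.conn.preconnected a b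
  induction p with
  | nil => exact ⟨0, fun f _ => by simp⟩
  | @cons u v w h p ih =>
    obtain ⟨C, hC⟩ := ih
    refine ⟨M.len u v + C, fun f hf => ?_⟩
    have h1 := hf _ _ h 0 1
    rw [seg_zero, seg_one] at h1
    have h2 : |((0 : unitInterval) : ℝ) - (1 : unitInterval)| = 1 := by simp
    rw [h2, mul_one] at h1
    calc |f (vtx u) - f (vtx w)| = |(f (vtx u) - f (vtx v)) + (f (vtx v) - f (vtx w))| := by
          rw [sub_add_sub_cancel]
      _ ≤ _ := abs_add_le _ _
      _ ≤ _ := add_le_add h1 (hC f hf)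

/-- Every point is within bounded variation of a vertex. -/
theorem bdd_to_vtx (x : M.Pt) : ∃ a : M.V, ∃ C : ℝ, ∀ f : M.Pt → ℝ, Adm f →
    |f x - f (vtx a)| ≤ C := by
  rcases exists_rep x with ⟨a, rfl⟩ | ⟨a, b, h, t, rfl⟩
  · exact ⟨a, 0, fun f _ => by simp⟩
  · refine ⟨a, M.len a b, fun f hf => ?_⟩
    have h1 := hf _ _ h t 0
    rw [seg_zero] at h1
    refine h1.trans ?_
    have := abs_sub_le_one t 0
    have h3 : (0 : ℝ) ≤ M.len a b := by positivity
    nlinarith

theorem bdd (x y : M.Pt) : ∃ C : ℝ, ∀ f : M.Pt → ℝ, Adm f → |f x - f y| ≤ C := by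
  obtain ⟨a, C1, h1⟩ := bdd_to_vtx x
  obtain ⟨b, C2, h2⟩ := bdd_to_vtx y
  obtain ⟨C3, h3⟩ := bdd_vtx a b
  refine ⟨C1 + C3 + C2, fun f hf => ?_⟩
  have e1 := h1 f hf
  have e2 := h2 f hf
  have e3 := h3 f hf
  rw [abs_sub_comm] at e2
  calc |f x - f y| = |(f x - f (vtx a)) + (f (vtx a) - f (vtx b)) + (f (vtx b) - f y)| := by
        congr 1; ring
    _ ≤ |(f x - f (vtx a)) + (f (vtx a) - f (vtx b))| + |f (vtx b) - f y| := abs_add_le _ _
    _ ≤ |f x - f (vtx a)| + |f (vtx a) - f (vtx b)| + |f (vtx b) - f y| := by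
        gcongr; exact abs_add_le _ _
    _ ≤ _ := by linarith

instance : Nonempty {f : M.Pt → ℝ // Adm f} := ⟨⟨_, adm_zero⟩⟩

/-- The distance. -/
def gdist (x y : M.Pt) : ℝ := ⨆ f : {f : M.Pt → ℝ // Adm f}, |f.1 x - f.1 y|

theorem bddAbove (x y : M.Pt) :
    BddAbove (Set.range fun f : {f : M.Pt → ℝ // Adm f} => |f.1 x - f.1 y|) := by
  obtain ⟨C, hC⟩ := bdd x y
  exact ⟨C, by rintro _ ⟨f, rfl⟩; exact hC f.1 f.2⟩

theorem le_gdist {f : M.Pt → ℝ} (hf : Adm f) (x y : M.Pt) : |f x - f y| ≤ gdist x y :=
  le_ciSup (bddAbove x y) ⟨f, hf⟩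

theorem gdist_le {x y : M.Pt} {C : ℝ} (h : ∀ f : M.Pt → ℝ, Adm f → |f x - f y| ≤ C) :
    gdist x y ≤ C := ciSup_le fun f => h f.1 f.2

instance : MetricSpace M.Pt where
  dist := gdist
  dist_self x := le_antisymm (gdist_le fun f _ => by simp)
    ((abs_nonneg _).trans (le_gdist adm_zero x x))
  dist_comm x y := by
    show gdist x y = gdist y x
    unfold gdist
    simp_rw [abs_sub_comm]
  dist_triangle x y z := by
    refine gdist_le fun f hf => ?_
    calc |f x - f z| = |(f x - f y) + (f y - f z)| := by congr 1; ring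
      _ ≤ |f x - f y| + |f y - f z| := abs_add_le _ _
      _ ≤ _ := add_le_add (le_gdist hf x y) (le_gdist hf y z)
  eq_of_dist_eq_zero := by
    intro x y hxy
    ext c
    have h1 := le_gdist (adm_coord c) x y
    change gdist x y = 0 at hxy
    rw [hxy] at h1
    have h2 := abs_nonpos_iff.mp h1
    linarith

/-- lower bound for the distance -/
theorem le_dist {f : M.Pt → ℝ} (hf : Adm f) (x y : M.Pt) : |f x - f y| ≤ dist x y :=
  le_gdist hf x y

/-- upper bound for the distance -/
theorem dist_le {x y : M.Pt} {C : ℝ} (h : ∀ f : M.Pt → ℝ, Adm f → |f x - f y| ≤ C) :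
    dist x y ≤ C := gdist_le h

/-- the edges are (at most) as long as they should be -/
theorem dist_seg_le {a b : M.V} (h : M.G.Adj a b) (s t : unitInterval) :
    dist (seg h s) (seg h t) ≤ M.len a b * |(s : ℝ) - t| :=
  dist_le fun _ hf => hf a b h s t

theorem continuous_seg {a b : M.V} (h : M.G.Adj a b) : Continuous (seg h : unitInterval → M.Pt) := by
  have : LipschitzWith (M.len a b : NNReal) (seg h : unitInterval → M.Pt) := by
    refine LipschitzWith.of_dist_le_mul fun s t => ?_
    refine (dist_seg_le h s t).trans ?_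
    simp [Subtype.dist_eq, Real.dist_eq]
  exact this.continuous

/-- admissible functions are continuous -/
theorem Adm.continuous {f : M.Pt → ℝ} (hf : Adm f) : Continuous f := by
  have : LipschitzWith 1 f := by
    refine LipschitzWith.of_dist_le_mul fun x y => ?_
    rw [Real.dist_eq]
    simpa using le_dist hf x y
  exact this.continuous

theorem continuous_coord (c : M.V) : Continuous fun x : M.Pt => x.coord c :=
  (adm_coord c).continuous

end MGraph

end Pool.Agent.Lib.MP_4aff23_co
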