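import Pool.Agent.Lib.MP_4aff23_co.Stm

set_option autoImplicit false

/-!
# MP_4aff23_co: a minor of a graph with a fat minor model has a fat minor model
-/

universe u v w

namespace Pool.Agent.Lib.MP_4aff23_co

/-- the edge `e'` of `Δ` joins the branch sets of the ends of `e`, in both orders. -/
private def CLO_good {V : Type v} {W : Type w} (Δ : SimpleGraph V) (M : W → Set V)
    (e : Sym2 W) (e' : Sym2 V) : Prop :=
  e' ∈ Δ.edgeSet ∧ ∀ a b, e = s(a, b) → ∃ x ∈ M a, ∃ y ∈ M b, e' = s(x, y)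

private lemma CLO_choose {V : Type v} {W : Type w} (Δ : SimpleGraph V) (H : SimpleGraph W)
    (M : W → Set V) (hc : ∀ a, (Δ.induce (M a)).Connected)
    (hM : ∀ a b, H.Adj a b → ∃ x ∈ M a, ∃ y ∈ M b, Δ.Adj x y) :
    ∃ φ : Sym2 W → Sym2 V, ∀ e ∈ H.edgeSet, CLO_good Δ M e (φ e) := by
  have key : ∀ e : Sym2 W, ∃ e' : Sym2 V, e ∈ H.edgeSet → CLO_good Δ M e e' := by
    intro e
    induction e using Sym2.ind with
    | _ a b =>
      by_cases hab : H.Adj a b
      · obtain ⟨x, hx, y, hy, hxy⟩ := hM a b hab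
        refine ⟨s(x, y), fun _ => ⟨hxy, ?_⟩⟩
        intro a' b' h
        rcases Sym2.eq_iff.1 h with ⟨h1, h2⟩ | ⟨h1, h2⟩
        · subst h1; subst h2
          exact ⟨x, hx, y, hy, rfl⟩
        · subst h1; subst h2
          exact ⟨y, hy, x, hx, Sym2.eq_swap⟩
      · obtain ⟨x⟩ := (hc a).nonempty
        exact ⟨s(x.1, x.1), fun h => absurd h hab⟩
  choose φ hφ using key
  exact ⟨φ, hφ⟩

private lemma CLO_star {X : Type u} [TopologicalSpace X] {V : Type v} (N : Set V) (B : Set X)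
    (Q : V → Set X) (hB : IsConnected B) (hQ : ∀ y ∈ N, IsPreconnected (Q y))
    (hm : ∀ y ∈ N, (B ∩ Q y).Nonempty) :
    IsConnected (B ∪ ⋃ y ∈ N, Q y) := by
  obtain ⟨p, hp⟩ := hB.nonempty
  refine ⟨⟨p, Or.inl hp⟩, ?_⟩
  refine isPreconnected_of_forall p ?_
  rintro q (hq | hq)
  · exact ⟨B, Set.subset_union_left, hp, hq, hB.isPreconnected⟩
  · simp only [Set.mem_iUnion] at hq
    obtain ⟨y, hy, hq⟩ := hq
    refine ⟨B ∪ Q y, ?_, Or.inl hp, Or.inr hq, hB.isPreconnected.union' (hm y hy) (hQ y hy)⟩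
    rintro r (hr | hr)
    · exact Or.inl hr
    · exact Or.inr (Set.mem_biUnion hy hr)

theorem p_CLO : S_CLO.{u, v, w} := by
  intro X _ K V W Δ H B P hK hmin hF
  obtain ⟨M, hMc, hMd, hMe⟩ := hmin
  obtain ⟨φ, hφ⟩ := CLO_choose Δ H M hMc hMe
  -- uniqueness of the branch set
  have huniq : ∀ {a b : W} {x : V}, x ∈ M a → x ∈ M b → a = b := by
    intro a b x ha hb
    by_contra hne
    exact Set.disjoint_left.1 (hMd a b hne) ha hb
  let B' : W → Set X := fun a => (⋃ x ∈ M a, B x) ∪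
    ⋃ e ∈ {e : Sym2 V | e ∈ Δ.edgeSet ∧ ∀ z ∈ e, z ∈ M a}, P e
  have hB' : ∀ a p, p ∈ B' a ↔ (∃ x ∈ M a, p ∈ B x) ∨
      ∃ e, (e ∈ Δ.edgeSet ∧ ∀ z ∈ e, z ∈ M a) ∧ p ∈ P e := by
    intro a p
    simp only [B', Set.mem_union, Set.mem_iUnion, Set.mem_ofPred_eq, exists_prop]
  -- arcs are connected
  have hPc : ∀ x y, Δ.Adj x y → IsPreconnected (P s(x, y)) ∧ (B x ∩ P s(x, y)).Nonempty := by
    intro x y hxy
    obtain ⟨γ, hγ, -, hr, h0, h1, -⟩ := hF.arc x y hxy
    refine ⟨?_, γ 0, h0, ?_⟩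
    · rw [← hr]
      exact isPreconnected_range hγ
    · rw [← hr]
      exact Set.mem_range_self _
  have hconn : ∀ a, IsConnected (B' a) := by
    intro a
    let S : V → Set X := fun x => B x ∪ ⋃ y ∈ {y : V | Δ.Adj x y ∧ y ∈ M a}, P s(x, y)
    have hS : ∀ x, IsConnected (S x) := by
      intro x
      refine CLO_star _ (B x) (fun y => P s(x, y)) (hF.connected x) ?_ ?_
      · intro y hy
        exact (hPc x y hy.1).1
      · intro y hy
        exact (hPc x y hy.1).2
    have hEq : B' a = ⋃ x ∈ M a, S x := by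
      ext p
      rw [hB']
      simp only [Set.mem_iUnion, exists_prop, S, Set.mem_union, Set.mem_ofPred_eq]
      constructor
      · rintro (⟨x, hx, hp⟩ | ⟨e, ⟨he, hz⟩, hp⟩)
        · exact ⟨x, hx, Or.inl hp⟩
        · induction e using Sym2.ind with
          | _ x y =>
            exact ⟨x, hz x (Sym2.mem_mk_left x y), Or.inr
              ⟨y, ⟨he, hz y (Sym2.mem_mk_right x y)⟩, hp⟩⟩
      · rintro ⟨x, hx, hp | ⟨y, ⟨hxy, hy⟩, hp⟩⟩
        · exact Or.inl ⟨x, hx, hp⟩
        · refine Or.inr ⟨s(x, y), ⟨hxy, ?_⟩, hp⟩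
          intro z hz
          rcases Sym2.mem_iff.1 hz with rfl | rfl
          · exact hx
          · exact hy
    rw [hEq]
    have hne : (M a).Nonempty := by
      obtain ⟨x⟩ := (hMc a).nonempty
      exact ⟨x.1, x.2⟩
    refine IsConnected.biUnion_of_reflTransGen hne (fun x _ => hS x) ?_
    intro x hx y hy
    have hr : (Δ.induce (M a)).Reachable ⟨x, hx⟩ ⟨y, hy⟩ := (hMc a).preconnected _ _
    rw [SimpleGraph.reachable_iff_reflTransGen] at hr
    refine Relation.ReflTransGen.lift (r := (Δ.induce (M a)).Adj) (fun z : M a => z.1) ?_ _ _ hr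
    rintro ⟨p, hp⟩ ⟨q, hq⟩ hpq
    have hpq' : Δ.Adj p q := hpq
    refine ⟨?_, hp⟩
    obtain ⟨t, -, ht⟩ := (hPc p q hpq').2
    refine ⟨t, Or.inr ?_, Or.inr ?_⟩
    · exact Set.mem_biUnion (x := q) (s := {y : V | Δ.Adj p y ∧ y ∈ M a})
        (t := fun y => P s(p, y)) ⟨hpq', hq⟩ ht
    · refine Set.mem_biUnion (x := p) (s := {y : V | Δ.Adj q y ∧ y ∈ M a})
        (t := fun y => P s(q, y)) ⟨hpq'.symm, hp⟩ ?_
      rw [Sym2.eq_swap]
      exact ht
  -- distances of branch sets
  have hfar : ∀ a b, a ≠ b → ∀ x ∈ B' a, ∀ y ∈ B' b, K ≤ dist x y := by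
    intro a b hab x hx y hy
    rcases (hB' a x).1 hx with ⟨p, hp, hx⟩ | ⟨e, ⟨he, hez⟩, hx⟩
    · rcases (hB' b y).1 hy with ⟨q, hq, hy⟩ | ⟨f, ⟨hf, hfz⟩, hy⟩
      · refine hF.far_branch p q ?_ x hx y hy
        rintro rfl
        exact hab (huniq hp hq)
      · refine hF.far_branch_path p f hf ?_ x hx y hy
        intro h
        exact hab (huniq hp (hfz p h))
    · rcases (hB' b y).1 hy with ⟨q, hq, hy⟩ | ⟨f, ⟨hf, hfz⟩, hy⟩
      · rw [dist_comm]
        refine hF.far_branch_path q e he ?_ y hy x hx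
        intro h
        exact hab (huniq (hez q h) hq)
      · refine hF.far_path e he f hf ?_ x hx y hy
        rintro rfl
        induction e using Sym2.ind with
        | _ p q =>
          exact hab (huniq (hez p (Sym2.mem_mk_left p q)) (hfz p (Sym2.mem_mk_left p q)))
  -- the selected edges are different
  have hinj : ∀ e ∈ H.edgeSet, ∀ f ∈ H.edgeSet, e ≠ f → φ e ≠ φ f := by
    intro e he f hf hne heq
    have hge := hφ e he
    have hgf := hφ f hf
    induction e using Sym2.ind with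
    | _ a b =>
      induction f using Sym2.ind with
      | _ c d =>
        obtain ⟨x, hx, y, hy, h1⟩ := hge.2 a b rfl
        obtain ⟨z, hz, t, ht, h2⟩ := hgf.2 c d rfl
        rw [h1, h2] at heq
        rcases Sym2.eq_iff.1 heq with ⟨h3, h4⟩ | ⟨h3, h4⟩
        · subst h3; subst h4
          have h5 := huniq hx hz
          have h6 := huniq hy ht
          exact hne (by rw [h5, h6])
        · subst h3; subst h4
          have h5 := huniq hx ht
          have h6 := huniq hy hz
          exact hne (by rw [h5, h6]; exact Sym2.eq_swap)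
  refine ⟨B', fun e => P (φ e), hconn, ?_, ?_, ?_, hfar, ?_, ?_⟩
  · intro a b hab
    rw [Set.disjoint_left]
    intro p hp hq
    have := hfar a b hab p hp p hq
    rw [dist_self] at this
    exact absurd hK (not_lt.2 this)
  · intro e he f hf hne
    exact hF.disjoint_path _ (hφ e he).1 _ (hφ f hf).1 (hinj e he f hf hne)
  · intro a b hab
    have hg := hφ s(a, b) hab
    obtain ⟨x, hx, y, hy, hxy⟩ := hg.2 a b rfl
    have hadj : Δ.Adj x y := by
      have := hg.1
      rw [hxy] at this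
      exact this
    obtain ⟨γ, hγ, hγi, hr, h0, h1, hi⟩ := hF.arc x y hadj
    have h0' : γ 0 ∈ B' a := (hB' a _).2 (Or.inl ⟨x, hx, h0⟩)
    have h1' : γ 1 ∈ B' b := (hB' b _).2 (Or.inl ⟨y, hy, h1⟩)
    refine ⟨γ, hγ, hγi, ?_, h0', h1', ?_⟩
    · rw [hr, hxy]
    · show P (φ s(a, b)) ∩ _ = _
      rw [hxy]
      apply Set.Subset.antisymm
      · rintro p ⟨hp, hpB⟩
        obtain ⟨c, hc⟩ := Set.mem_iUnion.1 hpB
        rcases (hB' c p).1 hc with ⟨z, hz, hpz⟩ | ⟨e, ⟨he, hez⟩, hpe⟩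
        · rw [← hi]
          exact ⟨hp, Set.mem_iUnion.2 ⟨z, hpz⟩⟩
        · exfalso
          have hne : e ≠ s(x, y) := by
            rintro rfl
            have h5 := huniq hx (hez x (Sym2.mem_mk_left x y))
            have h6 := huniq hy (hez y (Sym2.mem_mk_right x y))
            have hab' : H.Adj a b := hab
            exact hab'.ne (h5.trans h6.symm)
          exact Set.disjoint_left.1 (hF.disjoint_path e he s(x, y) hadj hne) hpe hp
      · rintro p (rfl | rfl)
        · refine ⟨?_, Set.mem_iUnion.2 ⟨a, h0'⟩⟩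
          rw [← hr]
          exact Set.mem_range_self _
        · refine ⟨?_, Set.mem_iUnion.2 ⟨b, h1'⟩⟩
          rw [← hr]
          exact Set.mem_range_self _
  · intro e he f hf hne x hx y hy
    exact hF.far_path _ (hφ e he).1 _ (hφ f hf).1 (hinj e he f hf hne) x hx y hy
  · intro c e he hce x hx y hy
    have hg := hφ e he
    induction e using Sym2.ind with
    | _ a b =>
      obtain ⟨p, hp, q, hq, hpq⟩ := hg.2 a b rfl
      have hca : c ≠ a := by
        rintro rfl
        exact hce (Sym2.mem_mk_left _ _)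
      have hcb : c ≠ b := by
        rintro rfl
        exact hce (Sym2.mem_mk_right _ _)
      rcases (hB' c x).1 hx with ⟨z, hz, hxz⟩ | ⟨f, ⟨hf, hfz⟩, hxf⟩
      · refine hF.far_branch_path z _ hg.1 ?_ x hxz y hy
        rw [hpq]
        intro h
        rcases Sym2.mem_iff.1 h with rfl | rfl
        · exact hca (huniq hz hp)
        · exact hcb (huniq hz hq)
      · refine hF.far_path f hf _ hg.1 ?_ x hxf y hy
        rintro h
        apply hca
        refine huniq (hfz p ?_) hp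
        rw [h, hpq]
        exact Sym2.mem_mk_left _ _

end Pool.Agent.Lib.MP_4aff23_co
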