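import Pool.Agent.Lib.MP_4aff23_co.Stm

set_option autoImplicit false

/-! # [CNE] cones -/

universe v w

namespace Pool.Agent.Lib.MP_4aff23_co

theorem CNE_conn {W : Type w} (H : SimpleGraph W) (S : Set (Option W)) (h0 : none ∉ S)
    (hc : ((cone H).induce S).Connected) : (H.induce {x | some x ∈ S}).Connected := by
  have hne : ∀ x : S, (x : Option W) ≠ none := fun x hx => h0 (hx ▸ x.2)
  have hget : ∀ x : S, ∃ y : W, (x : Option W) = some y := fun x =>
    Option.ne_none_iff_exists'.1 (hne x)
  choose g hg using hget
  have hmem : ∀ x : S, some (g x) ∈ S := fun x => by rw [← hg x]; exact x.2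
  let f : (cone H).induce S →g H.induce {x | some x ∈ S} :=
    { toFun := fun x => ⟨g x, hmem x⟩
      map_rel' := by
        intro a b hab
        have h1 : (cone H).Adj (a : Option W) (b : Option W) := hab
        rw [hg a, hg b] at h1
        exact h1 }
  refine hc.map f ?_
  rintro ⟨y, hy⟩
  refine ⟨⟨some y, hy⟩, ?_⟩
  apply Subtype.ext
  have := hg ⟨some y, hy⟩
  exact (Option.some.inj this).symm

theorem CNE_reflect (V : Type v) (W : Type w) (G : SimpleGraph V) (H : SimpleGraph W)
    (h : IsMinor (cone G) (cone H)) : IsMinor G H := by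
  classical
  obtain ⟨B, hB, hd, he⟩ := h
  have key : ∃ σ : V → Option V, Function.Injective σ ∧
      (∀ a b, G.Adj a b → (cone G).Adj (σ a) (σ b)) ∧ ∀ a, none ∉ B (σ a) := by
    by_cases hn : ∃ c, none ∈ B (some c)
    · obtain ⟨c, hc⟩ := hn
      have hother : ∀ y, y ≠ some c → none ∉ B y := fun y hy hmem =>
        Set.disjoint_left.1 (hd y (some c) hy) hmem hc
      refine ⟨fun a => if a = c then none else some a, ?_, ?_, ?_⟩
      · intro a b hab
        by_cases ha : a = c <;> by_cases hb : b = c
        · rw [ha, hb]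
        · simp [ha, hb] at hab
        · simp [ha, hb] at hab
        · simpa [ha, hb] using hab
      · intro a b hab
        by_cases ha : a = c
        · have hb : b ≠ c := fun hb => hab.ne (ha.trans hb.symm)
          simp only [ha, hb, if_true, if_false]
          exact trivial
        · by_cases hb : b = c
          · simp only [ha, hb, if_true, if_false]
            exact trivial
          · simp only [ha, hb, if_false]
            exact hab
      · intro a
        apply hother
        by_cases ha : a = c
        · simp [ha]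
        · simp [ha]
    · exact ⟨some, Option.some_injective V, fun a b hab => hab, fun a hmem => hn ⟨a, hmem⟩⟩
  obtain ⟨σ, hσ, hadj, hnone⟩ := key
  refine ⟨fun a => {x | some x ∈ B (σ a)}, fun a => CNE_conn H _ (hnone a) (hB _), ?_, ?_⟩
  · intro a b hab
    rw [Set.disjoint_left]
    intro x hx hx'
    exact Set.disjoint_left.1 (hd _ _ (fun hh => hab (hσ hh))) hx hx'
  · intro a b hab
    obtain ⟨x, hx, y, hy, hxy⟩ := he _ _ (hadj a b hab)
    rcases x with _ | x
    · exact absurd hx (hnone a)
    rcases y with _ | y
    · exact absurd hy (hnone b)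
    exact ⟨x, hx, y, hy, hxy⟩

theorem CNE_three {A : Type v} (Δ : SimpleGraph A) (x a b c : A) (hab : a ≠ b) (hac : a ≠ c)
    (hbc : b ≠ c) (ha : Δ.Adj x a) (hb : Δ.Adj x b) (hc : Δ.Adj x c) :
    3 ≤ (Δ.neighborSet x).encard := by
  have h1 : ({a, b, c} : Set A).encard = 3 :=
    Set.encard_eq_three.2 ⟨a, b, c, hab, hac, hbc, rfl⟩
  rw [← h1]
  apply Set.encard_le_encard
  rintro y (rfl | rfl | rfl)
  · exact ha
  · exact hb
  · exact hc

theorem CNE_univ {A : Type v} (Δ : SimpleGraph A) (x u : A) (hux : u ≠ x)
    (hu : ∀ y, y ≠ u → Δ.Adj u y) : (Δ.induce {x}ᶜ).Connected := by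
  rw [SimpleGraph.connected_iff_exists_forall_reachable]
  refine ⟨⟨u, hux⟩, ?_⟩
  rintro ⟨y, hy⟩
  by_cases hyu : y = u
  · subst hyu
    exact SimpleGraph.Reachable.refl _
  · exact SimpleGraph.Adj.reachable (show (Δ.induce {x}ᶜ).Adj ⟨u, hux⟩ ⟨y, hy⟩ from hu y hyu)

theorem p_CNE : S_CNE.{v, w} := by
  refine ⟨CNE_reflect, ?_⟩
  intro V G hV
  obtain ⟨v0⟩ := hV
  have u1 : ∀ y, y ≠ none → (cone (cone (cone G))).Adj none y := by
    rintro (_ | y) hy
    · exact absurd rfl hy
    · exact trivial
  have u2 : ∀ y, y ≠ some none → (cone (cone (cone G))).Adj (some none) y := by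
    rintro (_ | _ | y) hy
    · exact trivial
    · exact absurd rfl hy
    · exact trivial
  have u3 : ∀ y, y ≠ some (some none) → (cone (cone (cone G))).Adj (some (some none)) y := by
    rintro (_ | _ | _ | y) hy
    · exact trivial
    · exact trivial
    · exact absurd rfl hy
    · exact trivial
  constructor
  · rintro (_ | x)
    · exact CNE_univ _ _ (some none) (by simp) u2
    · exact CNE_univ _ _ none (by simp) u1
  · rintro (_ | _ | _ | x)
    · exact CNE_three _ _ (some none) (some (some none)) (some (some (some v0))) (by simp)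
        (by simp) (by simp) (u1 _ (by simp)) (u1 _ (by simp)) (u1 _ (by simp))
    · exact CNE_three _ _ none (some (some none)) (some (some (some v0))) (by simp)
        (by simp) (by simp) (u2 _ (by simp)) (u2 _ (by simp)) (u2 _ (by simp))
    · exact CNE_three _ _ none (some none) (some (some (some v0))) (by simp)
        (by simp) (by simp) (u3 _ (by simp)) (u3 _ (by simp)) (u3 _ (by simp))
    · exact CNE_three _ _ none (some none) (some (some none)) (by simp)
        (by simp) (by simp) (u1 _ (by simp)).symm (u2 _ (by simp)).symm (u3 _ (by simp)).symm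

end Pool.Agent.Lib.MP_4aff23_co
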