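import Pool.Agent.Lib.MP_4aff23_co.Stm

set_option autoImplicit false

/-!
# MP_4aff23_co: piece CUT (cut vertices)
-/

universe u v w

namespace Pool.Agent.Lib.MP_4aff23_co

/-- A property that passes along the edges inside a connected set. -/
theorem CUT_prop {A : Type u} {Γ : SimpleGraph A} {S : Set A} (hS : (Γ.induce S).Connected)
    {P : A → Prop} (hP : ∀ a ∈ S, ∀ b ∈ S, Γ.Adj a b → P a → P b) {a b : A} (ha : a ∈ S)
    (hb : b ∈ S) (h : P a) : P b := by
  obtain ⟨p⟩ := hS.preconnected ⟨a, ha⟩ ⟨b, hb⟩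
  have key : ∀ (x y : S), (Γ.induce S).Walk x y → P x.1 → P y.1 := by
    intro x y p
    induction p with
    | nil => exact id
    | @cons x1 x2 x3 hadj p ih => exact fun hx => ih (hP x1.1 x1.2 x2.1 x2.2 hadj hx)
  exact key _ _ p h

theorem CUT_conn {A : Type u} {Γ : SimpleGraph A} {S T : Set A} (hT : T ⊆ S)
    (h : (Γ.induce T).Connected) : ((Γ.induce S).induce {a : S | a.1 ∈ T}).Connected := by
  let f : Γ.induce T →g (Γ.induce S).induce {a : S | a.1 ∈ T} :=
    { toFun := fun a => ⟨⟨a.1, hT a.2⟩, a.2⟩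
      map_rel' := fun {a b} h => h }
  refine h.map f ?_
  rintro ⟨⟨a, ha⟩, hb⟩
  exact ⟨⟨a, hb⟩, rfl⟩

theorem CUT_minor {A : Type u} {W : Type w} {Γ : SimpleGraph A} {Δ : SimpleGraph W} (S : Set A)
    (M : W → Set A) (hM : ∀ d, M d ⊆ S) (h1 : ∀ d, (Γ.induce (M d)).Connected)
    (h2 : ∀ a b, a ≠ b → Disjoint (M a) (M b))
    (h3 : ∀ a b, Δ.Adj a b → ∃ x ∈ M a, ∃ y ∈ M b, Γ.Adj x y) : IsMinor Δ (Γ.induce S) := by
  refine ⟨fun d => {a : S | a.1 ∈ M d}, fun d => CUT_conn (hM d) (h1 d), ?_, ?_⟩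
  · intro a b hab
    rw [Set.disjoint_left]
    intro x hx hy
    exact Set.disjoint_left.1 (h2 a b hab) hx hy
  · intro a b hab
    obtain ⟨x, hx, y, hy, hxy⟩ := h3 a b hab
    exact ⟨⟨x, hM a hx⟩, hx, ⟨y, hM b hy⟩, hy, hxy⟩

theorem CUT_two {W : Type w} {Δ : SimpleGraph W} (hΔ : TwoConnThree Δ) (x y : W) :
    ∃ d, Δ.Adj x d ∧ d ≠ y := by
  by_contra hcon
  push Not at hcon
  have h1 : Δ.neighborSet x ⊆ {y} := by
    intro d hd
    exact hcon d hd
  have h2 := Set.encard_le_encard h1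
  rw [Set.encard_singleton] at h2
  have h3 := (hΔ.2 x).trans h2
  norm_num at h3

theorem p_CUT : S_CUT.{u, v, w} := by
  intro A I W Γ z side Δ hside huniq hΔ hmin
  obtain ⟨B, hB1, hB2, hB3⟩ := hmin
  rcases isEmpty_or_nonempty W with hW | ⟨⟨w0⟩⟩
  · exact ⟨side z, fun a => (hW.false a).elim, fun a => (hW.false a).elim,
      fun a => (hW.false a).elim, fun a => (hW.false a).elim⟩
  -- a branch set without `z`
  have hz : ∀ a b, a ≠ b → z ∈ B a → z ∉ B b := fun a b hab ha hb =>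
    Set.disjoint_left.1 (hB2 a b hab) ha hb
  have hne : ∀ d, z ∉ B d → ∀ a ∈ B d, a ≠ z := by
    rintro d hd a ha rfl
    exact hd ha
  obtain ⟨d0, hd0⟩ : ∃ d0, z ∉ B d0 := by
    by_cases h : z ∈ B w0
    · obtain ⟨d, hd, _⟩ := CUT_two hΔ w0 w0
      exact ⟨d, hz w0 d hd.ne h⟩
    · exact ⟨w0, h⟩
  obtain ⟨⟨a0, ha0⟩⟩ := (hB1 d0).nonempty
  -- all branch sets without `z` lie in one side
  have hsame : ∀ d, z ∉ B d → ∀ a ∈ B d, ∀ b ∈ B d, side a = side b := by
    intro d hd a ha b hb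
    refine CUT_prop (hB1 d) (P := fun y => side a = side y) ?_ ha hb rfl
    intro x hx y hy hxy h
    exact h.trans (hside x y (hne d hd x hx) (hne d hd y hy) hxy)
  have hadj : ∀ d e, z ∉ B d → z ∉ B e → Δ.Adj d e → ∀ a ∈ B d, ∀ b ∈ B e,
      side a = side b := by
    intro d e hd he hde a ha b hb
    obtain ⟨x, hx, y, hy, hxy⟩ := hB3 d e hde
    exact (hsame d hd a ha x hx).trans
      ((hside x y (hne d hd x hx) (hne e he y hy) hxy).trans (hsame e he y hy b hb))
  have hall : ∀ d, z ∉ B d → ∀ a ∈ B d, side a = side a0 := by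
    intro d hd a ha
    obtain ⟨x, hx0, hxd, hxz⟩ : ∃ x, x ≠ d0 ∧ x ≠ d ∧ ∀ y, y ≠ x → z ∉ B y := by
      by_cases h : ∃ x, z ∈ B x
      · obtain ⟨x, hx⟩ := h
        refine ⟨x, ?_, ?_, fun y hy => hz x y hy.symm hx⟩
        · rintro rfl
          exact hd0 hx
        · rintro rfl
          exact hd hx
      · push Not at h
        obtain ⟨x, hx, hxd⟩ := CUT_two hΔ d0 d
        exact ⟨x, hx.ne', hxd, fun y _ => h y⟩
    have hk : ∀ b ∈ B d, side b = side a0 := by
      refine CUT_prop (hΔ.1 x) (P := fun e => ∀ b ∈ B e, side b = side a0) ?_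
        (a := d0) (b := d) ?_ ?_ ?_
      · intro e he f hf hef h b hb
        obtain ⟨⟨c, hc⟩⟩ := (hB1 e).nonempty
        rw [← hadj e f (hxz e he) (hxz f hf) hef c hc b hb]
        exact h c hc
      · exact fun h => hx0 h.symm
      · exact fun h => hxd h.symm
      · exact fun b hb => hsame d0 hd0 b hb a0 ha0
    exact hk a ha
  by_cases hx : ∃ x, z ∈ B x
  swap
  · push Not at hx
    refine ⟨side a0, CUT_minor _ B ?_ hB1 hB2 hB3⟩
    intro d a ha
    exact ⟨hne d (hx d) a ha, hall d (hx d) a ha⟩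
  obtain ⟨x, hx⟩ := hx
  have hzn : ∀ d, d ≠ x → z ∉ B d := fun d hd => hz x d hd.symm hx
  -- edges from `B x` to the other branch sets which do not start at `z` start in the side
  have hstart : ∀ d, d ≠ x → ∀ y ∈ B x, ∀ t ∈ B d, Γ.Adj y t → y ≠ z →
      side y = side a0 := by
    intro d hd y hy t ht hyt hyz
    rw [hside y t hyz (hne d (hzn d hd) t ht) hyt]
    exact hall d (hzn d hd) t ht
  -- the trimmed branch set is nonempty
  obtain ⟨u0, hu0, hu0z, hu0s⟩ : ∃ u0 ∈ B x, u0 ≠ z ∧ side u0 = side a0 := by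
    obtain ⟨d, hd, _⟩ := CUT_two hΔ x x
    obtain ⟨e, he, hed⟩ := CUT_two hΔ x d
    obtain ⟨p, hp, t, ht, hpt⟩ := hB3 x d hd
    obtain ⟨q, hq, r, hr, hqr⟩ := hB3 x e he
    by_cases h1 : p = z
    · by_cases h2 : q = z
      · exfalso
        subst h1
        rw [h2] at hqr
        have h3 : t = r := by
          refine huniq t r hpt hqr ?_
          rw [hall d (hzn d hd.ne') t ht, hall e (hzn e he.ne') r hr]
        rw [← h3] at hr
        exact Set.disjoint_left.1 (hB2 e d hed) hr ht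
      · exact ⟨q, hq, h2, hstart e he.ne' q hq r hr hqr h2⟩
    · exact ⟨p, hp, h1, hstart d hd.ne' p hp t ht hpt h1⟩
  -- the trimmed branch set
  set B' : Set A := {a | a ∈ B x ∧ a ≠ z ∧ side a = side a0} with hB'
  -- every point of the trimmed set is joined to a neighbour of `z`
  have hreach : ∀ a (ha : a ∈ B'), ∃ c, ∃ hc : c ∈ B', Γ.Adj z c ∧
      (Γ.induce B').Reachable ⟨a, ha⟩ ⟨c, hc⟩ := by
    have key : ∀ (p q : B x), (Γ.induce (B x)).Walk p q → q.1 = z → ∀ (ha : p.1 ∈ B'),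
        ∃ c, ∃ hc : c ∈ B', Γ.Adj z c ∧ (Γ.induce B').Reachable ⟨p.1, ha⟩ ⟨c, hc⟩ := by
      intro p q walk
      induction walk with
      | nil => exact fun h ha => (ha.2.1 h).elim
      | @cons p1 p2 p3 hadj' _ ih =>
        intro h3 ha
        have hadj1 : Γ.Adj p1.1 p2.1 := hadj'
        by_cases h2 : p2.1 = z
        · rw [h2] at hadj1
          exact ⟨p1.1, ha, hadj1.symm, SimpleGraph.Reachable.refl _⟩
        · have h4 : p2.1 ∈ B' := ⟨p2.2, h2, (hside p2.1 p1.1 h2 ha.2.1 hadj1.symm).trans ha.2.2⟩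
          obtain ⟨c, hc, hzc, hr⟩ := ih h3 h4
          refine ⟨c, hc, hzc, SimpleGraph.Reachable.trans ?_ hr⟩
          exact SimpleGraph.Adj.reachable (G := Γ.induce B') (u := ⟨p1.1, ha⟩) (v := ⟨p2.1, h4⟩)
            hadj1
    intro a ha
    obtain ⟨p⟩ := (hB1 x).preconnected ⟨a, ha.1⟩ ⟨z, hx⟩
    exact key _ _ p rfl ha
  obtain ⟨c, hc, hzc, _⟩ := hreach u0 ⟨hu0, hu0z, hu0s⟩
  have hconn : (Γ.induce B').Connected := by
    have : Nonempty B' := ⟨⟨c, hc⟩⟩
    refine ⟨?_⟩
    rintro ⟨a, ha⟩ ⟨b, hb⟩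
    obtain ⟨c1, hc1, hzc1, h1⟩ := hreach a ha
    obtain ⟨c2, hc2, hzc2, h2⟩ := hreach b hb
    have h3 : c1 = c2 := huniq c1 c2 hzc1 hzc2 (hc1.2.2.trans hc2.2.2.symm)
    subst h3
    exact h1.trans h2.symm
  -- edges from the trimmed branch set
  have hedge : ∀ d, Δ.Adj x d → ∃ y ∈ B', ∃ t ∈ B d, Γ.Adj y t := by
    intro d hd
    obtain ⟨p, hp, t, ht, hpt⟩ := hB3 x d hd
    by_cases h1 : p = z
    · exfalso
      rw [h1] at hpt
      have h3 : t = c := huniq t c hpt hzc ((hall d (hzn d hd.ne') t ht).trans hc.2.2.symm)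
      rw [h3] at ht
      exact Set.disjoint_left.1 (hB2 x d hd.ne) hc.1 ht
    · exact ⟨p, ⟨hp, h1, hstart d hd.ne' p hp t ht hpt h1⟩, t, ht, hpt⟩
  classical
  refine ⟨side a0, CUT_minor _ (fun d => if d = x then B' else B d) ?_ ?_ ?_ ?_⟩
  · intro d a ha
    by_cases hd : d = x
    · have ha' : a ∈ B' := by simpa [hd] using ha
      exact ⟨ha'.2.1, ha'.2.2⟩
    · have ha' : a ∈ B d := by simpa [hd] using ha
      exact ⟨hne d (hzn d hd) a ha', hall d (hzn d hd) a ha'⟩
  · intro d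
    by_cases hd : d = x
    · have h1 : (if d = x then B' else B d) = B' := if_pos hd
      rw [h1]
      exact hconn
    · have h1 : (if d = x then B' else B d) = B d := if_neg hd
      rw [h1]
      exact hB1 d
  · have hsub : ∀ d, (if d = x then B' else B d) ⊆ B d := by
      intro d
      by_cases hd : d = x
      · simp only [hd, if_true]
        exact fun a ha => ha.1
      · simp only [hd, if_false]
        exact subset_rfl
    intro a b hab
    exact Set.disjoint_of_subset (hsub a) (hsub b) (hB2 a b hab)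
  · intro d e hde
    by_cases hd : d = x
    · have he : e ≠ x := by
        rintro rfl
        exact hde.ne hd
      subst hd
      simp only [if_true, he, if_false]
      exact hedge e hde
    · by_cases he : e = x
      · subst he
        simp only [if_true, hd, if_false]
        obtain ⟨y, hy, t, ht, hyt⟩ := hedge d hde.symm
        exact ⟨t, ht, y, hy, hyt.symm⟩
      · simp only [hd, he, if_false]
        exact hB3 d e hde

end Pool.Agent.Lib.MP_4aff23_co
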