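import Pool.Agent.Lib.MP_4aff23_co.Stm

set_option autoImplicit false

/-!
# MP_4aff23_co: piece FAT (fat minors in a metric graph)
-/

universe u w

namespace Pool.Agent.Lib.MP_4aff23_co

open MGraph

theorem FAT_nonneg {M : MGraph.{u}} (x : M.Pt) (c : M.V) : 0 ≤ x.coord c := by
  rcases exists_rep x with ⟨a, rfl⟩ | ⟨a, b, h, t, rfl⟩
  · rw [coord_vtx]
    split_ifs <;> norm_num
  · rw [coord_seg]
    have h0 := t.2.1
    have h1 := t.2.2
    split_ifs <;> linarith

theorem FAT_sum {M : MGraph.{u}} (x : M.Pt) {c d : M.V} (hcd : c ≠ d) :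
    x.coord c + x.coord d ≤ 1 := by
  rcases exists_rep x with ⟨a, rfl⟩ | ⟨a, b, h, t, rfl⟩
  · rw [coord_vtx, coord_vtx]
    by_cases hc : c = a
    · have hd : d ≠ a := fun h => hcd (hc.trans h.symm)
      simp [hc, hd]
    · simp only [if_neg hc, zero_add]
      split_ifs <;> norm_num
  · have h0 := t.2.1
    have h1 := t.2.2
    by_cases hc : c = a
    · subst hc
      rw [coord_seg_left]
      by_cases hd : d = b
      · subst hd
        rw [coord_seg_right]
        linarith
      · rw [coord_seg_other h t hcd.symm hd]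
        linarith
    · by_cases hc' : c = b
      · subst hc'
        rw [coord_seg_right]
        by_cases hd : d = a
        · subst hd
          rw [coord_seg_left]
          linarith
        · rw [coord_seg_other h t hd hcd.symm]
          linarith
      · rw [coord_seg_other h t hc hc', zero_add, coord_seg]
        split_ifs with h2 h3
        · exact absurd (h2.symm.trans h3) h.ne
        · linarith
        · linarith
        · linarith

/-- a point with two positive coordinates lies on an edge -/
theorem FAT_two {M : MGraph.{u}} (x : M.Pt) {p q : M.V} (hpq : p ≠ q) (hp : 0 < x.coord p)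
    (hq : 0 < x.coord q) : ∃ (h : M.G.Adj p q) (t : unitInterval), x = seg h t := by
  rcases exists_rep x with ⟨a, rfl⟩ | ⟨a, b, h, t, rfl⟩
  · rw [coord_vtx] at hp hq
    have h1 : p = a := by
      by_contra h1
      simp [h1] at hp
    have h2 : q = a := by
      by_contra h2
      simp [h2] at hq
    exact absurd (h1.trans h2.symm) hpq
  · have h1 : p = a ∨ p = b := by
      by_contra h1
      rw [not_or] at h1
      rw [coord_seg_other h t h1.1 h1.2] at hp
      exact lt_irrefl _ hp
    have h2 : q = a ∨ q = b := by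
      by_contra h2
      rw [not_or] at h2
      rw [coord_seg_other h t h2.1 h2.2] at hq
      exact lt_irrefl _ hq
    rcases h1 with rfl | rfl
    · rcases h2 with rfl | rfl
      · exact absurd rfl hpq
      · exact ⟨h, t, rfl⟩
    · rcases h2 with rfl | rfl
      · exact ⟨h.symm, unitInterval.symm t, seg_symm h t⟩
      · exact absurd rfl hpq

/-- the coordinate functions are admissible after scaling -/
theorem FAT_adm {M : MGraph.{u}} {n : ℕ} {c : M.V} (hlen : ∀ b, M.G.Adj c b → M.len c b = n) :
    Adm (fun x : M.Pt => (n : ℝ) * x.coord c) := by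
  intro a b h s t
  by_cases ha : c = a
  · subst ha
    simp only [coord_seg_left]
    rw [hlen b h, ← mul_sub, abs_mul, Nat.abs_cast,
      show 1 - (s : ℝ) - (1 - (t : ℝ)) = -((s : ℝ) - t) by ring, abs_neg]
  · by_cases hb : c = b
    · subst hb
      simp only [coord_seg_right]
      rw [M.len_comm, hlen a h.symm, ← mul_sub, abs_mul, Nat.abs_cast]
    · simp only [coord_seg_other h s ha hb, coord_seg_other h t ha hb]
      simp only [mul_zero, sub_self, abs_zero]
      positivity

theorem FAT_connected {M : MGraph.{u}} (c : M.V) :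
    IsConnected {x : M.Pt | 2 / 3 ≤ x.coord c} := by
  have hv : (vtx c : M.Pt) ∈ {x : M.Pt | 2 / 3 ≤ x.coord c} := by
    show (2 : ℝ) / 3 ≤ (vtx c : M.Pt).coord c
    rw [coord_vtx, if_pos rfl]
    norm_num
  refine ⟨⟨_, hv⟩, isPreconnected_of_forall (vtx c) ?_⟩
  have key : ∀ (q : M.V) (h : M.G.Adj c q) (t : unitInterval), 2 / 3 ≤ (seg h t).coord c →
      ∃ S, S ⊆ {x : M.Pt | 2 / 3 ≤ x.coord c} ∧ vtx c ∈ S ∧ seg h t ∈ S ∧ IsPreconnected S := by
    intro q h t ht
    rw [coord_seg_left] at ht
    refine ⟨Set.range fun r : unitInterval => seg h (r * t), ?_, ⟨0, ?_⟩, ⟨1, ?_⟩, ?_⟩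
    · rintro _ ⟨r, rfl⟩
      show (2 : ℝ) / 3 ≤ (seg h (r * t)).coord c
      rw [coord_seg_left]
      have h1 : ((r * t : unitInterval) : ℝ) = r * t := rfl
      rw [h1]
      have h2 := r.2.2
      have h3 := t.2.1
      have h4 := r.2.1
      nlinarith
    · simp only [zero_mul]
      exact seg_zero h
    · simp only [one_mul]
    · apply isPreconnected_range
      exact (continuous_seg h).comp (continuous_id.mul continuous_const)
  intro y hy
  rcases exists_rep y with ⟨d, rfl⟩ | ⟨p, q, h, t, rfl⟩
  · have hd : c = d := by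
      by_contra hd
      have hy' : (2 : ℝ) / 3 ≤ (vtx d : M.Pt).coord c := hy
      rw [coord_vtx, if_neg hd] at hy'
      norm_num at hy'
    subst hd
    exact ⟨{vtx c}, Set.singleton_subset_iff.2 hv, rfl, rfl, isPreconnected_singleton⟩
  · have hy' : (2 : ℝ) / 3 ≤ (seg h t).coord c := hy
    by_cases hp : c = p
    · subst hp
      exact key q h t hy'
    · by_cases hq : c = q
      · subst hq
        rw [seg_symm] at hy' ⊢
        exact key p h.symm _ hy'
      · rw [coord_seg_other h t hp hq] at hy'
        norm_num at hy'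

/-- the parameter of the branch path -/
noncomputable def FAT_tau (r : unitInterval) : unitInterval :=
  ⟨(1 + (r : ℝ)) / 3, by
    have h0 := r.2.1
    have h1 := r.2.2
    constructor <;> linarith⟩

theorem FAT_tau_val (r : unitInterval) : ((FAT_tau r : unitInterval) : ℝ) = (1 + (r : ℝ)) / 3 :=
  rfl

theorem FAT_zero {M : MGraph.{u}} {W : Type w} {H : SimpleGraph W} {ι : W → M.V}
    (hι : Function.Injective ι) {e : Sym2 W} (he : e ∈ H.edgeSet) {c : W} (hc : c ∉ e)
    {y : M.Pt} (hy : ∀ d ∈ e, 1 / 3 ≤ y.coord (ι d)) : y.coord (ι c) = 0 := by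
  induction e using Sym2.ind with
  | _ p q =>
    rw [SimpleGraph.mem_edgeSet] at he
    have hp := hy p (Sym2.mem_mk_left p q)
    have hq := hy q (Sym2.mem_mk_right p q)
    obtain ⟨h, t, rfl⟩ := FAT_two y (fun h => he.ne (hι h)) (by linarith) (by linarith)
    rw [Sym2.mem_iff, not_or] at hc
    exact coord_seg_other h t (fun h => hc.1 (hι h)) (fun h => hc.2 (hι h))

theorem p_FAT : S_FAT.{u, w} := by
  intro M W H ι n hn hι hadj hlen
  have hn' : (1 : ℝ) ≤ n := by exact_mod_cast hn
  have hadm : ∀ a : W, Adm (fun x : M.Pt => (n : ℝ) * x.coord (ι a)) := fun a =>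
    FAT_adm (hlen a)
  have hlow : ∀ (a : W) (x y : M.Pt), (n : ℝ) * (x.coord (ι a) - y.coord (ι a)) ≤ dist x y := by
    intro a x y
    have h := le_dist (hadm a) x y
    rw [← mul_sub] at h
    exact (le_abs_self _).trans h
  refine ⟨fun a => {x | 2 / 3 ≤ x.coord (ι a)}, fun e => {x | ∀ c ∈ e, 1 / 3 ≤ x.coord (ι c)},
    ?_, ?_, ?_, ?_, ?_, ?_, ?_⟩
  · intro a
    exact FAT_connected (ι a)
  · intro a b hab
    rw [Set.disjoint_left]
    intro x hx hy
    have h1 : (2 : ℝ) / 3 ≤ x.coord (ι a) := hx
    have h2 : (2 : ℝ) / 3 ≤ x.coord (ι b) := hy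
    have h3 := FAT_sum x (fun h => hab (hι h) : ι a ≠ ι b)
    linarith
  · intro e he f hf hef
    rw [Set.disjoint_left]
    intro x hx hy
    obtain ⟨c, hc, hcf⟩ : ∃ c ∈ e, c ∉ f := by
      by_contra hcon
      push Not at hcon
      induction e using Sym2.ind with
      | _ p q =>
        rw [SimpleGraph.mem_edgeSet] at he
        exact hef ((Sym2.mem_and_mem_iff he.ne).1
          ⟨hcon p (Sym2.mem_mk_left p q), hcon q (Sym2.mem_mk_right p q)⟩).symm
    have h1 := hx c hc
    have h2 := FAT_zero hι hf hcf hy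
    linarith
  · intro a b hab
    have h := hadj a b hab
    have hne : ι a ≠ ι b := h.ne
    have hmem : ∀ r : unitInterval, ∀ c ∈ s(a, b),
        1 / 3 ≤ (seg h (FAT_tau r)).coord (ι c) := by
      intro r c hc
      have h0 := r.2.1
      have h1 := r.2.2
      rcases Sym2.mem_iff.1 hc with rfl | rfl
      · rw [coord_seg_left, FAT_tau_val]
        linarith
      · rw [coord_seg_right, FAT_tau_val]
        linarith
    have hsurj : ∀ x : M.Pt, (∀ c ∈ s(a, b), 1 / 3 ≤ x.coord (ι c)) →
        ∃ r : unitInterval, x = seg h (FAT_tau r) := by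
      intro x hx
      have h1 := hx a (Sym2.mem_mk_left a b)
      have h2 := hx b (Sym2.mem_mk_right a b)
      obtain ⟨h', t, rfl⟩ := FAT_two x hne (by linarith) (by linarith)
      rw [coord_seg_left] at h1
      rw [coord_seg_right] at h2
      refine ⟨⟨3 * (t : ℝ) - 1, by constructor <;> linarith⟩, ?_⟩
      congr 1
      apply Subtype.ext
      rw [FAT_tau_val]
      simp only
      ring
    have hB0 : (2 : ℝ) / 3 ≤ (seg h (FAT_tau 0)).coord (ι a) := by
      rw [coord_seg_left, FAT_tau_val]
      simp
      norm_num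
    have hB1 : (2 : ℝ) / 3 ≤ (seg h (FAT_tau 1)).coord (ι b) := by
      rw [coord_seg_right, FAT_tau_val]
      simp
      norm_num
    refine ⟨fun r => seg h (FAT_tau r), ?_, ?_, ?_, hB0, hB1, ?_⟩
    · refine (continuous_seg h).comp ?_
      refine Continuous.subtype_mk ?_ _
      fun_prop
    · intro r r' hrr
      have h1 : (seg h (FAT_tau r)).coord (ι b) = (seg h (FAT_tau r')).coord (ι b) := by
        have h2 : seg h (FAT_tau r) = seg h (FAT_tau r') := hrr
        rw [h2]
      rw [coord_seg_right, coord_seg_right, FAT_tau_val, FAT_tau_val] at h1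
      apply Subtype.ext
      linarith
    · apply Set.Subset.antisymm
      · rintro _ ⟨r, rfl⟩
        exact hmem r
      · intro x hx
        obtain ⟨r, hr⟩ := hsurj x hx
        exact ⟨r, hr.symm⟩
    · apply Set.Subset.antisymm
      · rintro x ⟨hx, hxB⟩
        obtain ⟨r, rfl⟩ := hsurj x hx
        obtain ⟨c, hc⟩ := Set.mem_iUnion.1 hxB
        have hc' : (2 : ℝ) / 3 ≤ (seg h (FAT_tau r)).coord (ι c) := hc
        have h0 := r.2.1
        have h1 := r.2.2
        by_cases hca : c = a
        · subst hca
          rw [coord_seg_left, FAT_tau_val] at hc'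
          left
          have : r = 0 := by
            apply Subtype.ext
            show (r : ℝ) = 0
            linarith
          rw [this]
        · by_cases hcb : c = b
          · subst hcb
            rw [coord_seg_right, FAT_tau_val] at hc'
            right
            have : r = 1 := by
              apply Subtype.ext
              show (r : ℝ) = 1
              linarith
            rw [this]
            rfl
          · rw [coord_seg_other h _ (fun h => hca (hι h)) (fun h => hcb (hι h))] at hc'
            norm_num at hc'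
      · rintro x (rfl | rfl)
        · exact ⟨hmem 0, Set.mem_iUnion.2 ⟨a, hB0⟩⟩
        · exact ⟨hmem 1, Set.mem_iUnion.2 ⟨b, hB1⟩⟩
  · intro a b hab x hx y hy
    have h1 : (2 : ℝ) / 3 ≤ x.coord (ι a) := hx
    have h2 : (2 : ℝ) / 3 ≤ y.coord (ι b) := hy
    have h3 := FAT_sum y (fun h => hab (hι h) : ι a ≠ ι b)
    have h4 := hlow a x y
    nlinarith
  · intro e he f hf hef x hx y hy
    obtain ⟨c, hc, hcf⟩ : ∃ c ∈ e, c ∉ f := by
      by_contra hcon
      push Not at hcon
      induction e using Sym2.ind with
      | _ p q =>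
        rw [SimpleGraph.mem_edgeSet] at he
        exact hef ((Sym2.mem_and_mem_iff he.ne).1
          ⟨hcon p (Sym2.mem_mk_left p q), hcon q (Sym2.mem_mk_right p q)⟩).symm
    have h1 := hx c hc
    have h2 := FAT_zero hι hf hcf hy
    have h4 := hlow c x y
    rw [h2] at h4
    nlinarith
  · intro a e he ha x hx y hy
    have h1 : (2 : ℝ) / 3 ≤ x.coord (ι a) := hx
    have h2 := FAT_zero hι he ha hy
    have h4 := hlow a x y
    rw [h2] at h4
    nlinarith

end Pool.Agent.Lib.MP_4aff23_co
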