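import Pool.Agent.Lib.MP_4aff23_co.Stm

set_option autoImplicit false

/-! # [FIN] finite bases -/

namespace Pool.Agent.Lib.MP_4aff23_co

theorem FIN_basis_of_GMT (h : GraphMinorTheorem) (F : Set FinGraph) : HasFiniteBasis F := by
  classical
  by_contra hF
  have key : ∀ s : Finset FinGraph, (∀ x ∈ s, x ∈ F) →
      ∃ y, y ∈ F ∧ ∀ x ∈ s, ¬ IsMinor x.2 y.2 := by
    intro s hs
    by_contra hcon
    push Not at hcon
    exact hF ⟨(s : Set FinGraph), fun x hx => hs x hx, s.finite_toSet, fun Δ hΔ => by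
      obtain ⟨x, hx, hm⟩ := hcon Δ hΔ
      exact ⟨x, hx, hm⟩⟩
  obtain ⟨f, hf, hr⟩ := exists_seq_of_forall_finset_exists (fun x : FinGraph => x ∈ F)
    (fun x y => ¬ IsMinor x.2 y.2) key
  obtain ⟨i, j, hij, hm⟩ := h f
  exact hr i j hij hm

theorem FIN_GMT_of_basis (h : ∀ F, HasFiniteBasis F) : GraphMinorTheorem := by
  classical
  intro G
  obtain ⟨F₀, hsub, hfin, hbas⟩ := h (Set.range G)
  choose! idx hidx using fun x (hx : x ∈ F₀) => hsub hx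
  obtain ⟨N, hN⟩ : ∃ N, ∀ x ∈ F₀, idx x < N := by
    have : (idx '' F₀).Finite := hfin.image idx
    obtain ⟨N, hN⟩ := this.bddAbove
    exact ⟨N + 1, fun x hx => Nat.lt_succ_of_le (hN ⟨x, hx, rfl⟩)⟩
  obtain ⟨D, hD, hm⟩ := hbas (G N) ⟨N, rfl⟩
  refine ⟨idx D, N, hN D hD, ?_⟩
  rw [hidx D hD]
  exact hm

theorem p_FIN : S_HOM.{0,0,0} → S_TRN.{0,0,0} → S_FIN := by
  classical
  intro hhom htrn
  refine ⟨⟨FIN_basis_of_GMT, FIN_GMT_of_basis⟩, ?_, ?_⟩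
  · -- Robertson-Seymour implies finite bases
    intro hrs F
    obtain ⟨F₁, hfin, hF₁⟩ := hrs {G | ∀ D ∈ F, ¬ IsMinor D.2 G.2} (by
      intro G hG H hHG D hD hDH
      exact hG D hD (htrn _ _ _ _ _ _ hDH hHG))
    have h1 : ∀ D ∈ F₁, ∃ m ∈ F, IsMinor m.2 D.2 := by
      intro D hD
      by_contra hcon
      push Not at hcon
      exact (hF₁ D).1 hcon D hD (hhom.2.2 _ _)
    choose! m hmF hm using h1
    refine ⟨m '' F₁, ?_, hfin.image m, ?_⟩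
    · rintro _ ⟨D, hD, rfl⟩
      exact hmF D hD
    · intro Δ hΔ
      by_contra hcon
      push Not at hcon
      have : Δ ∈ {G : FinGraph | ∀ D ∈ F, ¬ IsMinor D.2 G.2} := by
        rw [hF₁ Δ]
        intro D hD hDΔ
        exact hcon (m D) ⟨D, hD, rfl⟩ (htrn _ _ _ _ _ _ (hm D hD) hDΔ)
      exact this Δ hΔ (hhom.2.2 _ _)
  · intro h C hC
    obtain ⟨F₀, hsub, hfin, hbas⟩ := h Cᶜ
    refine ⟨F₀, hfin, fun G => ⟨fun hG D hD hm => hsub hD (hC G hG D hm), fun hG => ?_⟩⟩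
    by_contra hGC
    obtain ⟨D, hD, hm⟩ := hbas G hGC
    exact hG D hD hm

end Pool.Agent.Lib.MP_4aff23_co
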