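import Pool.Agent.Lib.MP_4aff23_co.Stm

/-!
# MP_4aff23_co, [GLU]: gluing connected vertex sets to a minor (helper98)
-/

universe v w

namespace Pool.Agent.Lib.MP_4aff23_co

/-- Reachability in an induced subgraph is monotone in the vertex set. -/
private theorem GLU_mono {A : Type v} {Γ : SimpleGraph A} {S T : Set A} (hST : S ⊆ T) {x y : A}
    (hx : x ∈ S) (hy : y ∈ S) (h : (Γ.induce S).Reachable ⟨x, hx⟩ ⟨y, hy⟩) :
    (Γ.induce T).Reachable ⟨x, hST hx⟩ ⟨y, hST hy⟩ := by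
  exact h.map (SimpleGraph.induceHomOfLE Γ hST).toHom

/-- The vertices reachable from `p` inside `S`. -/
private def GLUreach {A : Type v} (Γ : SimpleGraph A) (S : Set A) (p : A) : Set A :=
  {x | ∃ (hp : p ∈ S) (hx : x ∈ S), (Γ.induce S).Reachable ⟨p, hp⟩ ⟨x, hx⟩}

private theorem GLU_self {A : Type v} {Γ : SimpleGraph A} {S : Set A} {p : A} (hp : p ∈ S) :
    p ∈ GLUreach Γ S p := ⟨hp, hp, SimpleGraph.Reachable.refl _⟩

private theorem GLU_sub {A : Type v} {Γ : SimpleGraph A} {S : Set A} {p : A} :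
    GLUreach Γ S p ⊆ S := fun _ h => h.2.1

private theorem GLU_next {A : Type v} {Γ : SimpleGraph A} {S : Set A} {p x y : A}
    (hx : x ∈ GLUreach Γ S p) (hy : y ∈ S) (hxy : Γ.Adj x y) : y ∈ GLUreach Γ S p := by
  obtain ⟨hp, hx, h⟩ := hx
  refine ⟨hp, hy, h.trans ?_⟩
  apply SimpleGraph.Adj.reachable
  simpa using hxy

/-- The set of the vertices reachable from `p` is connected in itself. -/
private theorem GLU_in {A : Type v} {Γ : SimpleGraph A} {S : Set A} {p x : A}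
    (hx : x ∈ GLUreach Γ S p) : ∃ hp : p ∈ GLUreach Γ S p,
      (Γ.induce (GLUreach Γ S p)).Reachable ⟨p, hp⟩ ⟨x, hx⟩ := by
  obtain ⟨hp, hxS, h⟩ := id hx
  refine ⟨GLU_self hp, ?_⟩
  have key : ∀ z : S, Relation.ReflTransGen (Γ.induce S).Adj ⟨p, hp⟩ z →
      ∃ hz : (z : A) ∈ GLUreach Γ S p,
        (Γ.induce (GLUreach Γ S p)).Reachable ⟨p, GLU_self hp⟩ ⟨z, hz⟩ := by
    intro z hz
    induction hz with
    | refl => exact ⟨GLU_self hp, SimpleGraph.Reachable.refl _⟩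
    | tail _ hbc ih =>
      rename_i b c _
      obtain ⟨hb, hr⟩ := ih
      have hbc' : Γ.Adj b c := by simpa using hbc
      have hc : (c : A) ∈ GLUreach Γ S p := GLU_next hb c.2 hbc'
      refine ⟨hc, hr.trans ?_⟩
      apply SimpleGraph.Adj.reachable
      simpa using hbc'
  have h' := (SimpleGraph.reachable_iff_reflTransGen _ _).1 h
  obtain ⟨_, hr⟩ := key _ h'
  exact hr

/-- [GLU] -/
theorem p_GLU : S_GLU.{v, w} := by
  classical
  intro A W Γ Δ N Q hN hQ hNN hQQ hNQ hne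
  -- ends of the edges
  set src : Sym2 W → W := fun e => (Quot.out e).1 with hsrc
  set tgt : Sym2 W → W := fun e => (Quot.out e).2 with htgt
  have hout : ∀ e : Sym2 W, s(src e, tgt e) = e := fun e => Quot.out_eq e
  have hmem : ∀ (e : Sym2 W) (x : W), x ∈ e ↔ x = src e ∨ x = tgt e := by
    intro e x
    conv_lhs => rw [← hout e]
    exact Sym2.mem_iff
  have hadj : ∀ e ∈ Δ.edgeSet, Δ.Adj (src e) (tgt e) := by
    intro e he
    rw [← hout e] at he
    exact he
  -- a common vertex of `N (src e)` and `Q e`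
  have hp : ∀ e : Sym2 W, ∃ p : A, e ∈ Δ.edgeSet → p ∈ N (src e) ∧ p ∈ Q e := by
    intro e
    by_cases he : e ∈ Δ.edgeSet
    · obtain ⟨p, h1, h2⟩ := hne (src e) e he ((hmem e _).2 (Or.inl rfl))
      exact ⟨p, fun _ => ⟨h1, h2⟩⟩
    · obtain ⟨⟨p, _⟩⟩ := (hN (src e)).nonempty
      exact ⟨p, fun h => absurd h he⟩
  choose p hp using hp
  set R : Sym2 W → Set A := fun e => GLUreach Γ (Q e \ N (tgt e)) (p e) with hR
  have hpR : ∀ e ∈ Δ.edgeSet, p e ∈ Q e \ N (tgt e) := by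
    intro e he
    refine ⟨(hp e he).2, fun h => ?_⟩
    exact Set.disjoint_left.1 (hNN _ _ (hadj e he).ne) (hp e he).1 h
  have hRQ : ∀ e, R e ⊆ Q e := fun e x hx => (GLU_sub hx).1
  have hRN : ∀ e, ∀ x ∈ R e, x ∉ N (tgt e) := fun e x hx => (GLU_sub hx).2
  -- the branch sets
  set M : W → Set A := fun a => {x | x ∈ N a ∨ ∃ e ∈ Δ.edgeSet, src e = a ∧ x ∈ R e} with hM
  have hNM : ∀ a, N a ⊆ M a := fun a x hx => Or.inl hx
  have hRM : ∀ e ∈ Δ.edgeSet, R e ⊆ M (src e) := fun e he x hx => Or.inr ⟨e, he, rfl, hx⟩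
  -- an edge from `R e` to `N (tgt e)`
  have hedge : ∀ e ∈ Δ.edgeSet, ∃ x ∈ R e, ∃ y ∈ N (tgt e), Γ.Adj x y := by
    intro e he
    by_contra hcon
    push Not at hcon
    obtain ⟨q, hq1, hq2⟩ := hne (tgt e) e he ((hmem e _).2 (Or.inr rfl))
    have h0 := (hQ e he).preconnected ⟨p e, (hp e he).2⟩ ⟨q, hq2⟩
    rw [SimpleGraph.reachable_iff_reflTransGen] at h0
    have key : ∀ z : Q e, Relation.ReflTransGen (Γ.induce (Q e)).Adj ⟨p e, (hp e he).2⟩ z →
        (z : A) ∈ R e := by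
      intro z hz
      induction hz with
      | refl => exact GLU_self (hpR e he)
      | tail _ hbc ih =>
        rename_i b c _
        have hbc' : Γ.Adj b c := by simpa using hbc
        exact GLU_next ih ⟨c.2, fun hc => hcon _ ih _ hc hbc'⟩ hbc'
    exact hRN e q (key _ h0) hq1
  refine ⟨M, ?_, ?_, ?_⟩
  · intro a
    obtain ⟨⟨n0, hn0⟩⟩ := (hN a).nonempty
    have hNr : ∀ x (hx : x ∈ N a), (Γ.induce (M a)).Reachable ⟨n0, hNM a hn0⟩ ⟨x, hNM a hx⟩ := by
      intro x hx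
      exact GLU_mono (hNM a) hn0 hx ((hN a).preconnected _ _)
    have hall : ∀ x (hx : x ∈ M a), (Γ.induce (M a)).Reachable ⟨n0, hNM a hn0⟩ ⟨x, hx⟩ := by
      intro x hx
      rcases id hx with h | ⟨e, he, rfl, h⟩
      · exact hNr x h
      · obtain ⟨hpe, hr⟩ := GLU_in h
        exact (hNr (p e) (hp e he).1).trans (GLU_mono (hRM e he) hpe h hr)
    have : Nonempty (M a) := ⟨⟨n0, hNM a hn0⟩⟩
    refine SimpleGraph.Connected.mk ?_
    rintro ⟨x, hx⟩ ⟨y, hy⟩
    exact (hall x hx).symm.trans (hall y hy)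
  · intro a b hab
    rw [Set.disjoint_left]
    have aux : ∀ c e, e ∈ Δ.edgeSet → src e ≠ c → ∀ x ∈ N c, x ∉ R e := by
      intro c e he hc x hxN hxR
      by_cases hce : c ∈ e
      · rcases (hmem e c).1 hce with h | h
        · exact hc h.symm
        · rw [h] at hxN
          exact hRN e x hxR hxN
      · exact Set.disjoint_left.1 (hNQ c e he hce) hxN (hRQ e hxR)
    rintro x (hxa | ⟨e, he, hea, hxe⟩) (hxb | ⟨f, hf, hfb, hxf⟩)
    · exact Set.disjoint_left.1 (hNN a b hab) hxa hxb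
    · exact aux a f hf (by rw [hfb]; exact hab.symm) x hxa hxf
    · exact aux b e he (by rw [hea]; exact hab) x hxb hxe
    · have hef : e ≠ f := by
        rintro rfl
        exact hab (hea.symm.trans hfb)
      exact Set.disjoint_left.1 (hQQ e he f hf hef) (hRQ e hxe) (hRQ f hxf)
  · intro a b hab
    have he : s(a, b) ∈ Δ.edgeSet := hab
    obtain ⟨x, hx, y, hy, hxy⟩ := hedge _ he
    have h := hout s(a, b)
    rw [Sym2.eq_iff] at h
    rcases h with ⟨h1, h2⟩ | ⟨h1, h2⟩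
    · refine ⟨x, ?_, y, ?_, hxy⟩
      · have := hRM _ he hx
        rwa [h1] at this
      · rw [h2] at hy
        exact hNM b hy
    · refine ⟨y, ?_, x, ?_, hxy.symm⟩
      · rw [h2] at hy
        exact hNM a hy
      · have := hRM _ he hx
        rwa [h1] at this

end Pool.Agent.Lib.MP_4aff23_co
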