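import Pool.Agent.Lib.MP_4aff23_co.Stm

/-!
# Minors, injective homomorphisms, transitivity
-/

universe u v w

namespace Pool.Agent.Lib.MP_4aff23_co

open Set

/-- the image of a connected induced subgraph under a homomorphism -/
theorem HOM_image {V : Type v} {W : Type w} {G : SimpleGraph V} {H : SimpleGraph W} (f : V → W)
    (hf : ∀ a b, G.Adj a b → H.Adj (f a) (f b)) {S : Set V} (hS : (G.induce S).Connected) :
    (H.induce (f '' S)).Connected := by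
  let φ : G.induce S →g H.induce (f '' S) :=
    { toFun := fun x => ⟨f x.1, x.1, x.2, rfl⟩
      map_rel' := by
        intro a b h
        exact hf _ _ h }
  have hφ : Function.Surjective φ := by
    rintro ⟨_, x, hx, rfl⟩
    exact ⟨⟨x, hx⟩, rfl⟩
  exact hS.map φ hφ

theorem HOM_1 (U : Type u) (V : Type v) (W : Type w) (Δ : SimpleGraph U) (G : SimpleGraph V)
    (H : SimpleGraph W) (f : V → W) (hf : Function.Injective f)
    (hom : ∀ a b, G.Adj a b → H.Adj (f a) (f b)) (h : IsMinor Δ G) : IsMinor Δ H := by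
  obtain ⟨M, h1, h2, h3⟩ := h
  refine ⟨fun a => f '' M a, fun a => HOM_image f hom (h1 a), ?_, ?_⟩
  · intro a b hab
    exact (Set.disjoint_image_iff hf).2 (h2 a b hab)
  · intro a b hab
    obtain ⟨x, hx, y, hy, hxy⟩ := h3 a b hab
    exact ⟨f x, ⟨x, hx, rfl⟩, f y, ⟨y, hy, rfl⟩, hom _ _ hxy⟩

theorem HOM_2 (U : Type u) (V : Type v) (W : Type w) (Δ : SimpleGraph U) (G : SimpleGraph V)
    (Δ' : SimpleGraph W) (g : W → U) (hg : Function.Injective g)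
    (hom : ∀ a b, Δ'.Adj a b → Δ.Adj (g a) (g b)) (h : IsMinor Δ G) : IsMinor Δ' G := by
  obtain ⟨M, h1, h2, h3⟩ := h
  exact ⟨fun a => M (g a), fun a => h1 _, fun a b hab => h2 _ _ fun e => hab (hg e),
    fun a b hab => h3 _ _ (hom a b hab)⟩

theorem HOM_3 (V : Type v) (G : SimpleGraph V) : IsMinor G G := by
  refine ⟨fun a => {a}, ?_, ?_, ?_⟩
  · intro a
    have : Nonempty ({a} : Set V) := ⟨⟨a, rfl⟩⟩
    refine ⟨?_⟩
    rintro ⟨x, hx⟩ ⟨y, hy⟩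
    have hxy : x = y := by
      rw [Set.mem_singleton_iff] at hx hy
      rw [hx, hy]
    subst hxy
    exact SimpleGraph.Reachable.refl _
  · intro a b hab
    exact Set.disjoint_singleton.2 hab
  · intro a b hab
    exact ⟨a, rfl, b, rfl, hab⟩

theorem p_HOM : S_HOM.{u, v, w} :=
  ⟨fun U V W Δ G H f hf hom h => HOM_1 U V W Δ G H f hf hom h,
    fun U V W Δ G Δ' g hg hom h => HOM_2 U V W Δ G Δ' g hg hom h, fun V G => HOM_3 V G⟩

/-- inclusion of induced subgraphs -/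
theorem HOM_incl {W : Type w} {G : SimpleGraph W} {S T : Set W} (h : S ⊆ T) {x y : W}
    (hx : x ∈ S) (hy : y ∈ S) (hr : (G.induce S).Reachable ⟨x, hx⟩ ⟨y, hy⟩) :
    (G.induce T).Reachable ⟨x, h hx⟩ ⟨y, h hy⟩ := by
  let φ : G.induce S →g G.induce T :=
    { toFun := fun x => ⟨x.1, h x.2⟩
      map_rel' := by
        intro a b h
        exact h }
  exact hr.map φ

theorem HOM_union {V : Type v} {W : Type w} {H : SimpleGraph V} {G : SimpleGraph W}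
    {M : V → Set W} (h1 : ∀ a, (G.induce (M a)).Connected)
    (h3 : ∀ a b, H.Adj a b → ∃ x ∈ M a, ∃ y ∈ M b, G.Adj x y) {S : Set V}
    (hS : (H.induce S).Connected) : (G.induce {x | ∃ b ∈ S, x ∈ M b}).Connected := by
  have key : ∀ b c : S, ∀ p : (H.induce S).Walk b c, ∀ (x : W) (hx : x ∈ M b) (y : W)
      (hy : y ∈ M c), (G.induce {x | ∃ b ∈ S, x ∈ M b}).Reachable ⟨x, b.1, b.2, hx⟩
        ⟨y, c.1, c.2, hy⟩ := by
    intro b c p
    induction p with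
    | @nil b =>
      intro x hx y hy
      have hsub : M b.1 ⊆ {x | ∃ b ∈ S, x ∈ M b} := fun z hz => ⟨b.1, b.2, hz⟩
      exact HOM_incl hsub hx hy ((h1 b.1).preconnected ⟨x, hx⟩ ⟨y, hy⟩)
    | @cons b b' c hadj p ih =>
      intro x hx y hy
      obtain ⟨x', hx', y', hy', hxy'⟩ := h3 b.1 b'.1 hadj
      have hsub : M b.1 ⊆ {x | ∃ b ∈ S, x ∈ M b} := fun z hz => ⟨b.1, b.2, hz⟩
      have r1 := HOM_incl hsub hx hx' ((h1 b.1).preconnected ⟨x, hx⟩ ⟨x', hx'⟩)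
      have r2 : (G.induce {x | ∃ b ∈ S, x ∈ M b}).Reachable ⟨x', b.1, b.2, hx'⟩
          ⟨y', b'.1, b'.2, hy'⟩ := SimpleGraph.Adj.reachable hxy'
      exact (r1.trans r2).trans (ih y' hy' y hy)
  obtain ⟨b0⟩ := hS.nonempty
  obtain ⟨x0⟩ := (h1 b0.1).nonempty
  have : Nonempty {x | ∃ b ∈ S, x ∈ M b} := ⟨⟨x0.1, b0.1, b0.2, x0.2⟩⟩
  refine ⟨?_⟩
  rintro ⟨x, b, hb, hx⟩ ⟨y, c, hc, hy⟩
  obtain ⟨p⟩ := hS.preconnected ⟨b, hb⟩ ⟨c, hc⟩
  exact key _ _ p x hx y hy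

theorem p_TRN : S_TRN.{u, v, w} := by
  intro U V W K H G hKH hHG
  obtain ⟨N, n1, n2, n3⟩ := hKH
  obtain ⟨M, h1, h2, h3⟩ := hHG
  refine ⟨fun a => {x | ∃ b ∈ N a, x ∈ M b}, fun a => HOM_union h1 h3 (n1 a), ?_, ?_⟩
  · intro a b hab
    rw [Set.disjoint_left]
    rintro x ⟨c, hc, hxc⟩ ⟨d, hd, hxd⟩
    have hcd : c ≠ d := by
      rintro rfl
      exact Set.disjoint_left.1 (n2 a b hab) hc hd
    exact Set.disjoint_left.1 (h2 c d hcd) hxc hxd
  · intro a b hab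
    obtain ⟨c, hc, d, hd, hcd⟩ := n3 a b hab
    obtain ⟨x, hx, y, hy, hxy⟩ := h3 c d hcd
    exact ⟨x, ⟨c, hc, hx⟩, y, ⟨d, hd, hy⟩, hxy⟩

end Pool.Agent.Lib.MP_4aff23_co
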