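import Pool.Agent.Lib.MP_4aff23_co.Stm

set_option autoImplicit false

universe u

open scoped unitInterval

noncomputable section

namespace Pool.Agent.Lib.MP_4aff23_co

open MGraph Set

/-- the length distance -/
def LEN_rho {X : Type u} [MetricSpace X] (x y : X) : ENNReal :=
  ⨅ γ : Path x y, eVariationOn (fun t : unitInterval => γ t) Set.univ

theorem LEN_edist_le {X : Type u} [MetricSpace X] (x y : X) : edist x y ≤ LEN_rho x y := by
  refine le_iInf fun γ => ?_
  have h := eVariationOn.edist_le (fun t : unitInterval => γ t) (s := Set.univ)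
    (Set.mem_univ (0 : unitInterval)) (Set.mem_univ (1 : unitInterval))
  simpa using h

theorem LEN_trans {X : Type u} [MetricSpace X] {x y z : X} (γ : Path x y) (γ' : Path y z) :
    eVariationOn (fun t : unitInterval => (γ.trans γ') t) Set.univ ≤
      eVariationOn (fun t : unitInterval => γ t) Set.univ +
        eVariationOn (fun t : unitInterval => γ' t) Set.univ := by
  set m : unitInterval := ⟨1 / 2, by norm_num, by norm_num⟩ with hm
  have hu : (Set.univ : Set unitInterval) = Set.Iic m ∪ Set.Ici m := by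
    rw [Set.Iic_union_Ici]
  rw [hu, eVariationOn.union (fun t : unitInterval => (γ.trans γ') t) (x := m) isGreatest_Iic
    isLeast_Ici, ← hu]
  have h1 : eVariationOn (fun t : unitInterval => (γ.trans γ') t) (Set.Iic m) ≤
      eVariationOn (fun t : unitInterval => γ t) Set.univ := by
    have e : Set.EqOn (fun t : unitInterval => (γ.trans γ') t)
        ((fun t : unitInterval => γ t) ∘
          fun t : unitInterval => Set.projIcc (0 : ℝ) 1 zero_le_one (2 * (t : ℝ))) (Set.Iic m) := by
      intro t ht
      have ht' : (t : ℝ) ≤ 1 / 2 := ht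
      simp only [Function.comp]
      rw [Path.trans_apply, dif_pos ht']
      congr 1
      rw [Set.projIcc_of_mem zero_le_one (x := 2 * (t : ℝ)) ⟨by linarith [t.2.1], by linarith⟩]
    rw [eVariationOn.eq_of_eqOn e]
    refine eVariationOn.comp_le_of_monotoneOn _ _ ?_ (fun _ _ => Set.mem_univ _)
    intro a _ b _ hab
    refine Set.monotone_projIcc zero_le_one ?_
    have : (a : ℝ) ≤ b := hab
    linarith
  have h2 : eVariationOn (fun t : unitInterval => (γ.trans γ') t) (Set.Ici m) ≤
      eVariationOn (fun t : unitInterval => γ' t) Set.univ := by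
    have e : Set.EqOn (fun t : unitInterval => (γ.trans γ') t)
        ((fun t : unitInterval => γ' t) ∘
          fun t : unitInterval => Set.projIcc (0 : ℝ) 1 zero_le_one (2 * (t : ℝ) - 1))
          (Set.Ici m) := by
      intro t ht
      have ht' : 1 / 2 ≤ (t : ℝ) := ht
      simp only [Function.comp]
      rw [Path.trans_apply]
      by_cases h : (t : ℝ) ≤ 1 / 2
      · have h3 : (t : ℝ) = 1 / 2 := le_antisymm h ht'
        rw [dif_pos h]
        have e1 : (⟨2 * (t : ℝ), (unitInterval.mul_pos_mem_iff zero_lt_two).2 ⟨t.2.1, h⟩⟩ :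
            unitInterval) = 1 := by
          ext; simp [h3]
        have e2 : Set.projIcc (0 : ℝ) 1 zero_le_one (2 * (t : ℝ) - 1) = 0 := by
          rw [h3]; norm_num
        rw [e1, e2]; simp
      · rw [dif_neg h]
        congr 1
        rw [Set.projIcc_of_mem zero_le_one (x := 2 * (t : ℝ) - 1) ⟨by linarith,
          by linarith [t.2.2]⟩]
    rw [eVariationOn.eq_of_eqOn e]
    refine eVariationOn.comp_le_of_monotoneOn _ _ ?_ (fun _ _ => Set.mem_univ _)
    intro a _ b _ hab
    refine Set.monotone_projIcc zero_le_one ?_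
    have : (a : ℝ) ≤ b := hab
    linarith
  exact add_le_add h1 h2

theorem LEN_rho_triangle {X : Type u} [MetricSpace X] (x y z : X) :
    LEN_rho x z ≤ LEN_rho x y + LEN_rho y z := by
  unfold LEN_rho
  rw [ENNReal.iInf_add]
  refine le_iInf fun γ => ?_
  rw [ENNReal.add_iInf]
  refine le_iInf fun γ' => ?_
  exact (iInf_le _ (γ.trans γ')).trans (LEN_trans γ γ')

theorem LEN_rho_symm {X : Type u} [MetricSpace X] (x y : X) : LEN_rho y x ≤ LEN_rho x y := by
  refine le_iInf fun γ => ?_
  refine (iInf_le _ γ.symm).trans ?_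
  have e : (fun t : unitInterval => γ.symm t) =
      (fun t : unitInterval => γ t) ∘ unitInterval.symm := by
    funext t; simp [Path.symm_apply]
  rw [e]
  refine eVariationOn.comp_le_of_antitoneOn _ _ ?_ (fun _ _ => Set.mem_univ _)
  intro a _ b _ hab
  have h : (a : ℝ) ≤ b := hab
  show (unitInterval.symm b : ℝ) ≤ unitInterval.symm a
  simp only [unitInterval.coe_symm_eq]
  linarith

theorem LEN_rho_self {X : Type u} [MetricSpace X] (x : X) : LEN_rho x x = 0 := by
  refine le_antisymm ?_ bot_le
  refine (iInf_le _ (Path.refl x)).trans ?_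
  have : eVariationOn (fun t : unitInterval => (Path.refl x) t) Set.univ = 0 := by
    refine eVariationOn.constant_on ?_
    rintro _ ⟨a, _, rfl⟩ _ ⟨b, _, rfl⟩
    simp
  rw [this]

/-- variation of a Lipschitz path -/
theorem LEN_lip {X : Type u} [MetricSpace X] (F : ℝ → X) (C : NNReal) (hF : LipschitzWith C F) :
    eVariationOn (fun t : unitInterval => F t) Set.univ ≤ C := by
  have h1 := (hF.lipschitzOnWith (s := Set.univ)).comp_eVariationOn_le
    (g := fun t : unitInterval => (t : ℝ)) (s := Set.univ) (fun _ _ => Set.mem_univ _)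
  have h2 : eVariationOn (fun t : unitInterval => (t : ℝ)) Set.univ ≤ 1 := by
    have h3 : MonotoneOn (fun t : unitInterval => (t : ℝ)) Set.univ := fun a _ b _ hab => hab
    have h4 := (h3.eVariationOn_eq (Set.mem_univ (0 : unitInterval))
      (Set.mem_univ (1 : unitInterval))).le
    have h5 : (Set.univ : Set unitInterval) ∩ Set.Icc 0 1 = Set.univ := by
      ext t
      simp only [Set.mem_inter_iff, Set.mem_univ, true_and, Set.mem_Icc, iff_true]
      exact ⟨unitInterval.nonneg t, unitInterval.le_one t⟩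
    rw [h5] at h4
    simpa using h4
  calc eVariationOn (fun t : unitInterval => F t) Set.univ ≤
      C * eVariationOn (fun t : unitInterval => (t : ℝ)) Set.univ := h1
    _ ≤ C * 1 := by gcongr
    _ = C := mul_one _

variable {M : MGraph.{u}}

theorem LEN_seg {a b : M.V} (h : M.G.Adj a b) (s t : unitInterval) :
    LEN_rho (seg h s) (seg h t) ≤ ENNReal.ofReal (M.len a b * |(s : ℝ) - t|) := by
  set F : ℝ → M.Pt := fun r => seg h (Set.projIcc (0 : ℝ) 1 zero_le_one ((1 - r) * s + r * t))
    with hF
  have hC : (0 : ℝ) ≤ M.len a b * |(s : ℝ) - t| := by positivity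
  have hL : LipschitzWith (M.len a b * |(s : ℝ) - t|).toNNReal F := by
    refine LipschitzWith.of_dist_le_mul fun r r' => ?_
    rw [Real.coe_toNNReal _ hC]
    refine (dist_seg_le h _ _).trans ?_
    have h1 := Set.abs_projIcc_sub_projIcc (c := (1 - r) * (s : ℝ) + r * t)
      (d := (1 - r') * (s : ℝ) + r' * t) (zero_le_one (α := ℝ))
    have h2 : |((1 - r) * (s : ℝ) + r * t) - ((1 - r') * (s : ℝ) + r' * t)| =
        |(s : ℝ) - t| * dist r r' := by
      rw [Real.dist_eq, ← abs_mul, ← abs_neg]
      congr 1; ring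
    rw [h2] at h1
    rw [mul_assoc]
    gcongr
  have h0 : F 0 = seg h s := by
    simp only [hF]
    congr 1
    rw [show (1 - (0 : ℝ)) * s + 0 * t = s by ring]
    exact Set.projIcc_val zero_le_one s
  have h1 : F 1 = seg h t := by
    simp only [hF]
    congr 1
    rw [show (1 - (1 : ℝ)) * s + 1 * t = t by ring]
    exact Set.projIcc_val zero_le_one t
  let γ : Path (seg h s) (seg h t) :=
    { toFun := fun r => F r
      continuous_toFun := hL.continuous.comp continuous_subtype_val
      source' := by simpa using h0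
      target' := by simpa using h1 }
  refine (iInf_le _ γ).trans ?_
  exact LEN_lip F _ hL

theorem LEN_fin_vtx (a b : M.V) : LEN_rho (vtx a : M.Pt) (vtx b) ≠ ⊤ := by
  obtain ⟨p⟩ := M.conn.preconnected a b
  induction p with
  | nil => rw [LEN_rho_self]; exact ENNReal.zero_ne_top
  | @cons u v w h p ih =>
    have h1 := LEN_seg h 0 1
    rw [seg_zero, seg_one] at h1
    have h2 := LEN_rho_triangle (vtx u : M.Pt) (vtx v) (vtx w)
    refine ne_top_of_le_ne_top ?_ h2
    exact ENNReal.add_ne_top.mpr ⟨ne_top_of_le_ne_top ENNReal.ofReal_ne_top h1, ih⟩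

theorem LEN_fin_to (x : M.Pt) : ∃ a : M.V, LEN_rho x (vtx a) ≠ ⊤ := by
  rcases exists_rep x with ⟨a, rfl⟩ | ⟨a, b, h, t, rfl⟩
  · exact ⟨a, by rw [LEN_rho_self]; exact ENNReal.zero_ne_top⟩
  · refine ⟨a, ?_⟩
    have h1 := LEN_seg h t 0
    rw [seg_zero] at h1
    exact ne_top_of_le_ne_top ENNReal.ofReal_ne_top h1

theorem LEN_fin (x y : M.Pt) : LEN_rho x y ≠ ⊤ := by
  obtain ⟨a, ha⟩ := LEN_fin_to x
  obtain ⟨b, hb⟩ := LEN_fin_to y
  have h1 := LEN_rho_triangle x (vtx a) y
  have h2 := LEN_rho_triangle (vtx a) (vtx b) y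
  have h3 := LEN_rho_symm y (vtx b)
  refine ne_top_of_le_ne_top ?_ h1
  refine ENNReal.add_ne_top.mpr ⟨ha, ne_top_of_le_ne_top ?_ h2⟩
  exact ENNReal.add_ne_top.mpr ⟨LEN_fin_vtx a b, ne_top_of_le_ne_top hb h3⟩

theorem p_LEN : S_LEN.{u} := by
  intro M x y
  change edist x y = LEN_rho x y
  refine le_antisymm (LEN_edist_le x y) ?_
  have key : Adm (fun z : M.Pt => (LEN_rho x z).toReal) := by
    intro a b h s t
    have hn : (0 : ℝ) ≤ M.len a b * |(s : ℝ) - t| := by positivity
    have aux : ∀ s t : unitInterval, (LEN_rho x (seg h s)).toReal ≤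
        (LEN_rho x (seg h t)).toReal + M.len a b * |(s : ℝ) - t| := by
      intro s t
      have hn : (0 : ℝ) ≤ M.len a b * |(s : ℝ) - t| := by positivity
      have h1 := LEN_rho_triangle x (seg h t) (seg h s)
      have h2 := LEN_seg h t s
      rw [abs_sub_comm] at h2
      have h3 : LEN_rho x (seg h s) ≤
          LEN_rho x (seg h t) + ENNReal.ofReal (M.len a b * |(s : ℝ) - t|) :=
        h1.trans (add_le_add le_rfl h2)
      have h4 := ENNReal.toReal_mono
        (ENNReal.add_ne_top.mpr ⟨LEN_fin x (seg h t), ENNReal.ofReal_ne_top⟩) h3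
      rwa [ENNReal.toReal_add (LEN_fin x (seg h t)) ENNReal.ofReal_ne_top,
        ENNReal.toReal_ofReal hn] at h4
    rw [abs_le]
    have h1 := aux s t
    have h2 := aux t s
    rw [abs_sub_comm] at h2
    constructor <;> linarith
  have h1 := le_dist key x y
  simp only [LEN_rho_self, ENNReal.toReal_zero, zero_sub, abs_neg] at h1
  rw [abs_of_nonneg ENNReal.toReal_nonneg] at h1
  rw [edist_dist, ← ENNReal.ofReal_toReal (LEN_fin x y)]
  exact ENNReal.ofReal_le_ofReal h1

end Pool.Agent.Lib.MP_4aff23_co
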