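import Pool.Agent.Lib.MP_4aff23_co.Stm

set_option autoImplicit false

/-!
# MP_4aff23_co: the nerve of a cover
-/

universe u v w

namespace Pool.Agent.Lib.MP_4aff23_co

/-- the members of the cover that meet a set -/
def NRV_N {X : Type u} {A : Type v} (U : A → Set X) (Y : Set X) : Set A :=
  {a | (U a ∩ Y).Nonempty}

theorem NRV_conn {X : Type u} [TopologicalSpace X] {A : Type v} (Γ : SimpleGraph A)
    (U : A → Set X) (hopen : ∀ a, IsOpen (U a)) (hcov : ∀ p : X, ∃ a, p ∈ U a)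
    (hadj : ∀ a b, a ≠ b → (U a ∩ U b).Nonempty → Γ.Adj a b) (Y : Set X) (hY : IsConnected Y) :
    (Γ.induce (NRV_N U Y)).Connected := by
  obtain ⟨p₀, hp₀⟩ := hY.nonempty
  obtain ⟨a₀, ha₀⟩ := hcov p₀
  rw [SimpleGraph.connected_iff_exists_forall_reachable]
  refine ⟨⟨a₀, p₀, ha₀, hp₀⟩, ?_⟩
  by_contra hcon
  push Not at hcon
  obtain ⟨b, hb⟩ := hcon
  set v₀ : NRV_N U Y := ⟨a₀, p₀, ha₀, hp₀⟩ with hv₀
  set C : Set (NRV_N U Y) := {c | (Γ.induce (NRV_N U Y)).Reachable v₀ c} with hC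
  have h1 : IsOpen (⋃ c ∈ C, U c) := isOpen_biUnion fun c _ => hopen c
  have h2 : IsOpen (⋃ c ∈ Cᶜ, U c) := isOpen_biUnion fun c _ => hopen c
  have h3 : Y ⊆ (⋃ c ∈ C, U c) ∪ ⋃ c ∈ Cᶜ, U c := by
    intro p hp
    obtain ⟨a, ha⟩ := hcov p
    by_cases hc : (⟨a, p, ha, hp⟩ : NRV_N U Y) ∈ C
    · exact Or.inl (Set.mem_biUnion hc ha)
    · exact Or.inr (Set.mem_biUnion hc ha)
  have h4 : (Y ∩ ⋃ c ∈ C, U c).Nonempty :=
    ⟨p₀, hp₀, Set.mem_biUnion (show v₀ ∈ C from SimpleGraph.Reachable.refl _) ha₀⟩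
  have h5 : (Y ∩ ⋃ c ∈ Cᶜ, U c).Nonempty := by
    obtain ⟨p, hpU, hpY⟩ := b.2
    exact ⟨p, hpY, Set.mem_biUnion (show b ∈ Cᶜ from hb) hpU⟩
  obtain ⟨p, hpY, hp1, hp2⟩ := hY.isPreconnected _ _ h1 h2 h3 h4 h5
  obtain ⟨c, hc, hpc⟩ := Set.mem_iUnion₂.1 hp1
  obtain ⟨d, hd, hpd⟩ := Set.mem_iUnion₂.1 hp2
  have hcd : (c : A) ≠ d := by
    intro h
    have h6 : c = d := Subtype.ext h
    exact hd (h6 ▸ hc)
  have h7 : Γ.Adj c d := hadj c d hcd ⟨p, hpc, hpd⟩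
  have h8 : (Γ.induce (NRV_N U Y)).Adj c d := h7
  exact hd (hc.trans h8.reachable)

theorem NRV_disj {X : Type u} [MetricSpace X] {A : Type v} (U : A → Set X) (K : ℝ)
    (hdiam : ∀ a, ∀ p ∈ U a, ∀ q ∈ U a, dist p q < K) (Y Z : Set X)
    (hYZ : ∀ x ∈ Y, ∀ y ∈ Z, K ≤ dist x y) : Disjoint (NRV_N U Y) (NRV_N U Z) := by
  rw [Set.disjoint_left]
  rintro a ⟨p, hpU, hpY⟩ ⟨q, hqU, hqZ⟩
  exact absurd (hdiam a p hpU q hqU) (not_lt.2 (hYZ p hpY q hqZ))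

theorem p_NRV : S_GLU.{v, w} → S_NRV.{u, v, w} := by
  intro hG X _ K A Γ U W Δ B P hopen hcov hdiam hadj hfat
  refine hG A W Γ Δ (fun a => NRV_N U (B a)) (fun e => NRV_N U (P e)) ?_ ?_ ?_ ?_ ?_ ?_
  · intro a
    exact NRV_conn Γ U hopen hcov hadj (B a) (hfat.connected a)
  · intro e he
    induction e using Sym2.ind with
    | _ a b =>
      obtain ⟨γ, hγ, _, hr, _⟩ := hfat.arc a b he
      refine NRV_conn Γ U hopen hcov hadj _ ?_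
      rw [← hr]
      exact isConnected_range hγ
  · intro a b hab
    exact NRV_disj U K hdiam _ _ (hfat.far_branch a b hab)
  · intro e he f hf hef
    exact NRV_disj U K hdiam _ _ (hfat.far_path e he f hf hef)
  · intro a e he hae
    exact NRV_disj U K hdiam _ _ (hfat.far_branch_path a e he hae)
  · intro a e he hae
    induction e using Sym2.ind with
    | _ b c =>
      obtain ⟨γ, _, _, hr, h0, h1, _⟩ := hfat.arc b c he
      rcases Sym2.mem_iff.1 hae with rfl | rfl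
      · obtain ⟨i, hi⟩ := hcov (γ 0)
        exact ⟨i, ⟨γ 0, hi, h0⟩, ⟨γ 0, hi, hr ▸ Set.mem_range_self 0⟩⟩
      · obtain ⟨i, hi⟩ := hcov (γ 1)
        exact ⟨i, ⟨γ 1, hi, h1⟩, ⟨γ 1, hi, hr ▸ Set.mem_range_self 1⟩⟩

end Pool.Agent.Lib.MP_4aff23_co
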