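import Pool.Agent.Lib.MP_4aff23_co.Stm

/-!
# MP_4aff23_co, [SUB]: the integral points of a metric graph (helper98)

The vertex set of the subdivision is the set of all points (the points that are not integral are
isolated and their set of the cover is empty).
-/

universe u

open scoped Classical

noncomputable section

namespace Pool.Agent.Lib.MP_4aff23_co

open MGraph

variable {M : MGraph.{u}}

/-- The position `k / n` (cut off at `1`). -/
def SUB_pos (n k : ℕ) : unitInterval := Set.projIcc (0 : ℝ) 1 zero_le_one ((k : ℝ) / n)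

theorem SUB_pos_coe {n k : ℕ} (hn : 1 ≤ n) (hk : k ≤ n) : ((SUB_pos n k : unitInterval) : ℝ) = k / n := by
  have hn' : (0 : ℝ) < n := by exact_mod_cast hn
  have h : ((k : ℝ) / n) ∈ Set.Icc (0 : ℝ) 1 := by
    refine ⟨by positivity, ?_⟩
    rw [div_le_one hn']
    exact_mod_cast hk
  unfold SUB_pos
  rw [Set.projIcc_of_mem zero_le_one h]

theorem SUB_mul_pos {n k : ℕ} (hn : 1 ≤ n) (hk : k ≤ n) :
    (n : ℝ) * ((SUB_pos n k : unitInterval) : ℝ) = k := by
  have hn' : (n : ℝ) ≠ 0 := by
    have : (0 : ℝ) < n := by exact_mod_cast hn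
    exact this.ne'
  rw [SUB_pos_coe hn hk]
  field_simp

theorem SUB_pos_zero (n : ℕ) : SUB_pos n 0 = 0 := by
  unfold SUB_pos
  apply Subtype.ext
  simp [Set.projIcc]

theorem SUB_pos_symm {n k : ℕ} (hn : 1 ≤ n) (hk : k ≤ n) :
    unitInterval.symm (SUB_pos n k) = SUB_pos n (n - k) := by
  apply Subtype.ext
  have hn' : (n : ℝ) ≠ 0 := by
    have : (0 : ℝ) < n := by exact_mod_cast hn
    exact this.ne'
  rw [unitInterval.coe_symm_eq, SUB_pos_coe hn hk, SUB_pos_coe hn (Nat.sub_le _ _), Nat.cast_sub hk]
  field_simp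

/-- The integral points. -/
def SUBp (M : MGraph.{u}) (a b : M.V) (k : ℕ) : M.Pt :=
  if h : M.G.Adj a b then seg h (SUB_pos (M.len a b) k) else vtx a

theorem SUBp_eq {a b : M.V} (h : M.G.Adj a b) (k : ℕ) :
    SUBp M a b k = seg h (SUB_pos (M.len a b) k) := dif_pos h

theorem SUBp_zero (a b : M.V) : SUBp M a b 0 = vtx a := by
  by_cases h : M.G.Adj a b
  · rw [SUBp_eq h, SUB_pos_zero, seg_zero]
  · exact dif_neg h

theorem SUBp_symm {a b : M.V} (h : M.G.Adj a b) {k : ℕ} (hk : k ≤ M.len a b) :
    SUBp M a b k = SUBp M b a (M.len a b - k) := by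
  rw [SUBp_eq h, SUBp_eq h.symm, seg_symm h, SUB_pos_symm (M.len_pos _ _ h) hk, M.len_comm b a]

theorem SUB_vtx_inj {a b : M.V} (h : (vtx a : M.Pt) = vtx b) : a = b := by
  have h1 := congrArg (fun x : M.Pt => x.coord a) h
  simp only [coord_vtx] at h1
  by_contra hne
  rw [if_neg hne] at h1
  simp at h1

/-- An interior point of an edge is not a vertex. -/
theorem SUB_ne_vtx {a b c : M.V} (h : M.G.Adj a b) {s : unitInterval} (h0 : 0 < (s : ℝ))
    (h1 : (s : ℝ) < 1) : seg h s ≠ vtx c := by
  intro he
  have ha := congrArg (fun x : M.Pt => x.coord a) he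
  have hb := congrArg (fun x : M.Pt => x.coord b) he
  simp only [coord_vtx, coord_seg_left, coord_seg_right] at ha hb
  have hac : a = c := by
    by_contra hne
    rw [if_neg hne] at ha
    linarith
  have hbc : b = c := by
    by_contra hne
    rw [if_neg hne] at hb
    linarith
  exact h.ne (hac.trans hbc.symm)

/-- A vertex with nonzero coordinate is an end of the edge. -/
theorem SUB_end {a b c : M.V} (h : M.G.Adj a b) {s : unitInterval}
    (hc : (seg h s).coord c ≠ 0) : c = a ∨ c = b := by
  by_contra hcon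
  push Not at hcon
  exact hc (coord_seg_other h s hcon.1 hcon.2)

/-- The edge and the position of an interior point of an edge are unique. -/
theorem SUB_uniq {a b c d : M.V} (h : M.G.Adj a b) (h' : M.G.Adj c d) {s t : unitInterval}
    (h0 : 0 < (s : ℝ)) (h1 : (s : ℝ) < 1) (he : seg h s = seg h' t) :
    (c = a ∧ d = b ∧ (t : ℝ) = s) ∨ (c = b ∧ d = a ∧ (t : ℝ) = 1 - s) := by
  have ha : (seg h' t).coord a = 1 - s := by rw [← he, coord_seg_left]
  have hb : (seg h' t).coord b = s := by rw [← he, coord_seg_right]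
  have ha' := SUB_end h' (c := a) (s := t) (by rw [ha]; intro h; linarith)
  have hb' := SUB_end h' (c := b) (s := t) (by rw [hb]; exact h0.ne')
  rcases ha' with rfl | rfl
  · rcases hb' with rfl | rfl
    · exact absurd rfl h.ne
    · left
      refine ⟨rfl, rfl, ?_⟩
      rw [coord_seg_right] at hb
      exact hb
  · rcases hb' with rfl | rfl
    · right
      refine ⟨rfl, rfl, ?_⟩
      rw [coord_seg_right] at ha
      exact ha
    · exact absurd rfl h.ne

/-- The graph on the points. -/
def SUBgraph (M : MGraph.{u}) : SimpleGraph M.Pt where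
  Adj x y := ∃ a b k, M.G.Adj a b ∧ k < M.len a b ∧ x = SUBp M a b k ∧ y = SUBp M a b (k + 1)
  symm := by
    constructor
    rintro x y ⟨a, b, k, h, hk, rfl, rfl⟩
    refine ⟨b, a, M.len a b - (k + 1), h.symm, ?_, ?_, ?_⟩
    · rw [M.len_comm b a]
      omega
    · rw [SUBp_symm h (by omega)]
    · rw [SUBp_symm h (by omega)]
      congr 1
      omega
  loopless := by
    constructor
    rintro x ⟨a, b, k, h, hk, h1, h2⟩
    rw [h1, SUBp_eq h, SUBp_eq h] at h2
    have h3 := congrArg (fun x : M.Pt => (M.len a b : ℝ) * x.coord b) h2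
    simp only [coord_seg_right] at h3
    rw [SUB_mul_pos (M.len_pos _ _ h) hk.le, SUB_mul_pos (M.len_pos _ _ h) hk] at h3
    push_cast at h3
    linarith

theorem SUB_subdivision (M : MGraph.{u}) :
    IsSubdivision M.G M.len (SUBgraph M) (vtx : M.V → M.Pt) (SUBp M) where
  inj := fun a b h => SUB_vtx_inj h
  start := fun a b _ => SUBp_zero a b
  symm := fun a b h k hk => SUBp_symm h hk
  interior := by
    intro a b c h k h0 hk
    rw [SUBp_eq h]
    have hn := M.len_pos _ _ h
    have hn' : (0 : ℝ) < M.len a b := by exact_mod_cast hn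
    apply SUB_ne_vtx h
    · rw [SUB_pos_coe hn hk.le]
      have : (0 : ℝ) < k := by exact_mod_cast h0
      positivity
    · rw [SUB_pos_coe hn hk.le, div_lt_one hn']
      exact_mod_cast hk
  unique := by
    intro a b c d h h' k l h0 hk hl he
    rw [SUBp_eq h, SUBp_eq h'] at he
    have hn := M.len_pos _ _ h
    have hn' : (0 : ℝ) < M.len a b := by exact_mod_cast hn
    have hs0 : 0 < ((SUB_pos (M.len a b) k : unitInterval) : ℝ) := by
      rw [SUB_pos_coe hn hk.le]
      have : (0 : ℝ) < k := by exact_mod_cast h0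
      positivity
    have hs1 : ((SUB_pos (M.len a b) k : unitInterval) : ℝ) < 1 := by
      rw [SUB_pos_coe hn hk.le, div_lt_one hn']
      exact_mod_cast hk
    rcases SUB_uniq h h' hs0 hs1 he with ⟨rfl, rfl, ht⟩ | ⟨rfl, rfl, ht⟩
    · left
      refine ⟨rfl, rfl, ?_⟩
      have h3 : (M.len c d : ℝ) * (SUB_pos (M.len c d) l : unitInterval) =
          (M.len c d : ℝ) * (SUB_pos (M.len c d) k : unitInterval) := by rw [ht]
      rw [SUB_mul_pos hn hl, SUB_mul_pos hn hk.le] at h3
      exact_mod_cast h3
    · right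
      refine ⟨rfl, rfl, ?_⟩
      have hn2 := M.len_pos _ _ h'
      have h3 : (M.len c d : ℝ) * (SUB_pos (M.len c d) l : unitInterval) =
          (M.len c d : ℝ) * (1 - (SUB_pos (M.len d c) k : unitInterval)) := by rw [ht]
      rw [SUB_mul_pos hn2 hl, mul_sub, mul_one] at h3
      rw [M.len_comm c d, SUB_mul_pos hn hk.le] at h3
      have h4 : (l : ℝ) + k = M.len d c := by linarith
      have h5 : l + k = M.len d c := by exact_mod_cast h4
      omega
  adj := fun x y => Iff.rfl

/-! ### The cover -/

/-- Coefficients of the function `SUBg`. -/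
def SUBcoef (M : MGraph.{u}) (u c : M.V) : ℝ :=
  if c = u then 0 else if M.G.Adj u c then (M.len u c : ℝ) else 1

theorem SUBcoef_self (u : M.V) : SUBcoef M u u = 0 := if_pos rfl

theorem SUBcoef_adj {u c : M.V} (h : M.G.Adj u c) : SUBcoef M u c = M.len u c := by
  unfold SUBcoef
  rw [if_neg h.ne', if_pos h]

theorem SUBcoef_ge {u c : M.V} (h : c ≠ u) : 1 ≤ SUBcoef M u c := by
  unfold SUBcoef
  rw [if_neg h]
  split_ifs with h1
  · exact_mod_cast M.len_pos _ _ h1
  · exact le_rfl

/-- The sum of the coordinates times the coefficients. -/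
def SUBg (u : M.V) (x : M.Pt) : ℝ := ∑ᶠ c, SUBcoef M u c * x.coord c

theorem SUBg_seg (u : M.V) {a b : M.V} (h : M.G.Adj a b) (t : unitInterval) :
    SUBg u (seg h t) = SUBcoef M u a * (1 - t) + SUBcoef M u b * t := by
  unfold SUBg
  rw [finsum_eq_finsetSum_of_support_subset _ (s := {a, b})]
  · rw [Finset.sum_pair h.ne, coord_seg_left, coord_seg_right]
  · intro c hc
    rw [Function.mem_support] at hc
    have := SUB_end h (c := c) (s := t) (fun h0 => hc (by rw [h0, mul_zero]))
    simpa using this

theorem SUBg_vtx (u a : M.V) : SUBg u (vtx a) = SUBcoef M u a := by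
  unfold SUBg
  rw [finsum_eq_single _ a]
  · rw [coord_vtx, if_pos rfl, mul_one]
  · intro c hc
    rw [coord_vtx, if_neg hc, mul_zero]

theorem SUBg_adm (u : M.V) : Adm (fun x : M.Pt => min 1 (SUBg u x)) := by
  intro a b h s t
  have h1 : (0 : ℝ) ≤ M.len a b := by positivity
  show |min 1 (SUBg u (seg h s)) - min 1 (SUBg u (seg h t))| ≤ _
  by_cases ha : a = u
  · subst ha
    refine (abs_min_sub_min_le_max _ _ _ _).trans ?_
    rw [SUBg_seg, SUBg_seg, SUBcoef_self, SUBcoef_adj h]
    refine max_le ?_ ?_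
    · rw [sub_self, abs_zero]
      positivity
    · rw [show (0 * (1 - (s : ℝ)) + (M.len a b : ℝ) * s - (0 * (1 - (t : ℝ)) + (M.len a b : ℝ) * t)) =
        M.len a b * (s - t) by ring, abs_mul, abs_of_nonneg h1]
  · by_cases hb : b = u
    · subst hb
      refine (abs_min_sub_min_le_max _ _ _ _).trans ?_
      rw [SUBg_seg, SUBg_seg, SUBcoef_self, SUBcoef_adj h.symm, M.len_comm b a]
      refine max_le ?_ ?_
      · rw [sub_self, abs_zero]
        positivity
      · rw [show ((M.len a b : ℝ) * (1 - (s : ℝ)) + 0 * s - ((M.len a b : ℝ) * (1 - (t : ℝ)) + 0 * t)) =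
          -(M.len a b * (s - t)) by ring, abs_neg, abs_mul, abs_of_nonneg h1]
    · have key : ∀ r : unitInterval, 1 ≤ SUBg u (seg h r) := by
        intro r
        rw [SUBg_seg]
        have e1 := SUBcoef_ge (M := M) ha
        have e2 := SUBcoef_ge (M := M) hb
        have r0 := r.2.1
        have r1 := r.2.2
        nlinarith
      rw [min_eq_left (key s), min_eq_left (key t), sub_self, abs_zero]
      positivity

/-- The sets around the interior integral points. -/
def SUBint (M : MGraph.{u}) (u v : M.V) (k : ℕ) : Set M.Pt :=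
  {x | |(M.len u v : ℝ) * x.coord u - (M.len u v - k)| < 1 ∧ |(M.len u v : ℝ) * x.coord v - k| < 1}

/-- The cover. -/
def SUBU (M : MGraph.{u}) (a : M.Pt) : Set M.Pt :=
  (⋃ (u : M.V) (_ : a = vtx u), {x | min 1 (SUBg u x) < 1}) ∪
    ⋃ (u : M.V) (v : M.V) (k : ℕ)
      (_ : M.G.Adj u v ∧ 0 < k ∧ k < M.len u v ∧ a = SUBp M u v k), SUBint M u v k

theorem SUBU_open (a : M.Pt) : IsOpen (SUBU M a) := by
  unfold SUBU
  refine IsOpen.union ?_ ?_
  · refine isOpen_iUnion fun u => isOpen_iUnion fun _ => ?_
    exact isOpen_lt (SUBg_adm u).continuous continuous_const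
  · refine isOpen_iUnion fun u => isOpen_iUnion fun v => isOpen_iUnion fun k =>
      isOpen_iUnion fun _ => ?_
    unfold SUBint
    rw [Set.ofPred_and]
    refine IsOpen.inter ?_ ?_
    · exact isOpen_lt (((continuous_const.mul (continuous_coord u)).sub continuous_const).abs)
        continuous_const
    · exact isOpen_lt (((continuous_const.mul (continuous_coord v)).sub continuous_const).abs)
        continuous_const

/-- The points of the cover sets. -/
theorem SUBU_mem {a x : M.Pt} (hx : x ∈ SUBU M a) : (a = x ∧ ∃ c, x = vtx c) ∨ ∃ (u v : M.V) (h : M.G.Adj u v)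
    (t : unitInterval) (k : ℕ), k ≤ M.len u v ∧ x = seg h t ∧ a = SUBp M u v k ∧
      |(M.len u v : ℝ) * t - k| < 1 := by
  rcases hx with hx | hx
  · simp only [Set.mem_iUnion, Set.mem_ofPred_eq] at hx
    obtain ⟨u, rfl, hx⟩ := hx
    have hx' : SUBg u x < 1 := by
      rcases min_lt_iff.1 hx with h | h
      · exact absurd h (lt_irrefl _)
      · exact h
    rcases exists_rep x with ⟨c, rfl⟩ | ⟨c, d, h, t, rfl⟩
    · left
      rw [SUBg_vtx] at hx'
      by_cases hc : c = u
      · exact ⟨by rw [hc], c, rfl⟩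
      · exact absurd hx' (not_lt.2 (SUBcoef_ge hc))
    · right
      rw [SUBg_seg] at hx'
      have t0 := t.2.1
      have t1 := t.2.2
      by_cases hc : c = u
      · subst hc
        rw [SUBcoef_self, SUBcoef_adj h, zero_mul, zero_add] at hx'
        refine ⟨c, d, h, t, 0, Nat.zero_le _, rfl, (SUBp_zero _ _).symm, ?_⟩
        rw [Nat.cast_zero, sub_zero, abs_of_nonneg (by positivity)]
        exact hx'
      · by_cases hd : d = u
        · subst hd
          rw [SUBcoef_self, SUBcoef_adj h.symm, zero_mul, add_zero] at hx'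
          refine ⟨d, c, h.symm, unitInterval.symm t, 0, Nat.zero_le _, seg_symm h t,
            (SUBp_zero _ _).symm, ?_⟩
          rw [Nat.cast_zero, sub_zero, unitInterval.coe_symm_eq,
            abs_of_nonneg (mul_nonneg (by positivity) (by linarith))]
          exact hx'
        · exfalso
          have e1 := SUBcoef_ge (M := M) hc
          have e2 := SUBcoef_ge (M := M) hd
          nlinarith
  · simp only [Set.mem_iUnion] at hx
    obtain ⟨u, v, k, ⟨h, h0, hk, rfl⟩, hx1, hx2⟩ := hx
    right
    have hk' : (k : ℝ) + 1 ≤ M.len u v := by exact_mod_cast hk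
    have h0' : (1 : ℝ) ≤ k := by exact_mod_cast h0
    have hL : (0 : ℝ) < M.len u v := by linarith
    have hxu : x.coord u ≠ 0 := by
      intro h3
      rw [h3, mul_zero, zero_sub, abs_neg, abs_of_nonneg (by linarith)] at hx1
      linarith
    have hxv : x.coord v ≠ 0 := by
      intro h3
      rw [h3, mul_zero, zero_sub, abs_neg, abs_of_nonneg (by linarith)] at hx2
      linarith
    rcases exists_rep x with ⟨c, rfl⟩ | ⟨c, d, h', t, rfl⟩
    · exfalso
      rw [coord_vtx] at hxu hxv
      have e1 : u = c := by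
        by_contra hne
        exact hxu (if_neg hne)
      have e2 : v = c := by
        by_contra hne
        exact hxv (if_neg hne)
      exact h.ne (e1.trans e2.symm)
    · rcases SUB_end h' hxu with rfl | rfl
      · rcases SUB_end h' hxv with rfl | rfl
        · exact absurd rfl h.ne
        · rw [coord_seg_right] at hx2
          exact ⟨u, v, h', t, k, hk.le, rfl, rfl, hx2⟩
      · rcases SUB_end h' hxv with rfl | rfl
        · rw [coord_seg_left] at hx2
          refine ⟨u, v, h'.symm, unitInterval.symm t, k, hk.le, seg_symm h' t, rfl, ?_⟩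
          rw [unitInterval.coe_symm_eq]
          exact hx2
        · exact absurd rfl h.ne

theorem SUBU_vtx (u : M.V) : (vtx u : M.Pt) ∈ SUBU M (vtx u) := by
  left
  simp only [Set.mem_iUnion, Set.mem_ofPred_eq]
  refine ⟨u, rfl, ?_⟩
  rw [SUBg_vtx, SUBcoef_self]
  exact min_lt_of_right_lt one_pos

theorem SUBU_cover (q : M.Pt) : ∃ a, q ∈ SUBU M a := by
  rcases exists_rep q with ⟨c, rfl⟩ | ⟨u, v, h, t, rfl⟩
  · exact ⟨_, SUBU_vtx c⟩
  · have t0 := t.2.1
    have t1 := t.2.2
    have hn := M.len_pos _ _ h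
    have hn' : (0 : ℝ) < M.len u v := by exact_mod_cast hn
    have hy0 : (0 : ℝ) ≤ M.len u v * t := mul_nonneg hn'.le t0
    have hfl := Nat.floor_le hy0
    have hfl2 := Nat.lt_floor_add_one ((M.len u v : ℝ) * t)
    set k := ⌊(M.len u v : ℝ) * t⌋₊ with hk
    have hkL : k ≤ M.len u v := by
      have : (k : ℝ) ≤ M.len u v := hfl.trans (by nlinarith)
      exact_mod_cast this
    have habs : |(M.len u v : ℝ) * t - k| < 1 := by
      rw [abs_of_nonneg (by linarith)]
      linarith
    rcases Nat.eq_zero_or_pos k with h0 | h0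
    · refine ⟨vtx u, Or.inl ?_⟩
      simp only [Set.mem_iUnion, Set.mem_ofPred_eq]
      refine ⟨u, rfl, ?_⟩
      rw [SUBg_seg, SUBcoef_self, SUBcoef_adj h, zero_mul, zero_add]
      apply min_lt_of_right_lt
      rw [h0] at hfl2
      simpa using hfl2
    · rcases Nat.lt_or_ge k (M.len u v) with h1 | h1
      · refine ⟨SUBp M u v k, Or.inr ?_⟩
        simp only [Set.mem_iUnion]
        refine ⟨u, v, k, ⟨h, h0, h1, rfl⟩, ?_, ?_⟩
        · rw [coord_seg_left]
          rw [show (M.len u v : ℝ) * (1 - (t : ℝ)) - (M.len u v - k) = -(M.len u v * t - k) by ring,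
            abs_neg]
          exact habs
        · rw [coord_seg_right]
          exact habs
      · have hkk : k = M.len u v := le_antisymm hkL h1
        have ht : (t : ℝ) = 1 := by
          have : (M.len u v : ℝ) ≤ M.len u v * t := by
            rw [← hkk] at hfl ⊢
            exact hfl
          nlinarith
        have ht' : t = 1 := Subtype.ext ht
        rw [ht', seg_one]
        exact ⟨_, SUBU_vtx v⟩

theorem SUBU_dist {a x : M.Pt} (hx : x ∈ SUBU M a) : dist x a < 1 := by
  rcases SUBU_mem hx with ⟨rfl, _⟩ | ⟨u, v, h, t, k, hk, rfl, rfl, hlt⟩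
  · rw [dist_self]
    exact one_pos
  · rw [SUBp_eq h]
    refine (dist_seg_le h _ _).trans_lt ?_
    have hL : (0 : ℝ) ≤ M.len u v := by positivity
    have e : (M.len u v : ℝ) * |(t : ℝ) - (SUB_pos (M.len u v) k : unitInterval)| =
        |(M.len u v : ℝ) * t - k| := by
      conv_lhs => rw [← abs_of_nonneg hL, ← abs_mul]
      rw [mul_sub, SUB_mul_pos (M.len_pos _ _ h) hk]
    rw [e]
    exact hlt

/-- A vertex is only in its own set. -/
theorem SUBU_of_vtx {a : M.Pt} {c : M.V} (hx : (vtx c : M.Pt) ∈ SUBU M a) : a = vtx c := by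
  rcases SUBU_mem hx with ⟨h, _⟩ | ⟨u, v, h, t, k, hk, hxt, rfl, hlt⟩
  · exact h
  · have t0 := t.2.1
    have t1 := t.2.2
    have hn := M.len_pos _ _ h
    rcases eq_or_lt_of_le t0 with h0 | h0
    · have ht : t = 0 := Subtype.ext h0.symm
      subst ht
      rw [hxt, seg_zero]
      have : k = 0 := by
        by_contra hne
        have hk1 : (1 : ℝ) ≤ k := by exact_mod_cast Nat.one_le_iff_ne_zero.2 hne
        rw [show ((0 : unitInterval) : ℝ) = 0 from rfl, mul_zero, zero_sub, abs_neg,
          abs_of_nonneg (by linarith)] at hlt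
        linarith
      rw [this, SUBp_zero]
    · rcases eq_or_lt_of_le t1 with h1 | h1
      · have ht : t = 1 := Subtype.ext h1
        subst ht
        rw [hxt, seg_one]
        have : k = M.len u v := by
          by_contra hne
          have hk1 : (k : ℝ) + 1 ≤ M.len u v := by exact_mod_cast lt_of_le_of_ne hk hne
          rw [show ((1 : unitInterval) : ℝ) = 1 from rfl, mul_one,
            abs_of_nonneg (by linarith)] at hlt
          linarith
        rw [SUBp_symm h hk, this, Nat.sub_self, SUBp_zero]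
      · exact absurd hxt.symm (SUB_ne_vtx h h0 h1)

theorem SUBU_nerve {a b : M.Pt} (hab : a ≠ b) (hne : (SUBU M a ∩ SUBU M b).Nonempty) :
    (SUBgraph M).Adj a b := by
  obtain ⟨x, hxa, hxb⟩ := hne
  by_cases hv : ∃ c, x = vtx c
  · obtain ⟨c, rfl⟩ := hv
    exact absurd ((SUBU_of_vtx hxa).trans (SUBU_of_vtx hxb).symm) hab
  · -- reduction to the case of the same edge
    have key : ∀ (u v : M.V) (h : M.G.Adj u v) (t : unitInterval) (k l : ℕ), k ≤ M.len u v →
        l ≤ M.len u v → a = SUBp M u v k → b = SUBp M u v l → |(M.len u v : ℝ) * t - k| < 1 →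
        |(M.len u v : ℝ) * t - l| < 1 → (SUBgraph M).Adj a b := by
      intro u v h t k l hk hl ha hb h1 h2
      rw [abs_lt] at h1 h2
      have h3 : (k : ℝ) < l + 2 := by linarith
      have h4 : (l : ℝ) < k + 2 := by linarith
      have h3' : k < l + 2 := by exact_mod_cast h3
      have h4' : l < k + 2 := by exact_mod_cast h4
      have h5 : k ≠ l := by
        rintro rfl
        exact hab (ha.trans hb.symm)
      rcases Nat.lt_or_ge k l with h6 | h6
      · have h7 : l = k + 1 := by omega
        exact ⟨u, v, k, h, by omega, ha, by rw [← h7]; exact hb⟩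
      · have h7 : k = l + 1 := by omega
        apply SimpleGraph.Adj.symm
        exact ⟨u, v, l, h, by omega, hb, by rw [← h7]; exact ha⟩
    rcases exists_rep x with ⟨c, hc⟩ | ⟨u, v, h, t, hx⟩
    · exact absurd ⟨c, hc⟩ hv
    · have t0 : 0 < (t : ℝ) := by
        rcases eq_or_lt_of_le t.2.1 with h0 | h0
        · have ht : t = 0 := Subtype.ext h0.symm
          exact absurd ⟨u, by rw [hx, ht, seg_zero]⟩ hv
        · exact h0
      have t1 : (t : ℝ) < 1 := by
        rcases eq_or_lt_of_le t.2.2 with h0 | h0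
        · have ht : t = 1 := Subtype.ext h0
          exact absurd ⟨v, by rw [hx, ht, seg_one]⟩ hv
        · exact h0
      -- positions of the integral points on this edge
      have pos : ∀ c : M.Pt, x ∈ SUBU M c → ∃ k : ℕ, k ≤ M.len u v ∧ c = SUBp M u v k ∧
          |(M.len u v : ℝ) * t - k| < 1 := by
        intro c hc
        rcases SUBU_mem hc with ⟨_, h0⟩ | ⟨u', v', h', t', k, hk, hx', hc', hlt⟩
        · exact absurd h0 hv
        · have he : seg h t = seg h' t' := by rw [← hx, ← hx']
          rcases SUB_uniq h h' t0 t1 he with ⟨rfl, rfl, ht⟩ | ⟨rfl, rfl, ht⟩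
          · exact ⟨k, hk, hc', by rw [← ht]; exact hlt⟩
          · have hk2 : k ≤ M.len v' u' := by rw [M.len_comm]; exact hk
            refine ⟨M.len v' u' - k, Nat.sub_le _ _, ?_, ?_⟩
            · rw [hc', SUBp_symm h' hk, M.len_comm v' u']
            · rw [Nat.cast_sub hk2]
              rw [ht, M.len_comm u' v'] at hlt
              rw [show (M.len v' u' : ℝ) * t - (M.len v' u' - k) =
                -(M.len v' u' * (1 - t) - k) by ring, abs_neg]
              exact hlt
      obtain ⟨k, hk, ha, h1⟩ := pos a hxa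
      obtain ⟨l, hl, hb, h2⟩ := pos b hxb
      exact key u v h t k l hk hl ha hb h1 h2

/-- [SUB] -/
theorem p_SUB : S_SUB.{u} := by
  intro M
  refine ⟨M.Pt, SUBgraph M, vtx, SUBp M, SUBU M, SUB_subdivision M, SUBU_open, SUBU_cover, ?_,
    fun a b hab hne => SUBU_nerve hab hne⟩
  intro a q hq r hr
  have h1 := SUBU_dist hq
  have h2 := SUBU_dist hr
  rw [dist_comm] at h2
  have h3 := dist_triangle q a r
  linarith

end Pool.Agent.Lib.MP_4aff23_co
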