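import Pool.Agent.Lib.MP_4aff23_co.Stm

set_option autoImplicit false

/-!
# Piece UNS: minors of subdivisions (helper29)
-/

universe u v w

namespace Pool.Agent.Lib.MP_4aff23_co

/-- Induction along the walks of a connected induced subgraph. -/
theorem UNS_ind {A : Type v} {S : SimpleGraph A} {T : Set A} (h : (S.induce T).Connected)
    (P : A → Prop) {x₀ : A} (hx₀ : x₀ ∈ T) (h0 : P x₀)
    (hs : ∀ x ∈ T, ∀ y ∈ T, P x → S.Adj x y → P y) : ∀ x ∈ T, P x := by
  intro x hx
  obtain ⟨q⟩ := h.preconnected ⟨x₀, hx₀⟩ ⟨x, hx⟩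
  have key : ∀ (s t : T) (q : (S.induce T).Walk s t), P s → P t := by
    intro s t q
    induction q with
    | nil => exact fun h => h
    | @cons s m t hsm q ih =>
      intro hp
      exact ih (hs s.1 s.2 m.1 m.2 hp (by simpa using hsm))
  exact key _ _ q h0

section

variable {V : Type u} {A : Type v} {W : Type w} {G : SimpleGraph V} {len : V → V → ℕ}
  {S : SimpleGraph A} {ι : V → A} {p : V → V → ℕ → A}

theorem UNS_fin (h : IsSubdivision G len S ι p) {a b : V} (hab : G.Adj a b) :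
    p a b (len a b) = ι b := by
  rw [h.symm a b hab _ le_rfl, Nat.sub_self, h.start b a hab.symm]

/-- the neighbours of an interior point -/
theorem UNS_nbr (h : IsSubdivision G len S ι p) {a b : V} (hab : G.Adj a b) {k : ℕ} (h0 : 0 < k)
    (hk : k < len a b) {y : A} (hy : S.Adj (p a b k) y) :
    y = p a b (k - 1) ∨ y = p a b (k + 1) := by
  rw [h.adj] at hy
  obtain ⟨c, d, l, hcd, hl, hx, rfl⟩ := hy
  rcases h.unique a b c d hab hcd k l h0 hk hl.le hx with ⟨rfl, rfl, rfl⟩ | ⟨rfl, rfl, rfl⟩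
  · exact Or.inr rfl
  · left
    rw [h.symm _ _ hab (k - 1) (by omega)]
    congr 1
    omega

/-- the neighbours of a branch vertex -/
theorem UNS_nbr0 (h : IsSubdivision G len S ι p) {u : V} {y : A} (hy : S.Adj (ι u) y) :
    ∃ v, G.Adj u v ∧ y = p u v 1 := by
  rw [h.adj] at hy
  obtain ⟨c, d, l, hcd, hl, hx, rfl⟩ := hy
  rcases Nat.eq_zero_or_pos l with rfl | hl0
  · rw [h.start c d hcd] at hx
    have := h.inj hx
    subst this
    exact ⟨d, hcd, rfl⟩
  · exact absurd hx.symm (h.interior c d u hcd l hl0 hl)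

/-- two points of a path with the same name -/
theorem UNS_pos (h : IsSubdivision G len S ι p) {a b : V} (hab : G.Adj a b) {k l : ℕ} (h0 : 0 < k)
    (hk : k < len a b) (hl : l ≤ len a b) (hkl : p a b k = p a b l) : l = k := by
  rcases h.unique a b a b hab hab k l h0 hk hl hkl with ⟨_, _, h3⟩ | ⟨h1, _, _⟩
  · exact h3
  · exact absurd h1 hab.ne

/-- a connected set without branch vertices has at most two outside neighbours -/
theorem UNS_two (h : IsSubdivision G len S ι p) {T : Set A} (hT : (S.induce T).Connected)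
    (hι : ∀ a, ι a ∉ T) : ∃ P Q : A, ∀ x ∈ T, ∀ y, y ∉ T → S.Adj x y → y = P ∨ y = Q := by
  by_cases hex : ∃ x ∈ T, ∃ y, S.Adj x y
  swap
  · obtain ⟨⟨x₀, hx₀⟩⟩ := hT.nonempty
    refine ⟨x₀, x₀, fun x hx y _ hxy => ?_⟩
    exact absurd ⟨x, hx, y, hxy⟩ hex
  obtain ⟨x₀, hx₀, y₀, hxy₀⟩ := hex
  rw [h.adj] at hxy₀
  obtain ⟨a, b, k, hab, hk, rfl, -⟩ := hxy₀
  have hk0 : 0 < k := by
    rcases Nat.eq_zero_or_pos k with rfl | h'
    · rw [h.start a b hab] at hx₀
      exact absurd hx₀ (hι a)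
    · exact h'
  -- every point of `T` is an interior point of the path
  have hall : ∀ x ∈ T, ∃ j, 0 < j ∧ j < len a b ∧ x = p a b j := by
    refine UNS_ind hT _ hx₀ ⟨k, hk0, hk, rfl⟩ ?_
    rintro x hx y hy ⟨j, hj0, hj, rfl⟩ hxy
    rcases UNS_nbr h hab hj0 hj hxy with rfl | rfl
    · rcases Nat.eq_zero_or_pos (j - 1) with h1 | h1
      · rw [h1, h.start a b hab] at hy
        exact absurd hy (hι a)
      · exact ⟨j - 1, h1, by omega, rfl⟩
    · rcases Nat.lt_or_ge (j + 1) (len a b) with h1 | h1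
      · exact ⟨j + 1, by omega, h1, rfl⟩
      · have h2 : j + 1 = len a b := by omega
        rw [h2, UNS_fin h hab] at hy
        exact absurd hy (hι b)
  -- the positions form an interval
  have hint : ∀ i j m, 0 < i → i < m → m < j → j < len a b → p a b i ∈ T → p a b j ∈ T →
      p a b m ∈ T := by
    intro i j m hi him hmj hj hiT hjT
    by_contra hm
    have h1 : ∀ x ∈ T, ∃ l, 0 < l ∧ l < m ∧ x = p a b l := by
      refine UNS_ind hT _ hiT ⟨i, hi, him, rfl⟩ ?_
      rintro x hx y hy ⟨l, hl0, hl, rfl⟩ hxy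
      rcases UNS_nbr h hab hl0 (by omega) hxy with rfl | rfl
      · rcases Nat.eq_zero_or_pos (l - 1) with h1 | h1
        · rw [h1, h.start a b hab] at hy
          exact absurd hy (hι a)
        · exact ⟨l - 1, h1, by omega, rfl⟩
      · rcases Nat.lt_or_ge (l + 1) m with h1 | h1
        · exact ⟨l + 1, by omega, h1, rfl⟩
        · have h2 : l + 1 = m := by omega
          rw [h2] at hy
          exact absurd hy hm
    obtain ⟨l, hl0, hl, hjl⟩ := h1 _ hjT
    have := UNS_pos h hab (by omega) hj (by omega) hjl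
    omega
  -- the smallest and the largest position
  classical
  have hex1 : ∃ j, 0 < j ∧ j < len a b ∧ p a b j ∈ T := ⟨k, hk0, hk, hx₀⟩
  obtain ⟨α, ⟨hα0, hα, hαT⟩, hαmin⟩ : ∃ α, (0 < α ∧ α < len a b ∧ p a b α ∈ T) ∧
      ∀ j, 0 < j → j < len a b → p a b j ∈ T → α ≤ j :=
    ⟨Nat.find hex1, Nat.find_spec hex1, fun j h1 h2 h3 => Nat.find_min' hex1 ⟨h1, h2, h3⟩⟩
  have hex2 : ∃ i, i < len a b ∧ p a b (len a b - i) ∈ T ∧ 0 < i := by
    refine ⟨len a b - k, by omega, ?_, by omega⟩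
    rw [show len a b - (len a b - k) = k by omega]
    exact hx₀
  obtain ⟨β, ⟨hβ0, hβ, hβT⟩, hβmax⟩ : ∃ β, (0 < β ∧ β < len a b ∧ p a b β ∈ T) ∧
      ∀ j, 0 < j → j < len a b → p a b j ∈ T → j ≤ β := by
    obtain ⟨h1, h2, h3⟩ := Nat.find_spec hex2
    refine ⟨len a b - Nat.find hex2, ⟨by omega, by omega, h2⟩, fun j hj0 hj hjT => ?_⟩
    have h4 : Nat.find hex2 ≤ len a b - j := by
      refine Nat.find_min' hex2 ⟨by omega, ?_, by omega⟩
      rw [show len a b - (len a b - j) = j by omega]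
      exact hjT
    omega
  refine ⟨p a b (α - 1), p a b (β + 1), fun x hx y hy hxy => ?_⟩
  obtain ⟨j, hj0, hj, rfl⟩ := hall x hx
  have h1 := hαmin j hj0 hj hx
  have h2 := hβmax j hj0 hj hx
  rcases UNS_nbr h hab hj0 hj hxy with rfl | rfl
  · left
    have h3 : j = α := by
      by_contra hne
      refine hy ?_
      rcases Nat.eq_or_lt_of_le (show α ≤ j - 1 by omega) with h4 | h4
      · rw [← h4]
        exact hαT
      · exact hint α j (j - 1) hα0 h4 (by omega) hj hαT hx
    rw [h3]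
  · right
    have h3 : j = β := by
      by_contra hne
      refine hy ?_
      rcases Nat.eq_or_lt_of_le (show j + 1 ≤ β by omega) with h4 | h4
      · rw [h4]
        exact hβT
      · exact hint j β (j + 1) hj0 (by omega) h4 hβ hx hβT
    rw [h3]

/-- `x` is anchored at `u` in `T` -/
def UNS_Anch (G : SimpleGraph V) (len : V → V → ℕ) (ι : V → A) (p : V → V → ℕ → A) (T : Set A)
    (x : A) (u : V) : Prop :=
  ι u ∈ T ∧ (x = ι u ∨ ∃ v k, G.Adj u v ∧ k ≤ len u v ∧ x = p u v k ∧ ∀ j ≤ k, p u v j ∈ T)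

/-- reachable inside the preimage of `T` -/
def UNS_R (G : SimpleGraph V) (ι : V → A) (T : Set A) (c u : V) : Prop :=
  ∃ (hc : ι c ∈ T) (hu : ι u ∈ T),
    (G.induce (ι ⁻¹' T)).Reachable ⟨c, hc⟩ ⟨u, hu⟩

theorem UNS_R_step {T : Set A} {c u v : V} (h : UNS_R G ι T c u) (huv : G.Adj u v)
    (hv : ι v ∈ T) : UNS_R G ι T c v := by
  obtain ⟨hc, hu, hr⟩ := h
  refine ⟨hc, hv, hr.trans ?_⟩
  refine SimpleGraph.Adj.reachable ?_
  simpa using huv

theorem UNS_anch (hlen : ∀ a b, G.Adj a b → 1 ≤ len a b) (h : IsSubdivision G len S ι p)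
    {T : Set A} (hT : (S.induce T).Connected) {c : V} (hc : ι c ∈ T) :
    ∀ x ∈ T, ∃ u, UNS_R G ι T c u ∧ UNS_Anch G len ι p T x u := by
  refine UNS_ind hT _ hc ⟨c, ⟨hc, hc, SimpleGraph.Reachable.refl _⟩, hc, Or.inl rfl⟩ ?_
  rintro x hx y hy ⟨u, hR, hu, hxu⟩ hxy
  -- the case of a branch vertex
  have base : ∀ u', UNS_R G ι T c u' → ι u' ∈ T → x = ι u' →
      ∃ u, UNS_R G ι T c u ∧ UNS_Anch G len ι p T y u := by
    intro u' hR' hu' hx'
    rw [hx'] at hxy
    obtain ⟨v, huv, rfl⟩ := UNS_nbr0 h hxy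
    refine ⟨u', hR', hu', Or.inr ⟨v, 1, huv, hlen u' v huv, rfl, fun j hj => ?_⟩⟩
    rcases Nat.eq_or_lt_of_le hj with rfl | hj
    · exact hy
    · rw [show j = 0 by omega, h.start u' v huv]
      exact hu'
  rcases hxu with hxu | ⟨v, k, huv, hk, rfl, hall⟩
  · exact base u hR hu hxu
  rcases Nat.eq_zero_or_pos k with rfl | hk0
  · exact base u hR hu (h.start u v huv)
  rcases Nat.eq_or_lt_of_le hk with hkl | hkl
  · -- `x` is the branch vertex `v`
    have h1 : p u v k = ι v := by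
      rw [hkl]
      exact UNS_fin h huv
    have h2 : ι v ∈ T := by
      rw [← h1]
      exact hall k le_rfl
    exact base v (UNS_R_step hR huv h2) h2 h1
  · rcases UNS_nbr h huv hk0 hkl hxy with rfl | rfl
    · exact ⟨u, hR, hu, Or.inr ⟨v, k - 1, huv, by omega, rfl, fun j hj => hall j (by omega)⟩⟩
    · refine ⟨u, hR, hu, Or.inr ⟨v, k + 1, huv, by omega, rfl, fun j hj => ?_⟩⟩
      rcases Nat.eq_or_lt_of_le hj with rfl | hj
      · exact hy
      · exact hall j (by omega)

/-- the branch vertices in `T` induce a connected graph -/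
theorem UNS_conn (hlen : ∀ a b, G.Adj a b → 1 ≤ len a b) (h : IsSubdivision G len S ι p)
    {T : Set A} (hT : (S.induce T).Connected) {c : V} (hc : ι c ∈ T) :
    (G.induce (ι ⁻¹' T)).Connected := by
  have hreach : ∀ v, ι v ∈ T → UNS_R G ι T c v := by
    intro v hv
    obtain ⟨u, hR, hu, hx | ⟨v', k, huv, hk, hx, hall⟩⟩ := UNS_anch hlen h hT hc (ι v) hv
    · rw [h.inj hx]
      exact hR
    · rcases Nat.eq_zero_or_pos k with rfl | hk0
      · rw [h.start u v' huv] at hx
        rw [h.inj hx]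
        exact hR
      rcases Nat.eq_or_lt_of_le hk with hkl | hkl
      · rw [hkl, UNS_fin h huv] at hx
        rw [h.inj hx] at hv ⊢
        exact UNS_R_step hR huv hv
      · exact absurd hx.symm (h.interior u v' v huv k hk0 hkl)
  have : Nonempty (ι ⁻¹' T) := ⟨⟨c, hc⟩⟩
  rw [SimpleGraph.connected_iff_exists_forall_reachable]
  refine ⟨⟨c, hc⟩, fun v => ?_⟩
  obtain ⟨_, _, hr⟩ := hreach v.1 v.2
  exact hr

/-- the first end of an edge between two branch sets -/
theorem UNS_end (hlen : ∀ a b, G.Adj a b → 1 ≤ len a b) (h : IsSubdivision G len S ι p)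
    {T T' : Set A} (hT : (S.induce T).Connected) (hTT : Disjoint T T') {c : V} (hc : ι c ∈ T)
    {a b : V} (hab : G.Adj a b) {k : ℕ} (hk : k < len a b) (h1 : p a b k ∈ T)
    (h2 : p a b (k + 1) ∈ T') : ι a ∈ T := by
  rcases Nat.eq_zero_or_pos k with rfl | hk0
  · rw [h.start a b hab] at h1
    exact h1
  obtain ⟨u, -, hu, hx | ⟨v, l, huv, hl, hx, hall⟩⟩ := UNS_anch hlen h hT hc _ h1
  · exact absurd hx (h.interior a b u hab k hk0 hk)
  · rcases h.unique a b u v hab huv k l hk0 hk hl hx with ⟨rfl, rfl, rfl⟩ | ⟨rfl, rfl, rfl⟩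
    · exact hu
    · exfalso
      have h3 := hall (len v u - (k + 1)) (by omega)
      rw [← h.symm v u hab (k + 1) (by omega)] at h3
      exact (Set.disjoint_left.1 hTT) h3 h2

end

/-- [UNS] -/
theorem p_UNS : S_UNS.{u, v, w} := by
  intro V A W G len S ι p Δ hsym hlen h hdeg hM
  obtain ⟨B, hconn, hdisj, hadj⟩ := hM
  -- every branch set contains a branch vertex
  have hbr : ∀ a : W, ∃ c, ι c ∈ B a := by
    intro a
    by_contra hno
    rw [not_exists] at hno
    obtain ⟨P, Q, hPQ⟩ := UNS_two h (hconn a) hno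
    have hch : ∀ b ∈ Δ.neighborSet a, ∃ y ∈ B b, y = P ∨ y = Q := by
      intro b hb
      have hab : Δ.Adj a b := hb
      obtain ⟨x, hx, y, hy, hxy⟩ := hadj a b hab
      refine ⟨y, hy, hPQ x hx y (fun hy' => ?_) hxy⟩
      exact (Set.disjoint_left.1 (hdisj a b hab.ne)) hy' hy
    have : Nonempty A := ⟨P⟩
    choose! f hf hf2 using hch
    have h1 : (Δ.neighborSet a).encard ≤ ({P, Q} : Set A).encard := by
      refine Set.encard_le_encard_of_injOn (f := f) ?_ ?_
      · intro b hb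
        rcases hf2 b hb with h1 | h1
        · exact Or.inl h1
        · exact Or.inr h1
      · intro b hb b' hb' hbb
        by_contra hne
        have h2 := hf b hb
        rw [hbb] at h2
        exact (Set.disjoint_left.1 (hdisj b b' hne)) h2 (hf b' hb')
    have h2 : ({P, Q} : Set A).encard ≤ 2 := by
      refine (Set.encard_insert_le {Q} P).trans ?_
      rw [Set.encard_singleton]
      exact le_of_eq (by norm_num)
    have h3 := (hdeg a).trans (h1.trans h2)
    exact absurd h3 (by decide)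
  refine ⟨fun a => ι ⁻¹' (B a), fun a => ?_, fun a b hab => ?_, fun a b hab => ?_⟩
  · obtain ⟨c, hc⟩ := hbr a
    exact UNS_conn hlen h (hconn a) hc
  · exact (hdisj a b hab).preimage ι
  · obtain ⟨x, hx, y, hy, hxy⟩ := hadj a b hab
    rw [h.adj] at hxy
    obtain ⟨s, t, k, hst, hk, rfl, rfl⟩ := hxy
    obtain ⟨c, hc⟩ := hbr a
    obtain ⟨c', hc'⟩ := hbr b
    have hd := hdisj a b hab.ne
    refine ⟨s, UNS_end hlen h (hconn a) hd hc hst hk hx hy, t, ?_, hst⟩
    have hk' : len s t - (k + 1) < len t s := by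
      rw [← hsym s t]
      omega
    refine UNS_end hlen h (T' := B a) (hconn b) hd.symm hc' hst.symm (k := len s t - (k + 1)) hk' ?_ ?_
    · rw [← h.symm s t hst (k + 1) (by omega)]
      exact hy
    · rw [show len s t - (k + 1) + 1 = len s t - k by omega, ← h.symm s t hst k (by omega)]
      exact hx

end Pool.Agent.Lib.MP_4aff23_co
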