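import Pool.Agent.Lib.MP_4aff23_co.Stm

set_option autoImplicit false

/-!
# MP_4aff23_co, piece WED: the wedge of the copies of a graph
-/

universe u v w

namespace Pool.Agent.Lib.MP_4aff23_co

open MGraph

noncomputable section

variable {V : Type u}

/-- the chosen vertex of the component of `a` -/
def WED_rep (H : SimpleGraph V) (a : V) : V := Quot.out (H.connectedComponentMk a)

theorem WED_rep_reach (H : SimpleGraph V) (a : V) : H.Reachable (WED_rep H a) a :=
  SimpleGraph.ConnectedComponent.exact (Quot.out_eq (H.connectedComponentMk a))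

theorem WED_rep_eq (H : SimpleGraph V) {a b : V} (h : H.Reachable a b) :
    WED_rep H a = WED_rep H b := by
  unfold WED_rep
  rw [SimpleGraph.ConnectedComponent.sound h]

theorem WED_rep_rep (H : SimpleGraph V) (a : V) : WED_rep H (WED_rep H a) = WED_rep H a :=
  WED_rep_eq H (WED_rep_reach H a)

/-- the wedge of countably many copies of `H` -/
def WED_graph (H : SimpleGraph V) : SimpleGraph (Option (ℕ × V)) where
  Adj
    | none, none => False
    | none, some p => WED_rep H p.2 = p.2
    | some p, none => WED_rep H p.2 = p.2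
    | some p, some q => p.1 = q.1 ∧ H.Adj p.2 q.2
  symm := ⟨by
    rintro (_ | p) (_ | q) h
    · exact h
    · exact h
    · exact h
    · exact ⟨h.1.symm, h.2.symm⟩⟩
  loopless := ⟨by
    rintro (_ | p) h
    · exact h
    · exact H.irrefl h.2⟩

/-- the lengths of the edges -/
def WED_len : Option (ℕ × V) → Option (ℕ × V) → ℕ
  | none, none => 1
  | none, some p => p.1 + 1
  | some p, none => p.1 + 1
  | some p, some q => max p.1 q.1 + 1

theorem WED_conn (H : SimpleGraph V) : (WED_graph H).Connected := by
  have key : ∀ x : Option (ℕ × V), (WED_graph H).Reachable none x := by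
    rintro (_ | ⟨n, a⟩)
    · exact SimpleGraph.Reachable.refl _
    · have h1 : (WED_graph H).Adj none (some (n, WED_rep H a)) := WED_rep_rep H a
      have h2 : (WED_graph H).Reachable (some (n, WED_rep H a)) (some (n, a)) := by
        let f : H →g WED_graph H :=
          { toFun := fun c => some (n, c)
            map_rel' := fun h => ⟨rfl, h⟩ }
        exact (WED_rep_reach H a).map f
      exact h1.reachable.trans h2
  have : Nonempty (Option (ℕ × V)) := ⟨none⟩
  exact ⟨fun x y => (key x).symm.trans (key y)⟩

/-- the metric graph -/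
def WED_mg (H : SimpleGraph V) : MGraph.{u} where
  V := Option (ℕ × V)
  G := WED_graph H
  conn := WED_conn H
  len := WED_len
  len_comm := by
    rintro (_ | p) (_ | q)
    · rfl
    · rfl
    · rfl
    · show max p.1 q.1 + 1 = max q.1 p.1 + 1
      rw [max_comm]
  len_pos := by
    rintro (_ | p) (_ | q) _
    · exact le_refl _
    · exact Nat.le_add_left _ _
    · exact Nat.le_add_left _ _
    · exact Nat.le_add_left _ _

/-- the side of a vertex -/
def WED_side (H : SimpleGraph V) : Option (ℕ × V) → Option (ℕ × V)
  | none => none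
  | some p => some (p.1, WED_rep H p.2)

/-- [WED] the wedge of the copies of `H` -/
theorem p_WED : S_CUT.{u,u,w} → S_HOM.{w,u,u} → S_WED.{u,w} := by
  intro hC hH V H
  refine ⟨WED_mg H, fun n => ⟨fun a => some (n, a), ?_, fun a b h => ⟨rfl, h⟩, ?_⟩, ?_⟩
  · intro a b h
    have h1 : (some (n, a) : Option (ℕ × V)) = some (n, b) := h
    exact (Prod.ext_iff.mp (Option.some.inj h1)).2
  · rintro a (_ | q) h
    · rfl
    · show max n q.1 + 1 = n + 1
      have h1 : n = q.1 := h.1
      rw [← h1, max_self]
  · intro W Δ hΔ hM
    obtain ⟨i, hi⟩ := hC (Option (ℕ × V)) (Option (ℕ × V)) W (WED_graph H) none (WED_side H) Δ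
      (by
        rintro (_ | p) (_ | q) hp hq h
        · rfl
        · exact absurd rfl hp
        · exact absurd rfl hq
        · show some (p.1, WED_rep H p.2) = some (q.1, WED_rep H q.2)
          rw [h.1, WED_rep_eq H h.2.reachable])
      (by
        rintro (_ | p) (_ | q) hp hq h
        · rfl
        · exact absurd hp id
        · exact absurd hq id
        · have h1 : (p.1, WED_rep H p.2) = (q.1, WED_rep H q.2) := Option.some.inj h
          have h2 : WED_rep H p.2 = p.2 := hp
          have h3 : WED_rep H q.2 = q.2 := hq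
          rw [h2, h3] at h1
          exact congrArg some h1)
      hΔ hM
    refine hH.1 W {a : Option (ℕ × V) // a ≠ none ∧ WED_side H a = i} V Δ _ H
      (fun x => match x with
        | ⟨none, h⟩ => absurd rfl h.1
        | ⟨some p, _⟩ => p.2) ?_ ?_ hi
    · rintro ⟨_ | p, hp⟩ ⟨_ | q, hq⟩ h
      · rfl
      · exact absurd rfl hp.1
      · exact absurd rfl hq.1
      · have h0 : p.2 = q.2 := h
        have h1 : (some (p.1, WED_rep H p.2) : Option (ℕ × V)) = some (q.1, WED_rep H q.2) :=
          hp.2.trans hq.2.symm
        have h2 : p.1 = q.1 := (Prod.ext_iff.mp (Option.some.inj h1)).1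
        have h3 : p = q := Prod.ext h2 h0
        subst h3
        rfl
    · rintro ⟨_ | p, hp⟩ ⟨_ | q, hq⟩ h
      · exact absurd rfl hp.1
      · exact absurd rfl hp.1
      · exact absurd rfl hq.1
      · have h1 : p.1 = q.1 ∧ H.Adj p.2 q.2 := h
        exact h1.2

end

end Pool.Agent.Lib.MP_4aff23_co
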