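import Pool.Agent.Lib.MP_4aff23_co.Defs
import Pool.Agent.Lib.MP_4aff23_co.MG

set_option autoImplicit false

/-!
# MP_4aff23_co: the statements of the pieces

Aim (`Results/MP_4aff23_co/Equivalence.lean`): the question Q1 (can every set `F` of finite graphs be
replaced by a finite one, as far as asymptotic exclusion in length spaces is concerned) is equivalent
to the graph minor theorem; and for a set `F` of graphs that are 2-connected with minimum degree at
least three the answer for `F` is yes exactly when `F` has a finite basis for the minor order.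

Plan. Fat minors are inherited by ordinary minors (`S_CLO`), so a finite basis of `F` can replace `F`.
Conversely for every finite graph `H` there is a metric graph `M` (`S_WED`), made of copies of `H` with
edges of length `1, 2, 3, ...` joined to one base point, such that `H` is an asymptotic minor of `M`
(`S_FAT`) and every asymptotic minor of `M` that is 2-connected with minimum degree at least three is
an ordinary minor of `H` (`S_NRV`, `S_SUB`, `S_UNS`, `S_CUT`).
-/

universe u v w x y

namespace Pool.Agent.Lib.MP_4aff23_co

open MGraph

/-! ## Metric graphs -/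

/-- [LEN] metric graphs are length spaces.

Proof. Let `ρ x y` be the right side (in `ℝ≥0∞`). `edist x y ≤ ρ x y` by `eVariationOn.edist_le` (the
end points of `γ` are `x`, `y`). For the other inequality:
(1) `ρ x z ≤ ρ x y + ρ y z`: the variation of `γ.trans γ'` is at most the sum of the variations (split
at `1/2` by `eVariationOn.Icc_add_Icc`, and each half is a monotone reparametrisation,
`eVariationOn.comp_le_of_monotoneOn`, of `γ`, `γ'`).
(2) `ρ x x = 0` (constant path) and `ρ` is symmetric (or use the triangle inequality twice in (5)).
(3) `ρ (seg h s) (seg h t) ≤ ENNReal.ofReal (M.len a b * |s - t|)`: the path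
`r ↦ seg h ((1 - r) s + r t)` is Lipschitz with constant `M.len a b * |s - t|` by `dist_seg_le`, and
the variation over `[0,1]` of a `C`-Lipschitz map is at most `C` (sum of at most `C (t_(i+1) - t_i)`).
(4) `ρ x y < ∞` for all `x, y`: by (3), (1), `exists_rep` and the connectedness of `M.G` (induction on a
walk, as in `bdd_vtx`).
(5) So for fixed `x` the function `f y = (ρ x y).toReal` is admissible (`Adm`), by (1), (3), and
`le_dist` gives `dist x y ≥ |f x - f y| = (ρ x y).toReal`, i.e. `ρ x y ≤ edist x y`. -/
def S_LEN : Prop := ∀ M : MGraph.{u}, IsLengthSpace M.Pt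

/-- [FAT] a copy of `H` whose edges (and all other edges at its vertices) have length `n` contains an
`n / 3`-fat `H`-minor.

Proof. `B a = {x | 2/3 ≤ x.coord (ι a)}`, `P e = {x | ∀ c ∈ e, 1/3 ≤ x.coord (ι c)}`.
Every point is a vertex or `seg h t` (`exists_rep`), so its coordinates are known.
`B a` is star shaped around `vtx (ι a)`: a point of it is `vtx (ι a)` or `seg h t` with
`h : M.G.Adj (ι a) c`, `t ≤ 1/3` (use `seg_symm`), and `seg h '' [0, t] ⊆ B a` is connected and contains
`vtx (ι a) = seg h 0` (`isConnected` of a union of connected sets with a common point).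
For an edge `ab` of `H`, with `h : M.G.Adj (ι a) (ι b)`, `P s(a,b) = seg h '' [1/3, 2/3]`, and
`γ r = seg h ((1 + r) / 3)` is continuous, injective (look at the coordinate at `ι b`), with
`γ 0 ∈ B a`, `γ 1 ∈ B b`; a point `seg h t` with `1/3 ≤ t ≤ 2/3` in some `B w` has `w = a`, `t = 1/3` or
`w = b`, `t = 2/3`.
All lower bounds of distances: the function `f_c x = n * x.coord (ι c)` is admissible, because all
edges at `ι c` have length `n` (use `M.len_comm`) and `f_c` is `0` on the other edges. For `a ≠ b` and
`x ∈ B a`, `y ∈ B b`: `f_a x ≥ 2n/3`, `f_a y ≤ n/3` (the coordinates sum to `1`). For edges `e ≠ f` of `H`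
there is `c` in `e` not in `f`, `f_c ≥ n/3` on `P e` and `f_c = 0` on `P f`. For `v ∉ e`: `f_v ≥ 2n/3` on
`B v` and `f_v = 0` on `P e`. Use `le_dist`. Disjointness follows as the distances are positive. -/
def S_FAT : Prop := ∀ (M : MGraph.{u}) (W : Type w) (H : SimpleGraph W) (ι : W → M.V) (n : ℕ),
  1 ≤ n → Function.Injective ι → (∀ a b, H.Adj a b → M.G.Adj (ι a) (ι b)) →
  (∀ a b, M.G.Adj (ι a) b → M.len (ι a) b = n) →
  ∃ (B : W → Set M.Pt) (P : Sym2 W → Set M.Pt), IsFatMinor H M.Pt ((n : ℝ) / 3) B P

/-! ## From fat minors to ordinary minors of the nerve of a cover -/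

/-- [GLU] connected vertex sets `N w`, `Q e` of `Γ` that meet only if `w ∈ e` give a minor.

Proof. For every edge `e` choose one of its ends `src e` (for example from `Sym2` by `Quot.out`), let
`tgt e` be the other end, and `p e ∈ N (src e) ∩ Q e`. Let `A e` be the set of the vertices reachable
from `p e` in the subgraph of `Γ` induced on `Q e \ N (tgt e)` (note `p e ∉ N (tgt e)`). Put
`M w = N w ∪ ⋃ {A e | e an edge, src e = w}`: connected, since `A e` is connected and contains
`p e ∈ N w`. The sets `M w` are pairwise disjoint: `N w ∩ N x = ∅`; `A e ∩ A f = ∅` for `e ≠ f`; and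
`N x ∩ A e = ∅` for `x ≠ src e`: by hypothesis if `x ∉ e`, by construction if `x = tgt e`. For an edge `e`
some vertex of `A e` is adjacent to some vertex of `N (tgt e)`: otherwise `A e` is closed under taking
neighbours in `Q e`, so `A e = Q e` as `Γ.induce (Q e)` is connected, but `Q e` meets `N (tgt e)`. -/
def S_GLU : Prop := ∀ (A : Type v) (W : Type w) (Γ : SimpleGraph A) (Δ : SimpleGraph W)
  (N : W → Set A) (Q : Sym2 W → Set A),
  (∀ a, (Γ.induce (N a)).Connected) → (∀ e ∈ Δ.edgeSet, (Γ.induce (Q e)).Connected) →
  (∀ a b, a ≠ b → Disjoint (N a) (N b)) →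
  (∀ e ∈ Δ.edgeSet, ∀ f ∈ Δ.edgeSet, e ≠ f → Disjoint (Q e) (Q f)) →
  (∀ a, ∀ e ∈ Δ.edgeSet, a ∉ e → Disjoint (N a) (Q e)) →
  (∀ a, ∀ e ∈ Δ.edgeSet, a ∈ e → (N a ∩ Q e).Nonempty) → IsMinor Δ Γ

/-- [NRV] the nerve of an open cover by sets of diameter less than `K` contains all graphs with
`K`-fat minors. (Uses `S_GLU`.)

Proof. For `Y ⊆ X` let `N Y = {a | (U a ∩ Y).Nonempty}`. If `Y` is connected (and nonempty) then
`Γ.induce (N Y)` is connected: otherwise split `N Y` in a component `C` and its complement; the open sets
`⋃ a ∈ C, U a` and `⋃ a ∈ N Y \ C, U a` cover `Y`, both meet `Y`, so they meet inside `Y`, and then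
`U a ∩ U b` is nonempty for some `a ∈ C`, `b ∈ N Y \ C`, so `a`, `b` are adjacent, a contradiction. If
all distances between `Y` and `Z` are at least `K` then `N Y` and `N Z` are disjoint. Apply `S_GLU` with
`N (B w)` and `N (P e)`; `P e` is connected as the image of an arc, and meets `B w` for `w ∈ e`. -/
def S_NRV : Prop := ∀ (X : Type u) [MetricSpace X] (K : ℝ) (A : Type v) (Γ : SimpleGraph A)
  (U : A → Set X) (W : Type w) (Δ : SimpleGraph W) (B : W → Set X) (P : Sym2 W → Set X),
  (∀ a, IsOpen (U a)) → (∀ p : X, ∃ a, p ∈ U a) → (∀ a, ∀ p ∈ U a, ∀ q ∈ U a, dist p q < K) →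
  (∀ a b, a ≠ b → (U a ∩ U b).Nonempty → Γ.Adj a b) → IsFatMinor Δ X K B P → IsMinor Δ Γ

/-! ## Subdivisions -/

/-- `S` is the subdivision of `G` in which the edge `ab` is replaced by the path
`p a b 0 = ι a, p a b 1, ..., p a b (len a b) = ι b`. (`S` may have further isolated vertices.) -/
structure IsSubdivision {V : Type v} {A : Type w} (G : SimpleGraph V) (len : V → V → ℕ)
    (S : SimpleGraph A) (ι : V → A) (p : V → V → ℕ → A) : Prop where
  inj : Function.Injective ι
  start : ∀ a b, G.Adj a b → p a b 0 = ι a
  symm : ∀ a b, G.Adj a b → ∀ k, k ≤ len a b → p a b k = p b a (len a b - k)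
  interior : ∀ a b c, G.Adj a b → ∀ k, 0 < k → k < len a b → p a b k ≠ ι c
  unique : ∀ a b c d, G.Adj a b → G.Adj c d → ∀ k l, 0 < k → k < len a b → l ≤ len c d →
    p a b k = p c d l → (c = a ∧ d = b ∧ l = k) ∨ (c = b ∧ d = a ∧ l = len a b - k)
  adj : ∀ x y, S.Adj x y ↔ ∃ a b k, G.Adj a b ∧ k < len a b ∧ x = p a b k ∧ y = p a b (k + 1)

/-- [SUB] the integral points of a metric graph form a subdivision, and it is the nerve of an open cover
by sets of diameter less than `2`.

Proof. Let `A` be the set of the points `a : M.Pt` that are vertices or of the form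
`seg h (k / M.len u v)` with `k ≤ M.len u v` natural (a subtype of `M.Pt`), `ι = vtx`,
`p u v k = seg h (k / M.len u v)` (junk if `u`, `v` are not adjacent or `k > len`), and adjacency as in
the field `adj` of `IsSubdivision` (irreflexive and symmetric). All fields follow from comparing the
coordinates (`coord_seg_left` etc.: the set where the coordinates are nonzero is `{u}`, `{v}` or
`{u, v}`). Cover: for `a = vtx u` let `U a` be the set of `vtx u` and all `seg h t` with `h : M.G.Adj u v`,
`M.len u v * t < 1`; for `a = seg h (k / len)` with `0 < k < len`, `len = M.len u v`, let `U a` be the set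
of the points `x` with `len * |x.coord u - a.coord u| < 1` and `len * |x.coord v - a.coord v| < 1`; it
consists of points `seg h t` with `|len * t - k| < 1` (if `x.coord u = 0` then the first condition says
`len - k < 1`; so `x` lies in the interior of the edge `uv`). It is open by `continuous_coord`. The set
`U (vtx u)` is open because it is `{x | g x < 1}` with `g x = min 1 (∑ over the support of x of
c(w) * x.coord w)`, where `c(u) = 0`, `c(w) = M.len u w` if `w` is adjacent to `u` and `c(w) = 1`
otherwise; `g` is admissible: on an edge `uw` it is `min 1 (len * t)`, on the other edges it is `1`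
(`Adm.continuous`). (Any other definition of `g` will do, for example by gluing functions defined on the
edges.) Diameter: two points of `U a` have distance less than `1` from `a` by `dist_seg_le`. Cover: for
`seg h t` take the integer `k` next to `len * t`. Nerve: let `x ∈ U a ∩ U b`, `a ≠ b`. Then `x`, `a`, `b` lie
on one closed edge `uv`, at positions `t`, `k / len`, `l / len`, with `|len * t - k| < 1`,
`|len * t - l| < 1`, so `|k - l| < 2`, `l = k + 1` or `k = l + 1`. (If `x` is a vertex then `a = b = x`.) -/
def S_SUB : Prop := ∀ M : MGraph.{u}, ∃ (A : Type u) (S : SimpleGraph A) (ι : M.V → A)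
  (p : M.V → M.V → ℕ → A) (U : A → Set M.Pt), IsSubdivision M.G M.len S ι p ∧
  (∀ a, IsOpen (U a)) ∧ (∀ q : M.Pt, ∃ a, q ∈ U a) ∧
  (∀ a, ∀ q ∈ U a, ∀ r ∈ U a, dist q r < 2) ∧
  ∀ a b, a ≠ b → (U a ∩ U b).Nonempty → S.Adj a b

/-- [UNS] a minor of minimum degree at least three of a subdivision of `G` is a minor of `G`.

Proof. Let `B w` be the branch sets in `S`.
(1) Every `B w` contains some `ι a`. Suppose not. `B w` is nonempty and has an outside neighbour, so some
`x ∈ B w` has a neighbour in `S`, `x = p a b k`, `0 < k < len a b`; since `B w` is connected and contains no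
`ι c`, `B w ⊆ {p a b j | 0 < j < len a b}` (a neighbour of `p a b j` with `0 < j < len` is
`p a b (j - 1)` or `p a b (j + 1)`, by `unique`, `symm`). The set `J = {j | p a b j ∈ B w}` is an interval:
if `i < m < j`, `i, j ∈ J`, `m ∉ J` then `{x ∈ B w | x = p a b l, l < m}` is closed under neighbours in
`B w`, contradicting connectedness. So every neighbour of `B w` outside `B w` is `p a b (min J - 1)` or
`p a b (max J + 1)`, and of three disjoint sets `B w'` adjacent to `B w` two contain the same vertex.
(2) Anchors. For `x ∈ B w` there are `u` with `ι u ∈ B w` and (`x = ι u` or `v`, `k` with `G.Adj u v`,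
`k ≤ len u v`, `x = p u v k` and `p u v j ∈ B w` for all `j ≤ k`): `x` is anchored at `u`. More precisely, if
`ι c ∈ B w` then `x` is anchored at some `u` reachable from `c` in `G.induce (ι ⁻¹' B w)`: induction along a
walk in `B w` from `ι c` to `x`. Step: `x` anchored at `u`, `y ∈ B w` adjacent to `x`. If `x = ι u` then `y`
is `p u v 1`. If `x = p u v k`, `0 < k < len u v`, then `y = p u v (k - 1)` or `p u v (k + 1)` and is
anchored at `u`. If `x = p u v k` with `k = len u v` then `x = ι v`, all `p u v j` are in `B w`, so `v` is
adjacent to `u` and `ι v ∈ B w`: now `x` is anchored at `v`. In particular `M w = ι ⁻¹' B w` is connected in `G`.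
(3) Let `w`, `w'` be adjacent in `Δ`; then `x ∈ B w`, `y ∈ B w'` with `x = p a b k`, `y = p a b (k + 1)`.
Claim `ι a ∈ B w`, `ι b ∈ B w'` (so the edge `ab` joins `M w` to `M w'`). If `k = 0`, `x = ι a`. Otherwise `x`
is anchored at `a` or `b` by `unique`; if at `b` then `y` would be in `B w`, impossible. The same for `y`.
The sets `M w` are disjoint as `ι` is a function. -/
def S_UNS : Prop := ∀ (V : Type u) (A : Type v) (W : Type w) (G : SimpleGraph V)
  (len : V → V → ℕ) (S : SimpleGraph A) (ι : V → A) (p : V → V → ℕ → A) (Δ : SimpleGraph W),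
  (∀ a b, len a b = len b a) → (∀ a b, G.Adj a b → 1 ≤ len a b) → IsSubdivision G len S ι p →
  (∀ a, 3 ≤ (Δ.neighborSet a).encard) → IsMinor Δ S → IsMinor Δ G

/-! ## Cut vertices, the wedge -/

/-- [CUT] `Γ` minus a vertex `z` falls into sides, each containing at most one neighbour of `z`; a graph
that is 2-connected with minimum degree at least three and is a minor of `Γ` is a minor of a side.

Proof. If `W` is empty every `i` works (`i = side z`). Let `B` be the branch sets. Every `B d` with
`z ∉ B d` lies in one side, and if `d`, `d'` are adjacent, `z ∉ B d`, `z ∉ B d'`, they are in the same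
side. At most one `x : W` has `z ∈ B x`. Since `Δ - x` is connected (and nonempty; if no such `x` exists
use that `Δ` is connected, because `Δ - x` is connected and `x` has a neighbour, for any `x`), all `B d`,
`d ≠ x`, lie in one side `i`. If no `B x` contains `z` we are done. Otherwise replace `B x` by
`B' x = {a ∈ B x | a ≠ z, side a = i}`. Let `c` be the neighbour of `z` in the side `i`, if it exists.
`x` has three neighbours `d` in `Δ`, at most one of the disjoint sets `B d` contains `c`, so for some `d`
the edge of `Γ` between `B x` and `B d` does not start at `z`, it starts in the side `i`: so `B' x` is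
nonempty. Take a walk in `B x` from a point of `B' x` to `z`; it leaves the side through `c`, so `c ∈ B x`
and every point of `B' x` is joined to `c` inside `B' x` (the part of the walk before the first visit of
`z`): `B' x` is connected. As `c ∈ B x`, no `B d`, `d ≠ x`, contains `c`, so every edge of `Γ` between `B x`
and `B d`, `d ≠ x`, starts in `B' x`. -/
def S_CUT : Prop := ∀ (A : Type u) (I : Type v) (W : Type w) (Γ : SimpleGraph A) (z : A)
  (side : A → I) (Δ : SimpleGraph W),
  (∀ a b, a ≠ z → b ≠ z → Γ.Adj a b → side a = side b) →
  (∀ a b, Γ.Adj z a → Γ.Adj z b → side a = side b → a = b) → TwoConnThree Δ → IsMinor Δ Γ →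
  ∃ i, IsMinor Δ (Γ.induce {a | a ≠ z ∧ side a = i})

/-- [HOM] minors and injective homomorphisms; reflexivity.

Proof. Use the images `f '' M a`, the sets `M (g a)` and the singletons `{a}`. -/
def S_HOM : Prop :=
  (∀ (U : Type u) (V : Type v) (W : Type w) (Δ : SimpleGraph U) (G : SimpleGraph V)
    (H : SimpleGraph W) (f : V → W), Function.Injective f →
    (∀ a b, G.Adj a b → H.Adj (f a) (f b)) → IsMinor Δ G → IsMinor Δ H) ∧
  (∀ (U : Type u) (V : Type v) (W : Type w) (Δ : SimpleGraph U) (G : SimpleGraph V)
    (Δ' : SimpleGraph W) (g : W → U), Function.Injective g →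
    (∀ a b, Δ'.Adj a b → Δ.Adj (g a) (g b)) → IsMinor Δ G → IsMinor Δ' G) ∧
  ∀ (V : Type v) (G : SimpleGraph V), IsMinor G G

/-- [TRN] transitivity.

Proof. If `M` is a model of `H` in `G` and `N` a model of `K` in `H`, use `⋃ b ∈ N a, M b`: connected,
because `N a` is connected in `H` and for every edge `bc` of `H` inside `N a` an edge of `G` joins the
connected sets `M b`, `M c`. -/
def S_TRN : Prop := ∀ (U : Type u) (V : Type v) (W : Type w) (K : SimpleGraph U)
  (H : SimpleGraph V) (G : SimpleGraph W), IsMinor K H → IsMinor H G → IsMinor K G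

/-- [WED] the wedge of the copies of `H`. (Uses `S_CUT.{u,u,w}`, `S_HOM.{w,u,u}`.)

Proof. Choose `rep : V → V` with `H.Reachable a (rep a)` and `rep a = rep b` for all reachable `a`, `b`
(`rep a = (H.connectedComponentMk a).out`). Let `M.V = Option (ℕ × V)`, with the edges
`some (n, a) ~ some (n, b)` for `H.Adj a b` and `none ~ some (n, a)` for `rep a = a`; the length of every
edge with an end in the `n`-th copy is `n + 1` (`len none none = 1`). It is connected: `(n, a)` is
connected to `(n, rep a)` and that is adjacent to `none` (`rep (rep a) = rep a`). `ι a = some (n, a)`. Let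
`Δ` be 2-connected with minimum degree at least three, `IsMinor Δ M.G`. Apply `S_CUT` with `z = none`,
`side (some (n, a)) = some (n, rep a)`, `side none = none` (values in `Option (ℕ × V)`): two neighbours
`some (n, a)`, `some (m, b)` of `none` with the same side have `n = m`, `a = rep a = rep b = b`. So `Δ` is a
minor of the subgraph induced on the side `i`, which is empty (`i = none`, or `i = some (n, c)` without
vertices; still fine) or maps injectively to `H` by `some (n, a) ↦ a`; use `S_HOM`. (If `i = none` the
side is the empty set and `Δ` has no vertices, so it is a minor of `H`.) -/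
def S_WED : Prop := ∀ (V : Type u) (H : SimpleGraph V), ∃ M : MGraph.{u},
  (∀ n : ℕ, ∃ ι : V → M.V, Function.Injective ι ∧ (∀ a b, H.Adj a b → M.G.Adj (ι a) (ι b)) ∧
    ∀ a b, M.G.Adj (ι a) b → M.len (ι a) b = n + 1) ∧
  ∀ (W : Type w) (Δ : SimpleGraph W), TwoConnThree Δ → IsMinor Δ M.G → IsMinor Δ H

/-! ## Minors of fat minors, cones, finite bases -/

/-- [CLO] a minor of a graph with a `K`-fat minor model has one too.

Proof. Let `M a`, `a : W`, be the branch sets of a model of `H` in `Δ`, and for every edge `ab` of `H` choose
an edge `φ s(a,b)` of `Δ` between `M a` and `M b` (one choice for the unordered pair; for example choose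
for `e : Sym2 W` an `e' : Sym2 V` in `Δ.edgeSet` such that for all `a`, `b` with `e = s(a,b)` there are
`x ∈ M a`, `y ∈ M b` with `e' = s(x,y)`). Put
`B' a = (⋃ x ∈ M a, B x) ∪ ⋃ {P e | e ∈ Δ.edgeSet, both ends of e in M a}`, `P' e = P (φ e)`.
`B' a` is connected: `M a` is connected in `Δ` and for every edge `xy` inside `M a` the set
`B x ∪ P s(x,y) ∪ B y` is connected. `φ` is injective on edges since the sets `M a` are disjoint. An edge
with both ends in `M a`, an edge with both ends in `M b` (`a ≠ b`) and the edges `φ e` are all different;
a branch set `B x`, `x ∈ M a`, is not incident with an edge inside `M b`, nor with `φ e` if `a ∉ e`. So all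
distances and disjointness properties are inherited (disjointness of `B x` and `P e`, `x ∉ e`, from
`0 < K ≤ dist`). The arc of `φ s(a,b) = s(x,y)` runs from `B x ⊆ B' a` to `B y ⊆ B' b`, and it meets
`⋃ a, B' a` only in its end points: it does not meet other branch paths, and meets `⋃ x, B x` only in its
end points. (If the chosen edge is `s(y,x)` for `s(b,a)`, reverse the arc.) -/
def S_CLO : Prop := ∀ (X : Type u) [MetricSpace X] (K : ℝ) (V : Type v) (W : Type w)
  (Δ : SimpleGraph V) (H : SimpleGraph W) (B : V → Set X) (P : Sym2 V → Set X), 0 < K →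
  IsMinor H Δ → IsFatMinor Δ X K B P →
  ∃ (B' : W → Set X) (P' : Sym2 W → Set X), IsFatMinor H X K B' P'

/-- The cone over `G`: a new vertex `none` is joined to all vertices. -/
def cone {V : Type v} (G : SimpleGraph V) : SimpleGraph (Option V) where
  Adj
    | none, none => False
    | none, some _ => True
    | some _, none => True
    | some a, some b => G.Adj a b
  symm := ⟨by rintro (_ | a) (_ | b) h <;> first | exact h | exact h.symm⟩
  loopless := ⟨by rintro (_ | a) h; exact h; exact G.irrefl h⟩

/-- [CNE] cones reflect minors, and triple cones are 2-connected with minimum degree at least three.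

Proof. Let `B` be a model of `cone G` in `cone H`. If `none ∉ B (some a)` for all `a`, use the sets
`{x | some x ∈ B (some a)}`. Otherwise `none ∈ B (some c)` for exactly one `c`; use these sets for
`a ≠ c` and `{x | some x ∈ B none}` for `a = c`: the set `B none` is joined to all others and does not
contain `none`. For the second claim let `x` be a vertex of the triple cone; one of the three new
vertices is different from `x` and adjacent to all other vertices, so removing `x` leaves a connected
graph; a new vertex is adjacent to the two other new vertices and to a vertex of `G`, and a vertex of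
`G` is adjacent to the three new vertices. -/
def S_CNE : Prop :=
  (∀ (V : Type v) (W : Type w) (G : SimpleGraph V) (H : SimpleGraph W),
    IsMinor (cone G) (cone H) → IsMinor G H) ∧
  ∀ (V : Type v) (G : SimpleGraph V), Nonempty V → TwoConnThree (cone (cone (cone G)))

/-- `F` has finitely many members such that every member of `F` has one of them as a minor. -/
def HasFiniteBasis (F : Set FinGraph) : Prop :=
  ∃ F₀ : Set FinGraph, F₀ ⊆ F ∧ F₀.Finite ∧ ∀ Δ ∈ F, ∃ D ∈ F₀, IsMinor D.2 Δ.2

/-- [FIN] finite bases. (Uses `S_HOM.{0,0,0}`, `S_TRN.{0,0,0}`.)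

Proof. (a) `GraphMinorTheorem` implies finite bases: if `F` has no finite basis then for every finite
set of members of `F` some member of `F` has none of them as a minor, and
`exists_seq_of_forall_finset_exists` gives a sequence without `i < j`, `G i ≼ G j`.
(b) Finite bases imply `GraphMinorTheorem`: take `F = range G`, a finite basis is `G '' T`, `T` finite;
take `j` larger than all elements of `T`; some `G i`, `i ∈ T`, is a minor of `G j`.
(c) Finite bases imply `RobertsonSeymour`: take a finite basis of the complement of `C`.
(d) `RobertsonSeymour` implies finite bases: let `C` be the set of the graphs without minor in `F`; it is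
minor-closed (`S_TRN`). Let `C` be given by the finite set `F₁`. Every `D ∈ F₁` is not in `C` (reflexivity),
so it has a minor `m D ∈ F`. Every `Δ ∈ F` is not in `C`, so it has a minor `D ∈ F₁` and then `m D` is a
minor of `Δ`. So `m '' F₁` is a finite basis. -/
def S_FIN : Prop := (GraphMinorTheorem ↔ ∀ F, HasFiniteBasis F) ∧
  (RobertsonSeymour ↔ ∀ F, HasFiniteBasis F)

end Pool.Agent.Lib.MP_4aff23_co
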